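import Pool.Agent.H52.AP.Stubs

/-!
# AP-BF: the sum over the pairs, one `v` and one `f` (helper85)
-/

set_option autoImplicit false

namespace Pool.Agent.H52.AP.BF

variable [Pool.Agent.H52.W.Lam]

open Finset Filter NumberField Pool.Agent.H38R2.CG Pool.Agent.H52.W Pool.Agent.H52.W.CG2
  Pool.Agent.H52.W.SH
open scoped Classical

theorem rhoQ_congr (z r v n n' : ℕ) (h : n ≡ n' [MOD Qz z * (qpart z v) ^ 2]) :
    rhoQ z r n v = rhoQ z r n' v := by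
  unfold rhoQ
  congr 1
  apply Finset.filter_congr
  intro u _
  have h1 : 4 * n + r * v ^ 2 ≡ 4 * n' + r * v ^ 2 [MOD Qz z * (qpart z v) ^ 2] :=
    (h.mul_left 4).add_right _
  exact ⟨fun h2 => h2.trans h1, fun h2 => h2.trans h1.symm⟩

theorem norm_jac (x : ℤ) (f : ℕ) : |((jacobiSym x f : ℤ) : ℝ)| ≤ 1 := by
  rcases jacobiSym.trichotomy x f with h | h | h <;> rw [h] <;> simp

theorem norm_jacC (x : ℤ) (f : ℕ) : ‖((jacobiSym x f : ℤ) : ℂ)‖ ≤ 1 := by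
  rcases jacobiSym.trichotomy x f with h | h | h <;> rw [h] <;> simp

/-- the sum with additive characters of the logarithm -/
theorem chars (hBL : A_BL) (hTB : P_TB3c) (z r v m N B f : ℕ) (S : Finset ℕ) (x t : ℝ)
    (hv : 1 ≤ v) (hm : m.Prime) (hm2 : m ≠ 2) (hmN : m ≤ N) (hB : ¬ m ∣ B)
    (hS : ∀ s ∈ S, 1 ≤ s ∧ s ≤ N ∧ ¬ m ∣ s) (hco : ∀ s ∈ S, s.Coprime (Qz z)) :
    |∑ s ∈ S, ∑ t' ∈ S, (rhoQ z r (s * t') v : ℝ) * ((jacobiSym ((s * t' : ℕ) : ℤ) f : ℤ) : ℝ) *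
      Real.cos (x * (Real.log (s * t' : ℕ) - t)) *
      ((jacobiSym ((4 * (s * t') + B : ℕ) : ℤ) m : ℤ) : ℝ)| ≤
    (Qz z * 8 * 2 ^ z : ℝ) * ((Qz z * (qpart z v) ^ 2 : ℕ) : ℝ) ^ 2 *
      (3 * S.card * N / √(m : ℝ)) := by
  obtain ⟨M, hM⟩ : ∃ M : ℕ, M = Qz z * (qpart z v) ^ 2 := ⟨_, rfl⟩
  have hQ0 : 0 < Qz z := by
    unfold Qz
    have : 0 < ∏ l ∈ (Finset.Icc 3 z).filter Nat.Prime, l ^ 2 :=
      Finset.prod_pos fun l hl => pow_pos (Finset.mem_filter.1 hl).2.pos 2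
    omega
  have hq0 : 0 < qpart z v := by
    unfold qpart
    exact Finset.prod_pos fun p hp =>
      pow_pos (Nat.prime_of_mem_primeFactors (Finset.mem_filter.1 hp).1).pos _
  have hM0 : 0 < M := by rw [hM]; positivity
  -- the coefficients
  obtain ⟨a, ha⟩ : ∃ a : ℕ → ℂ, a = fun s : ℕ => ((jacobiSym (s : ℤ) f : ℤ) : ℂ) *
    Complex.exp (((x * Real.log s : ℝ) : ℂ) * Complex.I) := ⟨_, rfl⟩
  obtain ⟨b, hb⟩ : ∃ b : ℕ → ℂ, b = fun s : ℕ => ((jacobiSym (s : ℤ) f : ℤ) : ℂ) *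
    Complex.exp (((x * (Real.log s - t) : ℝ) : ℂ) * Complex.I) := ⟨_, rfl⟩
  have han : ∀ s, ‖a s‖ ≤ 1 := by
    intro s
    rw [ha]
    simp only
    rw [norm_mul, Complex.norm_exp_ofReal_mul_I, mul_one]
    exact norm_jacC _ _
  have hbn : ∀ s, ‖b s‖ ≤ 1 := by
    intro s
    rw [hb]
    simp only
    rw [norm_mul, Complex.norm_exp_ofReal_mul_I, mul_one]
    exact norm_jacC _ _
  obtain ⟨J, hJ⟩ : ∃ J : ℕ → ℕ → ℂ, J = fun s t' =>
    ((jacobiSym ((4 * (s * t') + B : ℕ) : ℤ) m : ℤ) : ℂ) := ⟨_, rfl⟩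
  obtain ⟨A, hA⟩ : ∃ A : Finset ℕ, A = S.image (fun s => s % M) := ⟨_, rfl⟩
  have hAc : (A.card : ℝ) ≤ M := by
    have h1 : A ⊆ Finset.range M := by
      intro y hy
      rw [hA, Finset.mem_image] at hy
      obtain ⟨s, _, rfl⟩ := hy
      exact Finset.mem_range.2 (Nat.mod_lt _ hM0)
    have h2 := Finset.card_le_card h1
    rw [Finset.card_range] at h2
    exact_mod_cast h2
  -- real part
  obtain ⟨Z, hZ⟩ : ∃ Z : ℂ, Z = ∑ q ∈ S ×ˢ S, ((rhoQ z r (q.1 * q.2) v : ℝ) : ℂ) *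
    (a q.1 * b q.2 * J q.1 q.2) := ⟨_, rfl⟩
  have hre : ∑ s ∈ S, ∑ t' ∈ S, (rhoQ z r (s * t') v : ℝ) *
      ((jacobiSym ((s * t' : ℕ) : ℤ) f : ℤ) : ℝ) *
      Real.cos (x * (Real.log (s * t' : ℕ) - t)) *
      ((jacobiSym ((4 * (s * t') + B : ℕ) : ℤ) m : ℤ) : ℝ) = Z.re := by
    rw [hZ, Complex.re_sum, Finset.sum_product]
    refine Finset.sum_congr rfl fun s hs => Finset.sum_congr rfl fun t' ht' => ?_
    have hs1 := (hS s hs).1
    have ht1 := (hS t' ht').1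
    have h1 : a s * b t' * J s t' = (((jacobiSym ((s * t' : ℕ) : ℤ) f : ℤ) : ℝ) : ℂ) *
        Complex.exp (((x * (Real.log (s * t' : ℕ) - t) : ℝ) : ℂ) * Complex.I) *
        (((jacobiSym ((4 * (s * t') + B : ℕ) : ℤ) m : ℤ) : ℝ) : ℂ) := by
      rw [ha, hb, hJ]
      simp only
      have h2 : jacobiSym ((s * t' : ℕ) : ℤ) f = jacobiSym (s : ℤ) f * jacobiSym (t' : ℤ) f := by
        push_cast
        exact jacobiSym.mul_left _ _ _
      have h3 : Real.log ((s * t' : ℕ) : ℝ) = Real.log s + Real.log t' := by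
        push_cast
        exact Real.log_mul (by positivity) (by positivity)
      have h4 : Complex.exp (((x * (Real.log (s * t' : ℕ) - t) : ℝ) : ℂ) * Complex.I) =
          Complex.exp (((x * Real.log s : ℝ) : ℂ) * Complex.I) *
          Complex.exp (((x * (Real.log t' - t) : ℝ) : ℂ) * Complex.I) := by
        rw [← Complex.exp_add, h3]
        congr 1
        push_cast
        ring
      rw [h4, h2]
      push_cast
      ring
    simp only
    rw [h1]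
    rw [Complex.re_ofReal_mul, mul_assoc, mul_assoc]
    congr 1
    rw [mul_assoc, Complex.re_ofReal_mul]
    congr 1
    rw [mul_comm (Complex.exp _), Complex.re_ofReal_mul, Complex.exp_ofReal_mul_I_re, mul_comm]
  rw [hre]
  -- the classes
  have hcl : Z = ∑ p ∈ A ×ˢ A, ((rhoQ z r (p.1 * p.2) v : ℝ) : ℂ) * ∑ s ∈ S, ∑ t' ∈ S,
      (if s % M = p.1 then a s else 0) * (if t' % M = p.2 then b t' else 0) * J s t' := by
    have h1 : ∀ p : ℕ × ℕ, ∑ s ∈ S, ∑ t' ∈ S,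
        (if s % M = p.1 then a s else 0) * (if t' % M = p.2 then b t' else 0) * J s t' =
        ∑ q ∈ S ×ˢ S, (if q.1 % M = p.1 then a q.1 else 0) *
          (if q.2 % M = p.2 then b q.2 else 0) * J q.1 q.2 := by
      intro p
      rw [Finset.sum_product]
    simp only [h1, Finset.mul_sum]
    rw [Finset.sum_comm, hZ]
    refine Finset.sum_congr rfl fun q hq => ?_
    rw [Finset.mem_product] at hq
    rw [Finset.sum_eq_single (q.1 % M, q.2 % M)]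
    · simp only [if_true]
      congr 3
      apply rhoQ_congr
      rw [← hM]
      exact (Nat.ModEq.mul (Nat.mod_modEq _ _) (Nat.mod_modEq _ _)).symm
    · intro p _ hp
      by_cases h2 : q.1 % M = p.1
      · have h3 : q.2 % M ≠ p.2 := fun h3 => hp (Prod.ext h2.symm h3.symm)
        rw [if_neg h3]
        ring
      · rw [if_neg h2]
        ring
    · intro h2
      exfalso
      apply h2
      rw [Finset.mem_product, hA]
      exact ⟨Finset.mem_image_of_mem _ hq.1, Finset.mem_image_of_mem _ hq.2⟩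
  obtain ⟨Bd, hBd⟩ : ∃ Bd : ℝ, Bd = 3 * S.card * N / √(m : ℝ) := ⟨_, rfl⟩
  have hBd0 : 0 ≤ Bd := by rw [hBd]; positivity
  obtain ⟨R, hR⟩ : ∃ R : ℝ, R = (Qz z * 8 * 2 ^ z : ℝ) := ⟨_, rfl⟩
  have hR0 : 0 ≤ R := by rw [hR]; positivity
  have hin : ∀ p ∈ A ×ˢ A, ‖((rhoQ z r (p.1 * p.2) v : ℝ) : ℂ) * ∑ s ∈ S, ∑ t' ∈ S,
      (if s % M = p.1 then a s else 0) * (if t' % M = p.2 then b t' else 0) * J s t'‖ ≤
      R * Bd := by
    intro p hp
    rw [Finset.mem_product, hA, Finset.mem_image, Finset.mem_image] at hp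
    obtain ⟨⟨s₀, hs₀, e1⟩, ⟨t₀, ht₀, e2⟩⟩ := hp
    rw [norm_mul]
    refine mul_le_mul ?_ ?_ (norm_nonneg _) hR0
    · rw [Complex.norm_real, Real.norm_eq_abs, abs_of_nonneg (Nat.cast_nonneg _)]
      have h1 : rhoQ z r (p.1 * p.2) v = rhoQ z r (s₀ * t₀) v := by
        apply rhoQ_congr
        rw [← hM, ← e1, ← e2]
        exact Nat.ModEq.mul (Nat.mod_modEq _ _) (Nat.mod_modEq _ _)
      rw [h1, hR]
      have h2 := hTB z r (s₀ * t₀) v hv (Nat.Coprime.mul_left (hco _ hs₀) (hco _ ht₀))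
      exact_mod_cast h2
    · rw [hBd, hJ]
      refine hBL m N B S (fun s => if s % M = p.1 then a s else 0)
        (fun t' => if t' % M = p.2 then b t' else 0) hm hm2 hmN hB hS ?_ ?_
      · intro s
        split_ifs
        · exact han s
        · simp
      · intro s
        split_ifs
        · exact hbn s
        · simp
  calc |Z.re| ≤ ‖Z‖ := Complex.abs_re_le_norm Z
    _ ≤ ∑ p ∈ A ×ˢ A, ‖((rhoQ z r (p.1 * p.2) v : ℝ) : ℂ) * ∑ s ∈ S, ∑ t' ∈ S,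
      (if s % M = p.1 then a s else 0) * (if t' % M = p.2 then b t' else 0) * J s t'‖ := by
        rw [hcl]; exact norm_sum_le _ _
    _ ≤ ∑ _p ∈ A ×ˢ A, R * Bd := Finset.sum_le_sum hin
    _ = (A.card : ℝ) ^ 2 * (R * Bd) := by
        rw [Finset.sum_const, Finset.card_product, nsmul_eq_mul]
        push_cast
        ring
    _ ≤ (M : ℝ) ^ 2 * (R * Bd) := by
        refine mul_le_mul_of_nonneg_right ?_ (by positivity)
        exact pow_le_pow_left₀ (Nat.cast_nonneg _) hAc 2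
    _ = _ := by rw [hBd, hR, hM]; ring

/-- the sum with the Fejer kernel -/
theorem core (hBL : A_BL) (hTB : P_TB3c) (z r v m N B f : ℕ) (S : Finset ℕ) (l t : ℝ)
    (hv : 1 ≤ v) (hm : m.Prime) (hm2 : m ≠ 2) (hmN : m ≤ N) (hB : ¬ m ∣ B)
    (hS : ∀ s ∈ S, 1 ≤ s ∧ s ≤ N ∧ ¬ m ∣ s) (hco : ∀ s ∈ S, s.Coprime (Qz z)) :
    |∑ s ∈ S, ∑ t' ∈ S, (rhoQ z r (s * t') v : ℝ) * ((jacobiSym ((s * t' : ℕ) : ℤ) f : ℤ) : ℝ) *
      fej (l * (Real.log (s * t' : ℕ) - t)) *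
      ((jacobiSym ((4 * (s * t') + B : ℕ) : ℤ) m : ℤ) : ℝ)| ≤
    (Qz z * 8 * 2 ^ z : ℝ) * ((Qz z * (qpart z v) ^ 2 : ℕ) : ℝ) ^ 2 *
      (3 * S.card * N / √(m : ℝ)) * 2 := by
  have h1 : ∑ s ∈ S, ∑ t' ∈ S, (rhoQ z r (s * t') v : ℝ) *
      ((jacobiSym ((s * t' : ℕ) : ℤ) f : ℤ) : ℝ) *
      fej (l * (Real.log (s * t' : ℕ) - t)) *
      ((jacobiSym ((4 * (s * t') + B : ℕ) : ℤ) m : ℤ) : ℝ) =
      ∫ ξ in (-1 : ℝ)..1, (1 - |ξ|) * ∑ s ∈ S, ∑ t' ∈ S, (rhoQ z r (s * t') v : ℝ) *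
        ((jacobiSym ((s * t' : ℕ) : ℤ) f : ℤ) : ℝ) *
        Real.cos ((ξ * l) * (Real.log (s * t' : ℕ) - t)) *
        ((jacobiSym ((4 * (s * t') + B : ℕ) : ℤ) m : ℤ) : ℝ) := by
    have h2 : ∀ ξ : ℝ, (1 - |ξ|) * ∑ s ∈ S, ∑ t' ∈ S, (rhoQ z r (s * t') v : ℝ) *
        ((jacobiSym ((s * t' : ℕ) : ℤ) f : ℤ) : ℝ) *
        Real.cos ((ξ * l) * (Real.log (s * t' : ℕ) - t)) *
        ((jacobiSym ((4 * (s * t') + B : ℕ) : ℤ) m : ℤ) : ℝ) =
        ∑ s ∈ S, ∑ t' ∈ S, ((rhoQ z r (s * t') v : ℝ) *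
        ((jacobiSym ((s * t' : ℕ) : ℤ) f : ℤ) : ℝ) *
        ((jacobiSym ((4 * (s * t') + B : ℕ) : ℤ) m : ℤ) : ℝ)) *
        ((1 - |ξ|) * Real.cos (ξ * (l * (Real.log (s * t' : ℕ) - t)))) := by
      intro ξ
      rw [Finset.mul_sum]
      refine Finset.sum_congr rfl fun s _ => ?_
      rw [Finset.mul_sum]
      refine Finset.sum_congr rfl fun t' _ => ?_
      rw [mul_assoc ξ l]
      ring
    simp only [h2]
    rw [intervalIntegral.integral_finsetSum]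
    · refine Finset.sum_congr rfl fun s _ => ?_
      rw [intervalIntegral.integral_finsetSum]
      · refine Finset.sum_congr rfl fun t' _ => ?_
        rw [intervalIntegral.integral_const_mul]
        unfold fej
        ring
      · intro t' _
        apply Continuous.intervalIntegrable
        fun_prop
    · intro s _
      apply Continuous.intervalIntegrable
      fun_prop
  rw [h1]
  have h3 := intervalIntegral.norm_integral_le_of_norm_le_const (a := (-1 : ℝ)) (b := 1)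
    (C := (Qz z * 8 * 2 ^ z : ℝ) * ((Qz z * (qpart z v) ^ 2 : ℕ) : ℝ) ^ 2 *
      (3 * S.card * N / √(m : ℝ)))
    (f := fun ξ => (1 - |ξ|) * ∑ s ∈ S, ∑ t' ∈ S, (rhoQ z r (s * t') v : ℝ) *
        ((jacobiSym ((s * t' : ℕ) : ℤ) f : ℤ) : ℝ) *
        Real.cos ((ξ * l) * (Real.log (s * t' : ℕ) - t)) *
        ((jacobiSym ((4 * (s * t') + B : ℕ) : ℤ) m : ℤ) : ℝ)) (by
      intro ξ hξ
      rw [Set.uIoc_of_le (by norm_num), Set.mem_Ioc] at hξ
      rw [norm_mul, Real.norm_eq_abs, Real.norm_eq_abs]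
      have h4 := chars hBL hTB z r v m N B f S (ξ * l) t hv hm hm2 hmN hB hS hco
      have h5 : abs (1 - abs ξ) ≤ 1 := by
        have h6 : |ξ| ≤ 1 := abs_le.2 ⟨hξ.1.le, hξ.2⟩
        have h7 := abs_nonneg ξ
        rw [abs_of_nonneg (by linarith)]
        linarith
      calc abs (1 - abs ξ) * _ ≤ 1 * _ := mul_le_mul h5 h4 (abs_nonneg _) (by norm_num)
        _ = _ := one_mul _)
  rw [Real.norm_eq_abs] at h3
  have h4 : |(1 : ℝ) - -1| = 2 := by norm_num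
  rw [h4] at h3
  exact h3

theorem mem_PA {a : ℝ} {X p : ℕ} (hp : p ∈ PA a X) : p.Prime ∧ yA a X < p ∧ p ≤ 2 * yA a X := by
  unfold PA PP at hp
  rw [Finset.mem_filter, Finset.mem_Ioc] at hp
  exact ⟨hp.2, hp.1.1, hp.1.2⟩

theorem large_y {a : ℝ} (ha : 2 < a) (z : ℕ) : ∃ X0 : ℕ, ∀ X ≥ X0, z ≤ yA a X := by
  have h1 : Tendsto (fun X : ℕ => (Real.log X) ^ a / 4) atTop atTop := by
    apply Tendsto.atTop_div_const (by norm_num)
    exact (tendsto_rpow_atTop (by linarith)).comp (Real.tendsto_log_atTop.comp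
      tendsto_natCast_atTop_atTop)
  have h2 := h1.eventually_ge_atTop (z : ℝ)
  obtain ⟨X0, h⟩ := eventually_atTop.1 h2
  exact ⟨X0, fun X hX => Nat.le_floor (h X hX)⟩

theorem not_dvd_Qz {z p : ℕ} (hz : 2 ≤ z) (hp : p.Prime) (hzp : z < p) : ¬ p ∣ Qz z := by
  unfold Qz
  rw [hp.dvd_mul]
  rintro (h | h)
  · have h1 : p ∣ 2 ^ 4 := by simpa using h
    have h2 := hp.dvd_of_dvd_pow h1
    have := Nat.le_of_dvd (by norm_num) h2
    omega
  · rw [Prime.dvd_finsetProd_iff hp.prime] at h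
    obtain ⟨l, hl, hpl⟩ := h
    rw [Finset.mem_filter, Finset.mem_Icc] at hl
    have h2 := hp.dvd_of_dvd_pow hpl
    have := Nat.le_of_dvd hl.2.pos h2
    omega

theorem pow_large {e : ℝ} (he : 0 < e) (C : ℝ) : ∃ X0 : ℕ, ∀ X ≥ X0, C < (X : ℝ) ^ e := by
  have h1 : Tendsto (fun X : ℕ => (X : ℝ) ^ e) atTop atTop :=
    (tendsto_rpow_atTop he).comp tendsto_natCast_atTop_atTop
  obtain ⟨X0, h⟩ := eventually_atTop.1 (h1.eventually_gt_atTop C)
  exact ⟨X0, fun X hX => h X hX⟩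

theorem main : P2_SZ → P2_NB → Q_NB → P_TB3c → A_BL → A_BF := by
  intro hSZ hNB hQNB hTB hBL a ha κ hκ z hz
  obtain ⟨X1, h1⟩ := hSZ a ha
  obtain ⟨X2, h2⟩ := hNB a ha (κ / 2) (by positivity)
  obtain ⟨X3, h3⟩ := hQNB a ha (κ / 8) (by positivity)
  obtain ⟨X4, h4⟩ := large_y ha z
  obtain ⟨X5, h5⟩ := pow_large (e := κ / 8) (by positivity) 6
  refine ⟨max (max X1 X2) (max (max X3 X4) (max X5 1)), fun X hX m b T hR r v f l t hv hmv => ?_⟩
  simp only [ge_iff_le, max_le_iff] at hX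
  obtain ⟨⟨hX1, hX2⟩, ⟨hX3, hX4⟩, hX5, hX6⟩ := hX
  replace h1 := h1 X hX1
  obtain ⟨-, -, -, -, -, h2, -, -⟩ := h2 X hX2
  replace h3 := h3 X hX3
  replace h4 := h4 X hX4
  replace h5 := h5 X hX5
  have hx1 : (1 : ℝ) ≤ X := by exact_mod_cast hX6
  have hx0 : (0 : ℝ) < X := by linarith
  have hcc := ccpos ha
  have hel := ee_lt ha
  have hth1 : th a ≤ 1 := by unfold th; linarith
  -- powers of X
  have h6 : (6 : ℝ) < (X : ℝ) ^ (κ / 2) := lt_of_lt_of_le h5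
    (Real.rpow_le_rpow_of_exponent_le hx1 (by linarith))
  have hmκ : (X : ℝ) ^ κ ≤ m := by
    refine le_trans (Real.rpow_le_rpow_of_exponent_le hx1 ?_) hR.big
    linarith
  have hκ2 : (X : ℝ) ^ κ = (X : ℝ) ^ (κ / 2) * (X : ℝ) ^ (κ / 2) := by
    rw [← Real.rpow_add hx0]
    congr 1
    ring
  have hym : 2 * yA a X < m := by
    have h7 : (2 * yA a X : ℝ) < m := by
      refine lt_of_lt_of_le ?_ hmκ
      rw [hκ2]
      calc (2 * yA a X : ℝ) ≤ 2 * (X : ℝ) ^ (κ / 2) := by linarith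
        _ < (X : ℝ) ^ (κ / 2) * (X : ℝ) ^ (κ / 2) :=
          mul_lt_mul_of_pos_right (by linarith) (by linarith)
    exact_mod_cast h7
  have hm2 : m ≠ 2 := by
    rintro rfl
    have h7 : (1 : ℝ) * 6 ≤ (X : ℝ) ^ (κ / 2) * (X : ℝ) ^ (κ / 2) :=
      mul_le_mul (by linarith) h6.le (by norm_num) (by linarith)
    rw [← hκ2] at h7
    push_cast at hmκ
    linarith
  have hpm : ∀ p ∈ PA a X, ¬ m ∣ p := by
    intro p hp hmp
    obtain ⟨hp1, hp2, hp3⟩ := mem_PA hp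
    have := Nat.le_of_dvd hp1.pos hmp
    omega
  have hsm : ∀ s ⊆ PA a X, ¬ m ∣ prodS s := by
    intro s hs hms
    unfold prodS at hms
    rw [Prime.dvd_finsetProd_iff hR.pr.prime] at hms
    obtain ⟨p, hp, hmp⟩ := hms
    exact hpm p (hs hp) hmp
  have hsc : ∀ s ⊆ PA a X, (prodS s).Coprime (Qz z) := by
    intro s hs
    unfold prodS
    apply Nat.Coprime.prod_left
    intro p hp
    obtain ⟨hp1, hp2, hp3⟩ := mem_PA (hs hp)
    exact (Nat.Prime.coprime_iff_not_dvd hp1).2 (not_dvd_Qz hz hp1 (by omega))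
  have hpos : ∀ s ⊆ PA a X, 1 ≤ prodS s := fun s hs =>
    Finset.prod_pos fun p hp => (mem_PA (hs hp)).1.pos
  have hle : ∀ s ∈ SA a X, prodS s ≤ ⌊(X : ℝ) ^ (th a + cc a)⌋₊ := by
    intro s hs
    unfold SA at hs
    rw [Finset.mem_powersetCard] at hs
    have h7 := (h1 ∅ s (Finset.empty_subset _) hs.1 (by simpa using hs.2)).2
    apply Nat.le_floor
    have h8 : prodS ∅ = 1 := by simp [prodS]
    rw [h8] at h7
    simpa using h7
  -- injectivity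
  have hinj : Set.InjOn prodS (SA a X : Set (Finset ℕ)) := by
    intro s hs t' ht' hst
    rw [Finset.mem_coe] at hs ht'
    unfold SA at hs ht'
    rw [Finset.mem_powersetCard] at hs ht'
    have e1 : (prodS s).primeFactors = s :=
      Nat.primeFactors_prod fun p hp => (mem_PA (hs.1 hp)).1
    have e2 : (prodS t').primeFactors = t' :=
      Nat.primeFactors_prod fun p hp => (mem_PA (ht'.1 hp)).1
    rw [← e1, ← e2, hst]
  have hsub : ∀ s ∈ SA a X, s ⊆ PA a X := by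
    intro s hs
    unfold SA at hs
    exact (Finset.mem_powersetCard.1 hs).1
  -- m ≤ N
  have hmN : m ≤ ⌊(X : ℝ) ^ (th a + cc a)⌋₊ := by
    apply Nat.le_floor
    have hT0 : (0 : ℝ) ≤ T := Nat.cast_nonneg _
    have e1 : (T : ℝ) ≤ (X : ℝ) ^ (2 * (ee a - κ)) := by
      have h7 := mul_self_le_mul_self (Real.sqrt_nonneg _) hR.sq
      rw [Real.mul_self_sqrt hT0, ← Real.rpow_add hx0] at h7
      refine h7.trans (le_of_eq ?_)
      congr 1
      ring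
    have e2 : (m : ℝ) * X ≤ T := by exact_mod_cast hR.le
    have e3 : (m : ℝ) * X ≤ (X : ℝ) ^ (2 * (ee a - κ) - 1) * X := by
      have h7 : (X : ℝ) ^ (2 * (ee a - κ) - 1) * X = (X : ℝ) ^ (2 * (ee a - κ)) := by
        rw [← Real.rpow_add_one hx0.ne']
        congr 1
        ring
      rw [h7]
      exact e2.trans e1
    have e4 := le_of_mul_le_mul_right e3 hx0
    refine e4.trans (Real.rpow_le_rpow_of_exponent_le hx1 ?_)
    linarith
  -- B
  have hB : ¬ m ∣ b * v ^ 2 := by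
    rw [hR.pr.dvd_mul]
    rintro (h | h)
    · have := Nat.le_of_dvd hR.b0 h
      have := hR.bm
      omega
    · exact hmv (hR.pr.dvd_of_dvd_pow h)
  have hcore := core hBL hTB z r v m ⌊(X : ℝ) ^ (th a + cc a)⌋₊ (b * v ^ 2) f
    ((SA a X).image prodS) l t hv hR.pr hm2 hmN hB (by
      intro s hs
      rw [Finset.mem_image] at hs
      obtain ⟨s', hs', rfl⟩ := hs
      exact ⟨hpos _ (hsub _ hs'), hle _ hs', hsm _ (hsub _ hs')⟩) (by
      intro s hs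
      rw [Finset.mem_image] at hs
      obtain ⟨s', hs', rfl⟩ := hs
      exact hsc _ (hsub _ hs'))
  rw [Finset.sum_image hinj] at hcore
  simp only [Finset.sum_image hinj] at hcore
  refine hcore.trans ?_
  have hcard : (((SA a X).image prodS).card : ℝ) = NA a X := by
    rw [Finset.card_image_of_injOn hinj]
    unfold SA NA CA
    rw [Finset.card_powersetCard]
  rw [hcard]
  have hNA0 : 0 ≤ NA a X := by unfold NA CA; positivity
  obtain ⟨U, hU⟩ : ∃ U : ℝ, U = (Qz z * 8 * 2 ^ z : ℝ) * ((Qz z * (qpart z v) ^ 2 : ℕ) : ℝ) ^ 2 :=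
    ⟨_, rfl⟩
  have hU0 : 0 ≤ U := by rw [hU]; positivity
  rw [← hU]
  -- the last estimate
  have hNf : ((⌊(X : ℝ) ^ (th a + cc a)⌋₊ : ℕ) : ℝ) ≤ (X : ℝ) ^ (th a + cc a) :=
    Nat.floor_le (by positivity)
  have hsq : (X : ℝ) ^ (th a + cc a - ee a + κ / 2) ≤ √(m : ℝ) := by
    apply Real.le_sqrt_of_sq_le
    refine le_trans (le_of_eq ?_) hR.big
    rw [← Real.rpow_natCast, ← Real.rpow_mul hx0.le]
    congr 1
    push_cast
    ring
  have hsq0 : 0 < √(m : ℝ) := lt_of_lt_of_le (by positivity) hsq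
  have hq : ((⌊(X : ℝ) ^ (th a + cc a)⌋₊ : ℕ) : ℝ) / √(m : ℝ) ≤ (X : ℝ) ^ (ee a - κ / 2) := by
    rw [div_le_iff₀ hsq0]
    calc ((⌊(X : ℝ) ^ (th a + cc a)⌋₊ : ℕ) : ℝ) ≤ (X : ℝ) ^ (th a + cc a) := hNf
      _ = (X : ℝ) ^ (ee a - κ / 2) * (X : ℝ) ^ (th a + cc a - ee a + κ / 2) := by
        rw [← Real.rpow_add hx0]
        congr 1
        ring
      _ ≤ _ := mul_le_mul_of_nonneg_left hsq (by positivity)
  have hfin : 6 * (((⌊(X : ℝ) ^ (th a + cc a)⌋₊ : ℕ) : ℝ) / √(m : ℝ)) ≤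
      (X : ℝ) ^ (-(κ / 4)) * NA a X := by
    calc 6 * (((⌊(X : ℝ) ^ (th a + cc a)⌋₊ : ℕ) : ℝ) / √(m : ℝ)) ≤
        (X : ℝ) ^ (κ / 8) * (X : ℝ) ^ (ee a - κ / 2) :=
          mul_le_mul h5.le hq (by positivity) (by positivity)
      _ = (X : ℝ) ^ (-(κ / 4)) * (X : ℝ) ^ (ee a - κ / 8) := by
        rw [← Real.rpow_add hx0, ← Real.rpow_add hx0]
        congr 1
        ring
      _ ≤ _ := mul_le_mul_of_nonneg_left h3 (by positivity)
  calc U * (3 * NA a X * ((⌊(X : ℝ) ^ (th a + cc a)⌋₊ : ℕ) : ℝ) / √(m : ℝ)) * 2 =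
      U * (NA a X * (6 * (((⌊(X : ℝ) ^ (th a + cc a)⌋₊ : ℕ) : ℝ) / √(m : ℝ)))) := by ring
    _ ≤ U * (NA a X * ((X : ℝ) ^ (-(κ / 4)) * NA a X)) :=
      mul_le_mul_of_nonneg_left (mul_le_mul_of_nonneg_left hfin hNA0) hU0
    _ = _ := by ring

end Pool.Agent.H52.AP.BF
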