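import Pool.Agent.H52.AP.Stubs
import Pool.Agent.H52.W.CG2.ERR

/-! AP-ERR (helper63): the error terms and the diagonal -/

set_option autoImplicit false

namespace Pool.Agent.H52.AP.ERR

variable [Pool.Agent.H52.W.Lam]

open Finset Filter NumberField Pool.Agent.H38R2.CG Pool.Agent.H52.W Pool.Agent.H52.W.CG2
  Pool.Agent.H52.W.SH
open Pool.Agent.H52.W.CG2.ERRh
open scoped Classical

theorem rg {a κ : ℝ} {m b X T : ℕ} (h : RM a κ m b X T) : RG a κ X T :=
  ⟨le_trans (Nat.le_mul_of_pos_left X h.pr.pos) h.le, h.sq⟩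

theorem big {a κ : ℝ} (ha : 2 < a) {m b X T : ℕ} (hX : 1 ≤ X) (h : RM a κ m b X T) :
    (X : ℝ) ^ κ ≤ m := by
  have hX1 : (1 : ℝ) ≤ X := by exact_mod_cast hX
  refine le_trans (Real.rpow_le_rpow_of_exponent_le hX1 ?_) h.big
  have h1 := ee_lt ha
  have h2 := ccpos ha
  linarith

theorem main : P2_NB → P2_WT → Q_V0 → A_V0 → Q_ERR → A_ERR := by
  intro _hNB hWT hQV hAV hErr a ha κ hκ z r hfr C0 hC0 ε hε
  set c := cc a with hc
  have hc0 : 0 < c := ccpos ha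
  have hc1 : c < 1 / 32 := cclt ha
  have hQ : 0 < Qz z := by
    have := hfr.1
    omega
  have hQ' : (0 : ℝ) < Qz z := by exact_mod_cast hQ
  obtain ⟨X1, hX1⟩ := hErr a ha κ hκ z r hfr C0 hC0 (ε / 2) (by positivity)
  obtain ⟨X2, hX2⟩ := eventually_atTop.1 ((ev_logpow c hc0 C0).and
    ((ev_const c hc0 (6 * Qz z)).and ((ev_const κ hκ (Qz z + 1)).and (eventually_ge_atTop 4))))
  refine ⟨max X1 X2, fun X hX m b T hR ρ hS hcop => ?_⟩
  have h1 := hX1 X (le_trans (le_max_left _ _) hX) T (rg hR) ρ hS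
  obtain ⟨e2, e3, e4, e5⟩ := hX2 X (le_trans (le_max_right _ _) hX)
  have hX1' : 1 ≤ X := by omega
  have hXR : (1 : ℝ) ≤ X := by exact_mod_cast hX1'
  have hX0 : (0 : ℝ) < X := by linarith
  have hmQ : ¬ m ∣ Qz z := by
    intro h
    have h2 : m ≤ Qz z := Nat.le_of_dvd hQ h
    have h3 := big ha hX1' hR
    have h4 : (m : ℝ) ≤ Qz z := by exact_mod_cast h2
    linarith
  set G := GG X ρ with hG
  have hl4 : 0 < Real.log X := Real.log_pos (by
    have : (4 : ℝ) ≤ X := by exact_mod_cast e5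
    linarith)
  have hGlow : 1 ≤ (X : ℝ) ^ c * G := by
    have h1 := hS.low
    have h2 : 0 < (Real.log X) ^ C0 := by positivity
    calc (1 : ℝ) = (Real.log X) ^ C0 * ((Real.log X) ^ C0)⁻¹ := (mul_inv_cancel₀ h2.ne').symm
      _ ≤ (X : ℝ) ^ c * G := by gcongr
  have hXc : 0 < (X : ℝ) ^ c := by positivity
  have hG0 : 0 < G := by
    by_contra h
    push Not at h
    have : (X : ℝ) ^ c * G ≤ 0 := mul_nonpos_of_nonneg_of_nonpos hXc.le h
    linarith
  have hlcm : ∑ d ∈ Finset.Icc 1 X, ρ d / (Nat.lcm d 1 : ℝ) = G := by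
    rw [hG]
    unfold GG
    refine Finset.sum_congr rfl fun d _ => ?_
    rw [Nat.lcm_one_right]
  have g1 := hQV z r X T (PA a X) c C0 ρ 1 hfr.1 hX1' (by linarith) hS le_rfl
    (Nat.coprime_one_left _)
  have g2 := hAV z r m b X T (PA a X) c C0 ρ 1 hfr.1 hR.pr hmQ hR.b0 hR.bm hX1' (by linarith) hS
    hcop le_rfl (Nat.coprime_one_left _) (fun h => hR.pr.one_lt.ne' (Nat.dvd_one.1 h))
  have f1 : (DT z r X T).filter (fun D => 1 ∣ D) = DT z r X T :=
    Finset.filter_true_of_mem fun _ _ => one_dvd _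
  have f2 : (DM z r m b X T).filter (fun D => 1 ∣ D) = DM z r m b X T :=
    Finset.filter_true_of_mem fun _ _ => one_dvd _
  rw [f1, hlcm] at g1
  rw [f2, hlcm] at g2
  set A := ∑ D ∈ DT z r X T, wt ρ D with hA
  set A' := ∑ D ∈ DM z r m b X T, wt ρ D with hA'
  have h6 : 6 * (X : ℝ) ^ c ≤ X / Qz z * G := by
    rw [div_mul_eq_mul_div, le_div_iff₀ hQ']
    calc 6 * (X : ℝ) ^ c * Qz z = 6 * Qz z * (X : ℝ) ^ c := by ring
      _ ≤ (X : ℝ) ^ c * (X : ℝ) ^ c := mul_le_mul_of_nonneg_right e3 hXc.le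
      _ = (X : ℝ) ^ (c + c) * 1 := by rw [Real.rpow_add hX0, mul_one]
      _ ≤ (X : ℝ) ^ (c + c) * ((X : ℝ) ^ c * G) := mul_le_mul_of_nonneg_left hGlow (by positivity)
      _ = (X : ℝ) ^ (c + c + c) * G := by
        rw [Real.rpow_add hX0 (c + c) c]
        ring
      _ ≤ (X : ℝ) ^ (1 : ℝ) * G := by
        apply mul_le_mul_of_nonneg_right _ hG0.le
        exact Real.rpow_le_rpow_of_exponent_le hXR (by linarith)
      _ = X * G := by rw [Real.rpow_one]
  have hAA : A' ≤ 2 * A := by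
    have g3 := (abs_le.1 g1).1
    have g4 := (abs_le.1 g2).2
    linarith
  have hfin : (∑ s ∈ SA a X, ∑ t ∈ SA a X, 2 ^ ((s ∩ t).card) *
      ((if IsSquare (prodS s * prodS t) then A' else 0) +
      2 * ∑ v ∈ Finset.Icc 1 ⌊2 * √(((prodS s * prodS t : ℕ) : ℝ) / T)⌋₊,
        2 * ∑ d ∈ Finset.Icc 1 X, |ρ d| * (RR z r (prodS s * prodS t) v d : ℝ))) ≤
      2 * (∑ s ∈ SA a X, ∑ t ∈ SA a X, 2 ^ ((s ∩ t).card) *
      ((if IsSquare (prodS s * prodS t) then A else 0) +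
      2 * ∑ v ∈ Finset.Icc 1 ⌊2 * √(((prodS s * prodS t : ℕ) : ℝ) / T)⌋₊,
        ∑ d ∈ Finset.Icc 1 X, |ρ d| * (RR z r (prodS s * prodS t) v d : ℝ))) := by
    rw [Finset.mul_sum]
    refine Finset.sum_le_sum fun s _ => ?_
    rw [Finset.mul_sum]
    refine Finset.sum_le_sum fun t _ => ?_
    rw [mul_left_comm]
    refine mul_le_mul_of_nonneg_left ?_ (by positivity)
    rw [← Finset.mul_sum, mul_add]
    refine add_le_add ?_ ?_
    · split_ifs
      · exact hAA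
      · linarith
    · exact le_rfl
  refine hfin.trans ?_
  calc _ ≤ 2 * (ε / 2 * GG X ρ * (X / √(T : ℝ)) * (NA a X) ^ 2) :=
        mul_le_mul_of_nonneg_left h1 (by norm_num)
    _ = _ := by ring

end Pool.Agent.H52.AP.ERR
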