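import Pool.Agent.H52.AP.Stubs2
import Pool.Agent.H52.W.SH.AR
import Pool.Agent.H52.W.SH.Final

/-!
# Project AP: from pieces to all intervals and all progressions
-/

set_option autoImplicit false

namespace Pool.Agent.H52.AP.Final

variable [Pool.Agent.H52.W.Lam]

open Finset Filter NumberField Pool.Agent.H38R2.CG Pool.Agent.H52.W Pool.Agent.H52.W.CG2
  Pool.Agent.H52.W.CG3 Pool.Agent.H52.W.SH Pool.Agent.H52.AP
open Pool.Agent.H38R2.CG.FINh Pool.Agent.H52.W.SR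
open Pool.Agent.H951R5.AR
open scoped Classical

omit [Pool.Agent.H52.W.Lam] in
/-- the number of terms of the pieces -/
lemma size (θ β η : ℝ) (hθ : 1 / 2 < θ) (hβ : 1 / 2 < θ * β) (hη : 0 < η)
    (hη1 : η ≤ 1) (X0 : ℕ) : ∃ A0 : ℕ, ∀ A ≥ A0, ∀ m : ℕ, 1 ≤ m → ∀ L : ℕ,
      (m : ℝ) * (A : ℝ) ^ θ ≤ L → L ≤ A →
      ∃ X : ℕ, X0 ≤ X ∧ 1 ≤ X ∧ m * X ≤ L ∧ (m : ℝ) * X ≤ η * A ∧ √(2 * A : ℝ) ≤ (X : ℝ) ^ β ∧
        ⌊√(A : ℝ)⌋₊ ≤ X := by
  have hβ0 : 0 < β := by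
    by_contra hb
    push Not at hb
    nlinarith
  have t1 : Tendsto (fun X : ℕ => (X : ℝ) ^ (θ * β - 1 / 2)) atTop atTop :=
    (tendsto_rpow_atTop (by linarith)).comp tendsto_natCast_atTop_atTop
  have t2 : Tendsto (fun X : ℕ => (X : ℝ) ^ (θ - 1 / 2)) atTop atTop :=
    (tendsto_rpow_atTop (by linarith)).comp tendsto_natCast_atTop_atTop
  have t3 : Tendsto (fun X : ℕ => (X : ℝ)) atTop atTop := tendsto_natCast_atTop_atTop
  set c : ℝ := η / 2 with hc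
  have hc0 : 0 < c := by positivity
  obtain ⟨N1, hN1⟩ := Filter.eventually_atTop.mp (t1.eventually_ge_atTop (√2 / c ^ β))
  obtain ⟨N2, hN2⟩ := Filter.eventually_atTop.mp (t2.eventually_ge_atTop (1 / c))
  obtain ⟨N3, hN3⟩ := Filter.eventually_atTop.mp (t3.eventually_ge_atTop
    ((1 / c) ^ 2 + ((X0 : ℝ) / c) ^ 2 + 1))
  refine ⟨max N1 (max N2 N3), fun A hA m hm L hL1 hL2 => ?_⟩
  have a1 := hN1 A ((le_max_left _ _).trans hA)
  have a2 := hN2 A ((le_max_left _ _).trans ((le_max_right _ _).trans hA))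
  have a3 := hN3 A ((le_max_right _ _).trans ((le_max_right _ _).trans hA))
  have hx0 : 0 ≤ (X0 : ℝ) / c := by positivity
  have hA1 : (1 : ℝ) ≤ A := by
    nlinarith [sq_nonneg ((X0 : ℝ) / c), sq_nonneg (1 / c)]
  have hA0 : (0 : ℝ) < A := by linarith
  have hmR : (1 : ℝ) ≤ m := by exact_mod_cast hm
  have hm0 : (0 : ℝ) < m := by linarith
  have hsA : 0 < √(A : ℝ) := Real.sqrt_pos.2 hA0
  have hsplit1 : (A : ℝ) ^ θ = (A : ℝ) ^ (θ - 1 / 2) * √(A : ℝ) := by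
    rw [Real.sqrt_eq_rpow, ← Real.rpow_add hA0]
    ring_nf
  have hs2 : √(A : ℝ) ≤ c * (A : ℝ) ^ θ := by
    rw [hsplit1]
    rw [div_le_iff₀ hc0] at a2
    calc √(A : ℝ) = 1 * √(A : ℝ) := by ring
      _ ≤ ((A : ℝ) ^ (θ - 1 / 2) * c) * √(A : ℝ) := mul_le_mul_of_nonneg_right a2 hsA.le
      _ = _ := by ring
  have hX0 : (X0 : ℝ) / c ≤ √(A : ℝ) := by
    apply Real.le_sqrt_of_sq_le
    have : 0 ≤ (1 / c) ^ 2 := by positivity
    linarith
  have hc1 : c ≤ 1 := by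
    rw [hc]
    linarith
  have hX0' : (X0 : ℝ) ≤ √(A : ℝ) := by
    have h1 : (X0 : ℝ) ≤ √(A : ℝ) * c := (div_le_iff₀ hc0).1 hX0
    nlinarith
  have hcA : 1 ≤ c * (A : ℝ) ^ θ := by
    have h1 : 1 / c ≤ √(A : ℝ) := by
      apply Real.le_sqrt_of_sq_le
      have : 0 ≤ ((X0 : ℝ) / c) ^ 2 := by positivity
      linarith
    have h2 : 1 ≤ √(A : ℝ) := by rwa [Real.one_le_sqrt]
    linarith
  have hAθ : 0 < (A : ℝ) ^ θ := by positivity
  -- lower bound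
  set Y : ℕ := min (L / m) ⌊η * (A : ℝ) / m⌋₊ with hY
  have hlow : c * (A : ℝ) ^ θ ≤ (Y : ℝ) := by
    rw [hY]
    push_cast
    apply le_min
    · have h1 : (A : ℝ) ^ θ ≤ (L : ℝ) / m := by
        rw [le_div_iff₀ hm0]
        linarith
      have h2 : (L : ℝ) / m < ((L / m : ℕ) : ℝ) + 1 := by
        have := Nat.lt_floor_add_one ((L : ℝ) / m)
        rwa [Nat.floor_div_natCast, Nat.floor_natCast] at this
      have h3 : c * (A : ℝ) ^ θ ≤ (A : ℝ) ^ θ / 2 := by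
        rw [hc]
        nlinarith
      have h4 : 1 ≤ (A : ℝ) ^ θ / 2 := hcA.trans h3
      linarith
    · have h1 : η * (A : ℝ) / m - 1 < ((⌊η * (A : ℝ) / m⌋₊ : ℕ) : ℝ) := Nat.sub_one_lt_floor _
      have h2 : (m : ℝ) * (A : ℝ) ^ θ ≤ A := by
        have : (L : ℝ) ≤ A := by exact_mod_cast hL2
        linarith
      have h3 : η * (A : ℝ) ^ θ ≤ η * (A : ℝ) / m := by
        rw [le_div_iff₀ hm0]
        nlinarith
      have h4 : η * (A : ℝ) ^ θ = 2 * (c * (A : ℝ) ^ θ) := by rw [hc]; ring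
      linarith
  refine ⟨Y, ?_, ?_, ?_, ?_, ?_, ?_⟩
  · have : (X0 : ℝ) ≤ (Y : ℝ) := hX0'.trans (hs2.trans hlow)
    exact_mod_cast this
  · have : (1 : ℝ) ≤ (Y : ℝ) := hcA.trans hlow
    exact_mod_cast this
  · calc m * Y ≤ m * (L / m) := Nat.mul_le_mul_left _ (min_le_left _ _)
      _ ≤ L := Nat.mul_div_le _ _
  · have h1 : (Y : ℝ) ≤ η * (A : ℝ) / m := by
      calc (Y : ℝ) ≤ ((⌊η * (A : ℝ) / m⌋₊ : ℕ) : ℝ) := by exact_mod_cast min_le_right _ _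
        _ ≤ _ := Nat.floor_le (by positivity)
    rw [le_div_iff₀ hm0] at h1
    linarith
  · have h1 : (c * (A : ℝ) ^ θ) ^ β ≤ (Y : ℝ) ^ β :=
      Real.rpow_le_rpow (by positivity) hlow hβ0.le
    refine le_trans ?_ h1
    rw [Real.mul_rpow hc0.le (by positivity), ← Real.rpow_mul hA0.le]
    have h2 : (A : ℝ) ^ (θ * β) = (A : ℝ) ^ (θ * β - 1 / 2) * √(A : ℝ) := by
      rw [Real.sqrt_eq_rpow, ← Real.rpow_add hA0]
      ring_nf
    rw [h2, Real.sqrt_mul (by norm_num)]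
    have hcb : 0 < c ^ β := Real.rpow_pos_of_pos hc0 _
    rw [div_le_iff₀ hcb] at a1
    calc √2 * √(A : ℝ) ≤ ((A : ℝ) ^ (θ * β - 1 / 2) * c ^ β) * √(A : ℝ) :=
          mul_le_mul_of_nonneg_right a1 hsA.le
      _ = _ := by ring
  · have h1 : ((⌊√(A : ℝ)⌋₊ : ℕ) : ℝ) ≤ √(A : ℝ) := Nat.floor_le hsA.le
    have : ((⌊√(A : ℝ)⌋₊ : ℕ) : ℝ) ≤ (Y : ℝ) := h1.trans (hs2.trans hlow)
    exact_mod_cast this

/-- exceptional discriminants, in an interval `(A, A + L]` -/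
theorem core (hSQ : A_SQ) (hEXC : SH.AR.Q_EXCF) (hCH : P2_CH) (a θ u ε τ : ℝ) (ha : 2 < a)
    (hθ2 : 1 / 2 < θ) (hkey : 1 / (2 * θ) < ee a) (hu : 2 * (th a + cc a - ee a) < u)
    (hε : 0 < ε) (hτ : 0 < τ) :
    ∃ A0 : ℕ, ∀ A ≥ A0, ∀ m b : ℕ, m.Prime → 0 < b → b < m → (A : ℝ) ^ u ≤ m → ∀ L : ℕ,
      (m : ℝ) * (A : ℝ) ^ θ ≤ L → L ≤ A → ∀ Q : Set ℕ,
      (((Finset.Ioc A (A + L)).filter (fun D => D % m = b ∧ ∃ d : ℕ, 1 < d ∧ Squarefree d ∧
        ((∀ q ∈ Q, q.Prime → ¬ q ∣ d) ∧ ¬ (GoodE a ε d ∧ GoodAR a d)) ∧ D = Dof d)).card : ℝ) ≤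
      τ * (L / m) * pq Q A := by
  have hθ0 : 0 < θ := by linarith
  have hem : 0 < th a + cc a - ee a := by
    have h1 := ee_lt ha
    have h2 := ccpos ha
    linarith
  set κ : ℝ := min ((ee a - 1 / (2 * θ)) / 2) (u - 2 * (th a + cc a - ee a)) with hκ
  have hκ0 : 0 < κ := lt_min (by linarith) (by linarith)
  have hκ1 : κ ≤ (ee a - 1 / (2 * θ)) / 2 := min_le_left _ _
  have hκ2 : κ ≤ u - 2 * (th a + cc a - ee a) := min_le_right _ _
  set β : ℝ := ee a - κ with hβ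
  have hβ2 : 1 / (2 * θ) < β := by
    rw [hβ]
    linarith
  have hθβ : 1 / 2 < θ * β := by
    have : θ * (1 / (2 * θ)) = 1 / 2 := by field_simp
    nlinarith
  have ht0 : 0 < min ε (1 / 4) := lt_min hε (by norm_num)
  obtain ⟨L1, hL0, hL1, -, -⟩ := id hCH
  have hE : 0 < Real.exp (2 * L1) := Real.exp_pos _
  set τ' : ℝ := τ / (2 * Real.exp (2 * L1)) with hτ'
  have hτ'0 : 0 < τ' := by positivity
  obtain ⟨η, hη, hη1, X0, hX0⟩ := hSQ a ha κ hκ0 _ ht0 τ' hτ'0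
  obtain ⟨X1, hX1⟩ := hEXC a ha ε
  obtain ⟨A0, hA0⟩ := size θ β η hθ2 hθβ hη hη1 (max X0 X1)
  refine ⟨max A0 1, fun A hA m b hm hb0 hbm hAm L hAL hLA Q => ?_⟩
  have hA1 : 1 ≤ A := (le_max_right _ _).trans hA
  have hA1R : (1 : ℝ) ≤ A := by exact_mod_cast hA1
  have hm0 : (0 : ℝ) < m := by exact_mod_cast hm.pos
  obtain ⟨X, hX2, hX3, hXL, hXη, hXβ, hXs⟩ := hA0 A ((le_max_left _ _).trans hA) m hm.pos L hAL hLA
  have hXX0 : X0 ≤ X := (le_max_left _ _).trans hX2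
  have hXX1 : X1 ≤ X := (le_max_right _ _).trans hX2
  have hXR : (1 : ℝ) ≤ X := by exact_mod_cast hX3
  have hpX : pq Q X ≤ Real.exp (2 * L1) * pq Q A :=
    (pq_anti Q hXs).trans (pq_sqrt hL1 Q A hA1)
  have hpA := pq_pos Q A
  have hXmX : X ≤ m * X := Nat.le_mul_of_pos_left _ hm.pos
  have hXA : (X : ℝ) ≤ A := by
    have : X ≤ A := (hXmX.trans hXL).trans hLA
    exact_mod_cast this
  have hbig : (X : ℝ) ^ (2 * (th a + cc a - ee a) + κ) ≤ m := by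
    have h1 : (X : ℝ) ^ (2 * (th a + cc a - ee a) + κ) ≤
        (A : ℝ) ^ (2 * (th a + cc a - ee a) + κ) :=
      Real.rpow_le_rpow (by linarith) hXA (by linarith)
    have h2 : (A : ℝ) ^ (2 * (th a + cc a - ee a) + κ) ≤ (A : ℝ) ^ u :=
      Real.rpow_le_rpow_of_exponent_le hA1R (by linarith)
    exact h1.trans (h2.trans hAm)
  have hmX1 : 1 ≤ m * X := hX3.trans hXmX
  have hcut := SH.Final.cut (fun D => D % m = b ∧ ∃ d : ℕ, 1 < d ∧ Squarefree d ∧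
        ((∀ q ∈ Q, q.Prime → ¬ q ∣ d) ∧ ¬ (GoodE a ε d ∧ GoodAR a d)) ∧ D = Dof d) A L (m * X)
        (τ' * (Real.exp (2 * L1) * pq Q A) / m) hmX1 hXL (by positivity) ?_
  · refine le_trans (le_of_eq (by congr!)) (hcut.trans (le_of_eq ?_))
    rw [hτ']
    field_simp
  · intro T hAT hTL
    have hXT : m * X ≤ T := (hXL.trans hLA).trans hAT
    have hT2 : (T : ℝ) ≤ 2 * A := by
      have : T ≤ 2 * A := by omega
      exact_mod_cast this
    have hRM : RM a κ m b X T :=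
      ⟨hm, hb0, hbm, hXT, (Real.sqrt_le_sqrt hT2).trans hXβ, hbig⟩
    have hηT : (m : ℝ) * X ≤ η * T := by
      have : (A : ℝ) ≤ T := by exact_mod_cast hAT
      nlinarith
    have h3 := hX0 X hXX0 m b T hRM hηT Q
    have hsub : ((Finset.Ioc T (T + m * X)).filter (fun D => D % m = b ∧
        ∃ d : ℕ, 1 < d ∧ Squarefree d ∧
        ((∀ q ∈ Q, q.Prime → ¬ q ∣ d) ∧ ¬ (GoodE a ε d ∧ GoodAR a d)) ∧ D = Dof d)) ⊆
        (Finset.Ioc T (T + m * X)).filter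
          (fun D => D % m = b ∧ (∀ q ∈ Q, q.Prime → 3 ≤ q → ¬ q ∣ D) ∧
            IsFund D ∧ Bd a (min ε (1 / 4)) X D) := by
      intro D hD
      rw [Finset.mem_filter] at hD ⊢
      obtain ⟨hD1, hDb, d, hd1, hds, ⟨hdQ, hg⟩, rfl⟩ := hD
      refine ⟨hD1, hDb, ?_, ?_⟩
      · intro q hq hqp hq3 hqd
        apply hdQ q hq hqp
        unfold Dof at hqd
        split_ifs at hqd
        · exact hqd
        · rcases (Nat.Prime.dvd_mul hqp).1 hqd with h5 | h5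
          · exfalso
            have h6 : q ∣ 2 ^ 2 := by norm_num; exact h5
            have h7 := hqp.dvd_of_dvd_pow h6
            have := Nat.le_of_dvd (by norm_num) h7
            omega
          · exact h5
      · refine hX1 X hXX1 T (hXmX.trans hXT) d hd1 hds hg (Finset.mem_Ioc.1 hD1).1 ?_
        have h1 := (Finset.mem_Ioc.1 hD1).2
        omega
    have h4 : (((Finset.Ioc T (T + m * X)).filter (fun D => D % m = b ∧
        ∃ d : ℕ, 1 < d ∧ Squarefree d ∧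
        ((∀ q ∈ Q, q.Prime → ¬ q ∣ d) ∧ ¬ (GoodE a ε d ∧ GoodAR a d)) ∧ D = Dof d)).card : ℝ) ≤
        τ' * X * pq Q X := by
      refine le_trans ?_ h3
      exact_mod_cast Finset.card_le_card hsub
    refine le_trans (le_of_eq (by congr!)) (h4.trans ?_)
    calc τ' * X * pq Q X ≤ τ' * X * (Real.exp (2 * L1) * pq Q A) :=
          mul_le_mul_of_nonneg_left hpX (by positivity)
      _ = _ := by
        push_cast
        field_simp

/-- the radicands -/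
theorem radicands (hSQ : A_SQ) (hEXC : SH.AR.Q_EXCF) (hCH : P2_CH) (a θ u ε τ : ℝ) (ha : 2 < a)
    (hθ2 : 1 / 2 < θ) (hkey : 1 / (2 * θ) < ee a) (hθ1 : θ ≤ 1)
    (hu : 2 * (th a + cc a - ee a) < u) (hε : 0 < ε) (hτ : 0 < τ) :
    ∃ x0 : ℕ, ∀ x ≥ x0, ∀ m b : ℕ, m.Prime → 0 < b → b < m → (x : ℝ) ^ u ≤ m → ∀ H : ℕ,
      (m : ℝ) * (x : ℝ) ^ θ ≤ H → H ≤ x → ∀ Q : Set ℕ,
      (((Finset.Ioc x (x + H)).filter (fun d => d % m = b ∧ Squarefree d ∧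
        (∀ q ∈ Q, q.Prime → ¬ q ∣ d) ∧ ¬ (GoodE a ε d ∧ GoodAR a d))).card : ℝ) ≤
      τ * (H / m) * pq Q x := by
  have hem : 0 < th a + cc a - ee a := by
    have h1 := ee_lt ha
    have h2 := ccpos ha
    linarith
  set u' : ℝ := (u + 2 * (th a + cc a - ee a)) / 2 with hu'
  have hu1 : 2 * (th a + cc a - ee a) < u' := by rw [hu']; linarith
  have hu2 : u' < u := by rw [hu']; linarith
  obtain ⟨A0, hA0⟩ := core hSQ hEXC hCH a θ u' ε (τ / 5) ha hθ2 hkey hu1 hε (by positivity)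
  have t1 : Tendsto (fun X : ℕ => (X : ℝ) ^ (u - u')) atTop atTop :=
    (tendsto_rpow_atTop (by linarith)).comp tendsto_natCast_atTop_atTop
  obtain ⟨N1, hN1⟩ := Filter.eventually_atTop.mp (t1.eventually_ge_atTop (max ((4 : ℝ) ^ u') 3))
  refine ⟨max N1 (max A0 1), fun x hx m b hm hb0 hbm hxm H hxH hHx Q => ?_⟩
  have hxA : A0 ≤ x := (le_max_left _ _).trans ((le_max_right _ _).trans hx)
  have hx1 : 1 ≤ x := (le_max_right _ _).trans ((le_max_right _ _).trans hx)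
  have hx1R : (1 : ℝ) ≤ x := by exact_mod_cast hx1
  have hx0 : (0 : ℝ) < x := by linarith
  have hθ0 : 0 < θ := by linarith
  have hm0 : (0 : ℝ) < m := by exact_mod_cast hm.pos
  have hxu := hN1 x ((le_max_left _ _).trans hx)
  have hu0 : 0 < u' := by linarith
  have hxu3 : (3 : ℝ) ≤ m := by
    have h1 : (3 : ℝ) ≤ (x : ℝ) ^ (u - u') := (le_max_right _ _).trans hxu
    have h2 : (x : ℝ) ^ (u - u') ≤ (x : ℝ) ^ u :=
      Real.rpow_le_rpow_of_exponent_le hx1R (by linarith)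
    linarith
  have hm3 : 3 ≤ m := by exact_mod_cast hxu3
  have hx1' : (x : ℝ) ^ u' ≤ m :=
    (Real.rpow_le_rpow_of_exponent_le hx1R hu2.le).trans hxm
  have hx4' : ((4 * x : ℕ) : ℝ) ^ u' ≤ m := by
    push_cast
    rw [Real.mul_rpow (by norm_num) hx0.le]
    have h1 : (4 : ℝ) ^ u' ≤ (x : ℝ) ^ (u - u') := (le_max_left _ _).trans hxu
    calc (4 : ℝ) ^ u' * (x : ℝ) ^ u' ≤ (x : ℝ) ^ (u - u') * (x : ℝ) ^ u' :=
          mul_le_mul_of_nonneg_right h1 (by positivity)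
      _ = (x : ℝ) ^ u := by
          rw [← Real.rpow_add hx0]
          ring_nf
      _ ≤ m := hxm
  -- the residue class of 4 d
  have hb4 : 0 < (4 * b) % m := by
    rw [Nat.pos_iff_ne_zero]
    intro h
    have h1 : m ∣ 4 * b := Nat.dvd_of_mod_eq_zero h
    rcases (Nat.Prime.dvd_mul hm).1 h1 with h2 | h2
    · have h3 : m ∣ 2 ^ 2 := by norm_num; exact h2
      have h4 := Nat.le_of_dvd (by norm_num) (hm.dvd_of_dvd_pow h3)
      omega
    · have := Nat.le_of_dvd hb0 h2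
      omega
  have h1 := hA0 x hxA m b hm hb0 hbm hx1' H hxH hHx Q
  have h2 := hA0 (4 * x) (by omega) m ((4 * b) % m) hm hb4 (Nat.mod_lt _ hm.pos) hx4' (4 * H) (by
    push_cast
    rw [Real.mul_rpow (by norm_num) (by positivity)]
    have h4 : (4 : ℝ) ^ θ ≤ 4 := by
      calc (4 : ℝ) ^ θ ≤ (4 : ℝ) ^ (1 : ℝ) :=
            Real.rpow_le_rpow_of_exponent_le (by norm_num) hθ1
        _ = 4 := Real.rpow_one _
    have h5 : 0 ≤ (m : ℝ) * (x : ℝ) ^ θ := by positivity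
    calc (m : ℝ) * ((4 : ℝ) ^ θ * (x : ℝ) ^ θ) = (4 : ℝ) ^ θ * (m * (x : ℝ) ^ θ) := by ring
      _ ≤ 4 * (m * (x : ℝ) ^ θ) := mul_le_mul_of_nonneg_right h4 h5
      _ ≤ 4 * H := by linarith) (by omega) Q
  set R : ℕ → Prop := fun D => ∃ d : ℕ, 1 < d ∧ Squarefree d ∧
        ((∀ q ∈ Q, q.Prime → ¬ q ∣ d) ∧ ¬ (GoodE a ε d ∧ GoodAR a d)) ∧ D = Dof d with hR
  have hcn : ((Finset.Ioc x (x + H)).filter (fun d => d % m = b ∧ Squarefree d ∧
        (∀ q ∈ Q, q.Prime → ¬ q ∣ d) ∧ ¬ (GoodE a ε d ∧ GoodAR a d))).card ≤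
        (((Finset.Ioc x (x + H)).filter (fun D => D % m = b ∧ R D)) ∪
          ((Finset.Ioc (4 * x) (4 * x + 4 * H)).filter
            (fun D => D % m = (4 * b) % m ∧ R D))).card := by
    refine Finset.card_le_card_of_injOn Dof ?_ ?_
    · intro d hd
      rw [Finset.mem_coe, Finset.mem_filter, Finset.mem_Ioc] at hd
      rw [Finset.mem_coe, Finset.mem_union, Finset.mem_filter, Finset.mem_filter,
        Finset.mem_Ioc, Finset.mem_Ioc]
      have h1 : 1 < d := by omega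
      have hRd : R (Dof d) := ⟨d, h1, hd.2.2.1, hd.2.2.2, rfl⟩
      by_cases h4 : d % 4 = 1
      · left
        refine ⟨?_, ?_, hRd⟩
        · rw [Dof, if_pos h4]
          exact ⟨hd.1.1, hd.1.2⟩
        · rw [Dof, if_pos h4]
          exact hd.2.1
      · right
        refine ⟨?_, ?_, hRd⟩
        · rw [Dof, if_neg h4]
          omega
        · rw [Dof, if_neg h4, ← hd.2.1, Nat.mul_mod, Nat.mul_mod 4 (d % m), Nat.mod_mod]
    · intro d _ d' _ h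
      exact Dof_inj h
  have hcn2 := hcn.trans (Finset.card_union_le _ _)
  have hcn3 : (((Finset.Ioc x (x + H)).filter (fun d => d % m = b ∧ Squarefree d ∧
        (∀ q ∈ Q, q.Prime → ¬ q ∣ d) ∧ ¬ (GoodE a ε d ∧ GoodAR a d))).card : ℝ) ≤
        ((Finset.Ioc x (x + H)).filter (fun D => D % m = b ∧ R D)).card +
          ((Finset.Ioc (4 * x) (4 * x + 4 * H)).filter
            (fun D => D % m = (4 * b) % m ∧ R D)).card := by
    exact_mod_cast hcn2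
  have hpp : pq Q (4 * x) ≤ pq Q x := pq_anti Q (by omega)
  have hpx := pq_pos Q x
  have h5 : τ / 5 * (((4 * H : ℕ) : ℝ) / m) * pq Q (4 * x) ≤
      τ / 5 * (((4 * H : ℕ) : ℝ) / m) * pq Q x :=
    mul_le_mul_of_nonneg_left hpp (by positivity)
  calc _ ≤ _ := hcn3
    _ ≤ τ / 5 * (H / m) * pq Q x + τ / 5 * (((4 * H : ℕ) : ℝ) / m) * pq Q x := by linarith
    _ = _ := by push_cast; ring

/-- the final theorem -/
theorem final (hSQ : A_SQ) (hEXC : SH.AR.Q_EXCF) (hCH : P2_CH) (a θ u ε τ : ℝ) (ha : 2 < a)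
    (hθ2 : 1 / 2 < θ) (hkey : 1 / (2 * θ) < ee a) (hθ1 : θ ≤ 1)
    (hu : 2 * (th a + cc a - ee a) < u) (hε : 0 < ε) (hτ : 0 < τ) :
    ∃ x0 : ℕ, ∀ x ≥ x0, ∀ m b : ℕ, m.Prime → 0 < b → b < m → (x : ℝ) ^ u ≤ m → ∀ H : ℕ,
      (m : ℝ) * (x : ℝ) ^ θ ≤ H → H ≤ x → ∀ Q : Set ℕ,
      (((Finset.Ioc x (x + H)).filter (fun d => d % m = b ∧ Squarefree d ∧
        (∀ q ∈ Q, q.Prime → ¬ q ∣ d) ∧ ¬ (GoodE a ε d ∧ GoodAR a d))).card : ℝ) ≤
      τ * (H / m) *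
        ∏ q ∈ (Finset.Icc 2 x).filter (fun q => q.Prime ∧ q ∈ Q), (1 - 1 / (q : ℝ)) := by
  obtain ⟨x0, hx0⟩ := radicands hSQ hEXC hCH a θ u ε (τ / 2) ha hθ2 hkey hθ1 hu hε
    (by positivity)
  refine ⟨x0, fun x hx m b hm hb0 hbm hxm H hxH hHx Q =>
    (hx0 x hx m b hm hb0 hbm hxm H hxH hHx Q).trans ?_⟩
  calc τ / 2 * (H / m) * pq Q x ≤ τ / 2 * (H / m) * (2 * ∏ q ∈ (Finset.Icc 2 x).filter
      (fun q => q.Prime ∧ q ∈ Q), (1 - 1 / (q : ℝ))) :=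
        mul_le_mul_of_nonneg_left (SH.Final.pq_two Q x) (by positivity)
    _ = _ := by ring

end Pool.Agent.H52.AP.Final
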