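import Pool.Agent.H52.AP.Stubs

/-!
AP-JS: the complete sum over `x` modulo the prime `m` of the product of the quadratic characters of two linear
forms is at most 1 in absolute value.
-/

set_option autoImplicit false

namespace Pool.Agent.H52.AP.JS

open Finset

/-- a complete sum of the quadratic character of a product of two linear forms -/
theorem zsum {F : Type*} [Field F] [Fintype F] [DecidableEq F] (hm : ringChar F ≠ 2) (s t B : F)
    (hs : s ≠ 0) (ht : t ≠ 0) (hB : B ≠ 0) (hst : s ≠ t) :
    ∑ x : F, quadraticChar F (x * s + B) * quadraticChar F (x * t + B) =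
      - quadraticChar F (s * t) := by
  set χ := quadraticChar F with hχ
  set δ : F := B / t - B / s with hδ
  have hδ0 : δ ≠ 0 := by
    rw [hδ]
    field_simp
    intro h
    apply hst
    have h1 : B * (s - t) = 0 := by
      field_simp at h
      linear_combination h
    rcases mul_eq_zero.1 h1 with h2 | h2
    · exact absurd h2 hB
    · exact sub_eq_zero.1 h2
  have hbij : Function.Bijective (fun y : F => -δ * y - B / s) := by
    constructor
    · intro y1 y2 h
      have h' : -δ * y1 = -δ * y2 := by
        have := h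
        simp only at this
        linear_combination this
      exact mul_left_cancel₀ (neg_ne_zero.2 hδ0) h'
    · intro x
      refine ⟨(x + B / s) / (-δ), ?_⟩
      simp only
      field_simp
      ring
  rw [← hbij.sum_comp]
  have hJ := jacobiSum_nontrivial_inv (quadraticChar_ne_one hm)
  have hinv : (quadraticChar F)⁻¹ = quadraticChar F := (quadraticChar_isQuadratic F).inv
  rw [hinv] at hJ
  unfold jacobiSum at hJ
  have hterm : ∀ y : F, χ ((-δ * y - B / s) * s + B) * χ ((-δ * y - B / s) * t + B) =
      (χ (-1) * χ (s * t)) * (χ y * χ (1 - y)) := by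
    intro y
    have e1 : (-δ * y - B / s) * s + B = (-1) * (δ * s) * y := by field_simp; ring
    have e2 : (-δ * y - B / s) * t + B = (δ * t) * (1 - y) := by
      rw [hδ]
      field_simp
      ring
    rw [e1, e2]
    simp only [map_mul]
    have h1 : χ δ * χ δ = 1 := by
      have := quadraticChar_sq_one hδ0
      rw [sq] at this
      exact this
    linear_combination (χ (-1) * χ s * χ t * χ y * χ (1 - y)) * h1
  rw [Finset.sum_congr rfl (fun y _ => hterm y), ← Finset.mul_sum, hJ]
  have h1 : χ (-1) * χ (-1) = 1 := by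
    have := quadraticChar_sq_one (F := F) (a := -1) (by simp)
    rw [sq] at this
    exact this
  linear_combination (-χ (s * t)) * h1

theorem range_sum {m : ℕ} [NeZero m] (g : ZMod m → ℤ) :
    ∑ x ∈ Finset.range m, g (x : ZMod m) = ∑ x : ZMod m, g x := by
  refine Finset.sum_bij' (fun x _ => (x : ZMod m)) (fun y _ => y.val) ?_ ?_ ?_ ?_ ?_
  · intro a _; exact Finset.mem_univ _
  · intro a _; exact Finset.mem_range.2 (ZMod.val_lt a)
  · intro a ha
    exact ZMod.val_natCast_of_lt (Finset.mem_range.1 ha)
  · intro a _; exact ZMod.natCast_zmod_val a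
  · intro a _; rfl

/-- The Jacobi symbol modulo a prime is the quadratic character of `ZMod m`. -/
theorem jac_eq {m : ℕ} [Fact m.Prime] (n : ℕ) :
    jacobiSym (n : ℤ) m = quadraticChar (ZMod m) (n : ZMod m) := by
  rw [← jacobiSym.legendreSym.to_jacobiSym]
  unfold legendreSym
  simp

theorem main : A_JS := by
  intro m B s t hm hm2 hB hs ht hst
  haveI : Fact m.Prime := ⟨hm⟩
  haveI : NeZero m := ⟨hm.ne_zero⟩
  have hring : ringChar (ZMod m) ≠ 2 := by
    rw [ZMod.ringChar_zmod_n]
    exact hm2
  have hz : ∀ n : ℕ, ¬ m ∣ n → (n : ZMod m) ≠ 0 := by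
    intro n hn h
    exact hn ((ZMod.natCast_eq_zero_iff n m).1 h)
  have h4 : (4 : ZMod m) ≠ 0 := by
    have : ¬ m ∣ 4 := by
      intro h
      have h2 : m ∣ 2 ^ 2 := by simpa using h
      have := hm.dvd_of_dvd_pow h2
      exact hm2 ((Nat.prime_dvd_prime_iff_eq hm Nat.prime_two).1 this)
    have := hz 4 this
    exact_mod_cast this
  have hsum := zsum (F := ZMod m) hring (4 * (s : ZMod m)) (4 * (t : ZMod m)) (B : ZMod m)
    (mul_ne_zero h4 (hz s hs)) (mul_ne_zero h4 (hz t ht)) (hz B hB)
    (by
      intro h
      apply hst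
      have := mul_left_cancel₀ h4 h
      exact (ZMod.natCast_eq_natCast_iff s t m).1 this)
  have e1 : ∑ x ∈ Finset.range m, jacobiSym ((4 * (x * s) + B : ℕ) : ℤ) m *
      jacobiSym ((4 * (x * t) + B : ℕ) : ℤ) m =
      - quadraticChar (ZMod m) (4 * (s : ZMod m) * (4 * (t : ZMod m))) := by
    rw [← hsum, ← range_sum]
    refine Finset.sum_congr rfl fun x _ => ?_
    rw [jac_eq, jac_eq]
    congr 2
    · push_cast; ring
    · push_cast; ring
  rw [e1, abs_neg]
  rcases (quadraticChar_isQuadratic (ZMod m)) (4 * (s : ZMod m) * (4 * (t : ZMod m))) with h | h | h <;>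
    rw [h] <;> simp

end Pool.Agent.H52.AP.JS
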