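import Pool.Agent.H52.AP.Stubs
import Pool.Agent.H52.V.S8.H38R2.CG.TB2

/-! AP-OM (helper63): the mean of a decreasing function over a longer interval is smaller -/

set_option autoImplicit false

namespace Pool.Agent.H52.AP.OM

open Finset Filter Pool.Agent.H38R2.CG Pool.Agent.H38R2.CG.TB2h Pool.Agent.H52.W.SH

theorem F_anti_x {n v x y : ℝ} (hn : 0 < n) (hv : 0 ≤ v) (hx : 0 ≤ x) (hxy : x ≤ y) :
    F n v y ≤ F n v x := by
  unfold F
  have hs : 0 < √n := Real.sqrt_pos.2 hn
  have hpos : 0 < 4 * n + x * v ^ 2 := by positivity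
  refine div_le_div₀ ?_ ?_ (Real.sqrt_pos.2 hpos) ?_
  · exact mul_nonneg (phi_nonneg _) (by norm_num)
  · refine mul_le_mul_of_nonneg_right (phi_anti ?_ ?_) (by norm_num)
    · exact mul_nonneg (by norm_num) (Real.arsinh_nonneg_iff.2 (by positivity))
    · refine mul_le_mul_of_nonneg_left (Real.arsinh_le_arsinh.2 ?_) (by norm_num)
      gcongr
  · refine Real.sqrt_le_sqrt ?_
    have := mul_le_mul_of_nonneg_right hxy (sq_nonneg v)
    linarith

theorem main : A_OM := by
  intro m X T v n hm hX hXT hv hn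
  have hmR : (1 : ℝ) ≤ m := by exact_mod_cast hm
  have hXR : (1 : ℝ) ≤ X := by exact_mod_cast hX
  have hT1 : 1 ≤ T := le_trans (Nat.one_le_iff_ne_zero.2 (Nat.mul_ne_zero (by omega) (by omega))) hXT
  have hTR : (1 : ℝ) ≤ T := by exact_mod_cast hT1
  have hT0 : (T : ℝ) ≠ 0 := by linarith
  have e1 : (1 + ((m * X : ℕ) : ℝ) / (T : ℝ)) * T = T + m * X := by
    push_cast
    field_simp
  have e2 : (1 + (X : ℝ) / (T : ℝ)) * T = T + X := by
    field_simp
  unfold omT om
  rw [e1, e2]
  change (∫ x in (T : ℝ)..(T + m * X), F n v x) / m ≤ ∫ x in (T : ℝ)..(T + X), F n v x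
  have e3 : ∫ x in (T : ℝ)..(T + m * X), F n v x =
      m * ∫ x in (T : ℝ)..(T + X), F n v (m * x + (T - m * T)) := by
    have h := intervalIntegral.smul_integral_comp_mul_add (a := (T : ℝ)) (b := (T : ℝ) + X)
      (fun x => F n v x) (m : ℝ) ((T : ℝ) - m * T)
    rw [smul_eq_mul, show (m : ℝ) * T + (T - m * T) = T by ring,
      show (m : ℝ) * (T + X) + (T - m * T) = T + m * X by ring] at h
    exact h.symm
  rw [e3, mul_div_cancel_left₀ _ (by linarith)]
  have hab : (T : ℝ) ≤ T + X := by linarith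
  refine intervalIntegral.integral_mono_on hab ?_ (F_int hn (by linarith) hab) ?_
  · have h1 : Continuous fun x => G n v (m * x + (T - m * T)) :=
      (slice (G n) (G_cont hn) v).comp (by fun_prop)
    refine (h1.intervalIntegrable _ _).congr ?_
    intro x hx
    rw [Set.uIoc_of_le hab] at hx
    refine (FG ?_).symm
    have : (T : ℝ) < x := hx.1
    nlinarith
  · intro x hx
    have h1 : (T : ℝ) ≤ x := hx.1
    exact F_anti_x hn hv (by linarith) (by nlinarith)

end Pool.Agent.H52.AP.OM
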