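import Pool.Agent.H52.AP.Stubs

/-!
AP-RM: the number of roots with one more congruence, modulo the prime `m`.
-/

set_option autoImplicit false

namespace Pool.Agent.H52.AP.RM

open Finset Pool.Agent.H38R2.CG Pool.Agent.H52.W Pool.Agent.H52.W.CG2

/-- Counting by the residue modulo `M`. -/
theorem fib (M m k : ℕ) (hM : 0 < M) (P Q : ℕ → Prop) [DecidablePred P] [DecidablePred Q]
    (hP : ∀ u, P u ↔ P (u % M))
    (hk : ∀ u0, P u0 → ((range m).filter (fun j => Q (u0 + M * j))).card = k) :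
    ((range (M * m)).filter (fun u => P u ∧ Q u)).card = ((range M).filter P).card * k := by
  have h1 : ∀ u ∈ (range (M * m)).filter (fun u => P u ∧ Q u), u % M ∈ (range M).filter P := by
    intro u hu
    rw [mem_filter] at hu ⊢
    exact ⟨mem_range.2 (Nat.mod_lt _ hM), (hP u).1 hu.2.1⟩
  rw [Finset.card_eq_sum_card_fiberwise h1]
  have h0 : ((range M).filter P).card * k = ∑ _b ∈ (range M).filter P, k := by
    rw [Finset.sum_const, smul_eq_mul]
  rw [h0]
  refine Finset.sum_congr rfl fun u0 hu0 => ?_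
  rw [mem_filter, mem_range] at hu0
  rw [← hk u0 hu0.2]
  refine Finset.card_bij' (fun u _ => u / M) (fun j _ => u0 + M * j) ?_ ?_ ?_ ?_
  · intro u hu
    rw [mem_filter, mem_filter, mem_range] at hu
    rw [mem_filter, mem_range]
    refine ⟨Nat.div_lt_of_lt_mul hu.1.1, ?_⟩
    have h2 : u0 + M * (u / M) = u := by rw [← hu.2]; exact Nat.mod_add_div u M
    rw [h2]
    exact hu.1.2.2
  · intro j hj
    rw [mem_filter, mem_range] at hj
    rw [mem_filter, mem_filter, mem_range]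
    have h3 : (u0 + M * j) % M = u0 := by
      rw [Nat.add_mul_mod_self_left, Nat.mod_eq_of_lt hu0.1]
    refine ⟨⟨?_, ?_, hj.2⟩, h3⟩
    · calc u0 + M * j < M + M * j := by omega
        _ = M * (j + 1) := by ring
        _ ≤ M * m := Nat.mul_le_mul_left M hj.1
    · rw [hP, h3]; exact hu0.2
  · intro u hu
    rw [mem_filter] at hu
    rw [← hu.2]
    exact Nat.mod_add_div u M
  · intro j hj
    rw [Nat.add_mul_div_left _ _ hM, Nat.div_eq_of_lt hu0.1, zero_add]

/-- Counting the `j < m` with a given property of the residue of `j`. -/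
theorem cardZ {m : ℕ} [NeZero m] (R : ZMod m → Prop) [DecidablePred R] :
    ((range m).filter (fun j : ℕ => R (j : ZMod m))).card = (univ.filter R).card := by
  refine Finset.card_bij' (fun j _ => (j : ZMod m)) (fun x _ => x.val) ?_ ?_ ?_ ?_
  · intro j hj
    rw [mem_filter] at hj ⊢
    exact ⟨mem_univ _, hj.2⟩
  · intro x hx
    rw [mem_filter] at hx ⊢
    refine ⟨mem_range.2 (ZMod.val_lt x), ?_⟩
    rw [ZMod.natCast_zmod_val]
    exact hx.2
  · intro j hj
    rw [mem_filter, mem_range] at hj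
    exact ZMod.val_natCast_of_lt hj.1
  · intro x _
    exact ZMod.natCast_zmod_val x

/-- The number of solutions of an affine square equation. -/
theorem card_sq {m : ℕ} [Fact m.Prime] (hm : m ≠ 2) (A u c : ZMod m) (hA : A ≠ 0) :
    (((univ.filter (fun x : ZMod m => (u + A * x) ^ 2 = c)).card : ℕ) : ℤ) =
      quadraticChar (ZMod m) c + 1 := by
  have hring : ringChar (ZMod m) ≠ 2 := by
    rw [ZMod.ringChar_zmod_n]
    exact hm
  rw [← quadraticChar_card_sqrts hring]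
  congr 1
  refine Finset.card_bij' (fun x _ => u + A * x) (fun y _ => (y - u) / A) ?_ ?_ ?_ ?_
  · intro x hx
    rw [mem_filter] at hx
    simpa using hx.2
  · intro y hy
    rw [mem_filter]
    refine ⟨mem_univ _, ?_⟩
    have h1 : u + A * ((y - u) / A) = y := by field_simp; ring
    rw [h1]
    simpa using hy
  · intro x _
    field_simp
    ring
  · intro y _
    field_simp
    ring

theorem two_dvd_Qz (z : ℕ) : 2 ∣ Qz z := by
  unfold Qz
  exact Dvd.dvd.mul_right (by norm_num) _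

theorem jac_eq {m : ℕ} [Fact m.Prime] (n : ℕ) :
    jacobiSym (n : ℤ) m = quadraticChar (ZMod m) (n : ZMod m) := by
  rw [← jacobiSym.legendreSym.to_jacobiSym]
  unfold legendreSym
  simp

theorem main : A_RM := by
  intro z r m b n v d hm hmQ hn hmn hv hd hmd
  have hFm : Fact m.Prime := ⟨hm⟩
  have hNe : NeZero m := ⟨hm.ne_zero⟩
  have hm2 : m ≠ 2 := by
    intro h
    exact hmQ (h ▸ two_dvd_Qz z)
  have hQ0 : 0 < Qz z := by
    rcases Nat.eq_zero_or_pos (Qz z) with h | h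
    · rw [h] at hmQ
      exact absurd (dvd_zero m) hmQ
    · exact h
  have hM0 : 0 < Qz z * (d * v ^ 2) := by positivity
  have hz : ∀ n : ℕ, ¬ m ∣ n → (n : ZMod m) ≠ 0 := by
    intro n hn h
    exact hn ((ZMod.natCast_eq_zero_iff n m).1 h)
  have h2z : (2 : ZMod m) ≠ 0 := by
    have : ¬ m ∣ 2 := fun h => hm2 ((Nat.prime_dvd_prime_iff_eq hm Nat.prime_two).1 h)
    have := hz 2 this
    exact_mod_cast this
  -- the condition without m
  set P : ℕ → Prop := fun u => u ^ 2 ≡ 4 * n + r * v ^ 2 [MOD Qz z * v ^ 2] ∧ u ^ 2 ≡ 4 * n [MOD d * v ^ 2]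
    with hPdef
  have hPmod : ∀ u, P u ↔ P (u % (Qz z * (d * v ^ 2))) := by
    intro u
    have h1 : u % (Qz z * (d * v ^ 2)) ≡ u [MOD Qz z * (d * v ^ 2)] := Nat.mod_modEq _ _
    have h2 : (u % (Qz z * (d * v ^ 2))) ^ 2 ≡ u ^ 2 [MOD Qz z * v ^ 2] :=
      (h1.of_dvd ⟨d, by ring⟩).pow 2
    have h3 : (u % (Qz z * (d * v ^ 2))) ^ 2 ≡ u ^ 2 [MOD d * v ^ 2] :=
      (h1.of_dvd ⟨Qz z, by ring⟩).pow 2
    simp only [hPdef]
    constructor
    · rintro ⟨h4, h5⟩
      exact ⟨h2.trans h4, h3.trans h5⟩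
    · rintro ⟨h4, h5⟩
      exact ⟨h2.symm.trans h4, h3.symm.trans h5⟩
  have hRR : RR z r n v d = ((range (Qz z * (d * v ^ 2))).filter P).card := rfl
  have hRRm : RRm z r m b n v d = ((range (Qz z * (d * v ^ 2) * m)).filter
      (fun u => P u ∧ u ^ 2 ≡ 4 * n + b * v ^ 2 [MOD m * v ^ 2])).card := by
    unfold RRm
    have e1 : Qz z * (d * (m * v ^ 2)) = Qz z * (d * v ^ 2) * m := by ring
    rw [e1]
    congr 1
    apply Finset.filter_congr
    intro u _
    simp only [hPdef, and_assoc]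
  by_cases hmv : m ∣ v
  · -- one lift
    have hk : kM m b n v = 1 := by unfold kM; rw [if_pos hmv]
    rw [hk, mul_one, hRR, hRRm]
    congr 1
    rw [fib (Qz z * (d * v ^ 2)) m 1 hM0 P _ hPmod, mul_one]
    intro u0 hu0
    have h5 : u0 ^ 2 ≡ 4 * n [MOD v ^ 2] := hu0.2.of_dvd ⟨d, by ring⟩
    have h6 : ((v : ℤ) ^ 2) ∣ ((u0 : ℤ) ^ 2 - 4 * n) := by
      have := (Nat.modEq_iff_dvd.1 h5.symm)
      push_cast at this
      exact this
    obtain ⟨w, hw⟩ := h6
    have hmvZ : ((v : ℕ) : ZMod m) = 0 := (ZMod.natCast_eq_zero_iff v m).2 hmv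
    -- u0 is a unit
    have hu0Z : (u0 : ZMod m) ≠ 0 := by
      intro h
      have h7 : (((u0 : ℤ) ^ 2 - 4 * n : ℤ) : ZMod m) = (((v : ℤ) ^ 2 * w : ℤ) : ZMod m) := by rw [hw]
      push_cast at h7
      rw [h, hmvZ] at h7
      have h8 : (2 : ZMod m) * 2 * (n : ZMod m) = 0 := by linear_combination -h7
      rcases mul_eq_zero.1 h8 with h9 | h9
      · exact (mul_ne_zero h2z h2z) h9
      · exact hz n hmn h9
    have hA : (2 * (u0 : ZMod m) * (Qz z : ZMod m) * (d : ZMod m)) ≠ 0 :=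
      mul_ne_zero (mul_ne_zero (mul_ne_zero h2z hu0Z) (hz _ hmQ)) (hz _ hmd)
    have h10 : ∀ j : ℕ, ((u0 + Qz z * (d * v ^ 2) * j) ^ 2 ≡ 4 * n + b * v ^ 2 [MOD m * v ^ 2]) ↔
        ((j : ZMod m) = ((b : ZMod m) - (w : ZMod m)) / (2 * (u0 : ZMod m) * (Qz z : ZMod m) * (d : ZMod m))) := by
      intro j
      rw [Nat.ModEq.comm, Nat.modEq_iff_dvd]
      push_cast
      have e2 : ((u0 : ℤ) + Qz z * (d * v ^ 2) * j) ^ 2 - (4 * n + b * v ^ 2) =
          (w + 2 * u0 * (Qz z * d * j) + (Qz z * d * j) ^ 2 * v ^ 2 - b) * v ^ 2 := by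
        linear_combination hw
      rw [e2]
      have hv0 : ((v : ℤ) ^ 2) ≠ 0 := by positivity
      rw [mul_dvd_mul_iff_right hv0, ← ZMod.intCast_zmod_eq_zero_iff_dvd]
      push_cast
      rw [hmvZ, eq_div_iff hA]
      constructor
      · intro h; linear_combination h
      · intro h; linear_combination h
    have h11 : (range m).filter (fun j => (u0 + Qz z * (d * v ^ 2) * j) ^ 2 ≡ 4 * n + b * v ^ 2 [MOD m * v ^ 2]) =
        (range m).filter (fun j : ℕ => ((j : ZMod m) = ((b : ZMod m) - (w : ZMod m)) /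
          (2 * (u0 : ZMod m) * (Qz z : ZMod m) * (d : ZMod m)))) :=
      Finset.filter_congr fun j _ => h10 j
    rw [h11, cardZ (fun x : ZMod m => x = ((b : ZMod m) - (w : ZMod m)) /
          (2 * (u0 : ZMod m) * (Qz z : ZMod m) * (d : ZMod m))), Finset.filter_eq']
    simp
  · -- the roots modulo m
    have hk : kM m b n v = 1 + ((jacobiSym ((4 * n + b * v ^ 2 : ℕ) : ℤ) m : ℤ) : ℝ) := by
      unfold kM; rw [if_neg hmv]
    have hcop : m.Coprime (v ^ 2) := (hm.coprime_iff_not_dvd.2 hmv).pow_right 2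
    -- the number of roots
    obtain ⟨k, hkk⟩ : ∃ k : ℕ, (k : ℤ) = quadraticChar (ZMod m) ((4 * n + b * v ^ 2 : ℕ) : ZMod m) + 1 := by
      refine ⟨(univ.filter (fun x : ZMod m => ((0 : ZMod m) + 1 * x) ^ 2 =
        ((4 * n + b * v ^ 2 : ℕ) : ZMod m))).card, ?_⟩
      exact card_sq hm2 1 0 _ one_ne_zero
    have hkR : kM m b n v = k := by
      rw [hk, jac_eq]
      have : ((k : ℤ) : ℝ) = ((quadraticChar (ZMod m) ((4 * n + b * v ^ 2 : ℕ) : ZMod m) + 1 : ℤ) : ℝ) := by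
        rw [hkk]
      push_cast at this ⊢
      linarith
    rw [hkR, hRR, hRRm]
    rw [fib (Qz z * (d * v ^ 2)) m k hM0 P _ hPmod]
    · push_cast; ring
    intro u0 hu0
    have h5 : u0 ^ 2 ≡ 4 * n [MOD v ^ 2] := hu0.2.of_dvd ⟨d, by ring⟩
    have h10 : ∀ j : ℕ, ((u0 + Qz z * (d * v ^ 2) * j) ^ 2 ≡ 4 * n + b * v ^ 2 [MOD m * v ^ 2]) ↔
        (((u0 : ZMod m) + ((Qz z * (d * v ^ 2) : ℕ) : ZMod m) * (j : ZMod m)) ^ 2 =
          ((4 * n + b * v ^ 2 : ℕ) : ZMod m)) := by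
      intro j
      rw [← Nat.modEq_and_modEq_iff_modEq_mul hcop]
      have h12 : (u0 + Qz z * (d * v ^ 2) * j) ^ 2 ≡ 4 * n + b * v ^ 2 [MOD v ^ 2] := by
        have h13 : u0 + Qz z * (d * v ^ 2) * j ≡ u0 [MOD v ^ 2] := by
          have : u0 + Qz z * (d * v ^ 2) * j = u0 + v ^ 2 * (Qz z * d * j) := by ring
          rw [this]
          exact (Nat.modEq_of_dvd (by simp)) 
        have h14 : 4 * n ≡ 4 * n + b * v ^ 2 [MOD v ^ 2] :=
          Nat.modEq_of_dvd (by push_cast; exact ⟨b, by ring⟩)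
        exact ((h13.pow 2).trans h5).trans h14
      rw [← ZMod.natCast_eq_natCast_iff]
      push_cast
      constructor
      · rintro ⟨h, _⟩; exact h
      · intro h; exact ⟨h, h12⟩
    have h11 : (range m).filter (fun j => (u0 + Qz z * (d * v ^ 2) * j) ^ 2 ≡ 4 * n + b * v ^ 2 [MOD m * v ^ 2]) =
        (range m).filter (fun j : ℕ => (((u0 : ZMod m) + ((Qz z * (d * v ^ 2) : ℕ) : ZMod m) * (j : ZMod m)) ^ 2 =
          ((4 * n + b * v ^ 2 : ℕ) : ZMod m))) :=
      Finset.filter_congr fun j _ => h10 j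
    rw [h11, cardZ (fun x : ZMod m => ((u0 : ZMod m) + ((Qz z * (d * v ^ 2) : ℕ) : ZMod m) * x) ^ 2 =
          ((4 * n + b * v ^ 2 : ℕ) : ZMod m))]
    have hA : ((Qz z * (d * v ^ 2) : ℕ) : ZMod m) ≠ 0 := by
      apply hz
      intro h
      rcases (Nat.Prime.dvd_mul hm).1 h with h | h
      · exact hmQ h
      · rcases (Nat.Prime.dvd_mul hm).1 h with h | h
        · exact hmd h
        · exact hmv (hm.dvd_of_dvd_pow h)
    have h15 := card_sq hm2 _ (u0 : ZMod m) ((4 * n + b * v ^ 2 : ℕ) : ZMod m) hA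
    rw [← hkk] at h15
    exact_mod_cast h15

end Pool.Agent.H52.AP.RM
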