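import Pool.Agent.H52.AP.Stubs2

/-! Project AP: few exceptional discriminants without prime factor in `Q`. -/

set_option autoImplicit false

namespace Pool.Agent.H52.AP.SQ

variable [Pool.Agent.H52.W.Lam]

open Finset Filter NumberField Pool.Agent.H38R2.CG Pool.Agent.H52.W.CG2 Pool.Agent.H52.W.CG3
open Pool.Agent.H38R2.CG.AS1h Pool.Agent.H38R2.CG.FINh Pool.Agent.H52.W.SR
open Pool.Agent.H52.W Pool.Agent.H52.W.SH Pool.Agent.H52.AP
open scoped Classical

lemma pq_diff (Q : Set ℕ) (m X : ℕ) (hm : 2 ≤ m) : pq (Q \ {m}) X ≤ 2 * pq Q X := by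
  have hpos := pq_pos (Q \ {m}) X
  have hm2 : (2 : ℝ) ≤ m := by exact_mod_cast hm
  have hinv : (1 : ℝ) / m ≤ 1 / 2 := one_div_le_one_div_of_le (by norm_num) hm2
  by_cases h : m ∈ (Finset.Icc 3 X).filter (fun q => q.Prime ∧ q ∈ Q)
  · have h1 : pq Q X = (1 - (1 : ℝ) / m) * pq (Q \ {m}) X := by
      unfold pq
      rw [← Finset.mul_prod_erase _ _ h]
      congr 1
      apply Finset.prod_congr _ (fun _ _ => rfl)
      ext q
      simp only [Finset.mem_erase, Finset.mem_filter, Finset.mem_Icc, Set.mem_sdiff,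
        Set.mem_singleton_iff]
      tauto
    rw [h1]
    nlinarith
  · have h1 : pq Q X = pq (Q \ {m}) X := by
      unfold pq
      apply Finset.prod_congr _ (fun _ _ => rfl)
      ext q
      simp only [Finset.mem_filter, Finset.mem_Icc, Set.mem_sdiff, Set.mem_singleton_iff] at h ⊢
      constructor
      · rintro ⟨h2, h3, h4⟩
        exact ⟨h2, h3, h4, fun h5 => h (h5 ▸ ⟨h2, h3, h4⟩)⟩
      · rintro ⟨h2, h3, h4, -⟩
        exact ⟨h2, h3, h4⟩
    rw [h1]
    linarith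

theorem main (hBF : P2_BF) (hHB : P2_HB) (hHD : P2_HD) (hCH : P2_CH) (hBHa : P2_BHa)
    (hAS : A_AS0) : A_SQ := by
  intro a ha κ hκ t0 ht0 ε hε
  have ha1 : 0 < a - 1 := by linarith
  have hcc0 : 0 < cc a := by
    exact ccpos (by assumption)
  have hcc1 : cc a ≤ 1 / 2 := by
    have h32 := cclt (a := a) (by assumption)
    linarith
  obtain ⟨C0, hC0, hB⟩ := BHq hBF hHB hHD hCH hBHa (cc a) hcc0 (by linarith)
  have hC0' : (1 : ℝ) ≤ C0 := by exact_mod_cast hC0
  obtain ⟨z0, hz0⟩ := hAS a ha κ hκ t0 ht0 C0 hC0 (ε / 2 / C0) (by positivity)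
  set z := max 2 z0 with hz
  have hz2 : 2 ≤ z := le_max_left _ _
  obtain ⟨η1, hη1, hη11, H⟩ := hz0 z (le_max_right _ _)
  obtain ⟨XB, hXB⟩ := hB z hz2 a ha
  refine ⟨η1, hη1, hη11, ?_⟩
  have H' : ∀ r : ℕ, ∃ X0 : ℕ, ∀ X ≥ X0, ∀ m b T : ℕ, RM a κ m b X T →
      (m : ℝ) * X ≤ η1 * T →
      ∀ ρ : ℕ → ℝ, SWt z X (PA a X) (cc a) C0 ρ → Cop m ρ → FundRes z r →
      ∑ D ∈ (FM z r m b X T).filter (fun D => Bd a t0 X D), wt ρ D ≤ ε / 2 / C0 * WS z X ρ := by
    intro r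
    by_cases hr : FundRes z r
    · obtain ⟨X0, hX0⟩ := H r hr
      exact ⟨X0, fun X hX m b T hT hXT ρ hρ hC _ => hX0 X hX m b T hT hXT ρ hρ hC⟩
    · exact ⟨0, fun X _ m b T _ _ ρ _ _ hr' => absurd hr' hr⟩
  choose X0 hX0 using H'
  refine ⟨max (max ((Finset.range (Qz z)).sup X0) XB) 17, ?_⟩
  intro X hX m b T hRG hXT Q0
  obtain ⟨Q, hQdef⟩ : ∃ Q : Set ℕ, Q = Q0 \ {m} := ⟨_, rfl⟩
  have hX1 : (Finset.range (Qz z)).sup X0 ≤ X :=
    (le_max_left _ _).trans ((le_max_left _ _).trans hX)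
  have hX2 : XB ≤ X := (le_max_right _ _).trans ((le_max_left _ _).trans hX)
  have hX3 : 17 ≤ X := (le_max_right _ _).trans hX
  obtain ⟨hρ, hρ1, hGG⟩ := hXB X hX2 Q
  set ρ := rq Q z a X (cc a) with hρdef
  have hCop : Cop m ρ := by
    intro d hd hmd
    have hd0 : d ≠ 0 := by
      have := (hρ.supp d hd).1
      omega
    have h1 := (rq_ne (by omega) hcc0 hd).2 m (Nat.mem_primeFactors.2 ⟨hRG.pr, hmd, hd0⟩)
    rw [hQdef] at h1
    exact h1.2 rfl
  have hX17 : (17 : ℝ) ≤ X := by exact_mod_cast hX3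
  have hlog : 0 < Real.log X := Real.log_pos (by linarith)
  have hGpos : 0 ≤ GG X ρ := le_trans (by positivity) hρ.low
  set S := (Finset.Ioc T (T + m * X)).filter (fun D => D % m = b ∧
    (∀ q ∈ Q, q.Prime → 3 ≤ q → ¬ q ∣ D) ∧ IsFund D ∧ Bd a t0 X D) with hS
  have hS0 : (((Finset.Ioc T (T + m * X)).filter (fun D => D % m = b ∧
      (∀ q ∈ Q0, q.Prime → 3 ≤ q → ¬ q ∣ D) ∧ IsFund D ∧ Bd a t0 X D)).card : ℝ) ≤ S.card := by
    have h1 : ((Finset.Ioc T (T + m * X)).filter (fun D => D % m = b ∧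
      (∀ q ∈ Q0, q.Prime → 3 ≤ q → ¬ q ∣ D) ∧ IsFund D ∧ Bd a t0 X D)) ⊆ S := by
      intro D hD
      rw [hS, Finset.mem_filter]
      rw [Finset.mem_filter] at hD
      refine ⟨hD.1, hD.2.1, fun q hq => hD.2.2.1 q ?_, hD.2.2.2⟩
      rw [hQdef] at hq
      exact hq.1
    exact_mod_cast Finset.card_le_card h1
  refine hS0.trans ?_
  have hcard : S.card = ∑ r ∈ Finset.range (Qz z), (S.filter (fun D => D % Qz z = r)).card := by
    apply Finset.card_eq_sum_card_fiberwise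
    intro D _
    simp only [Finset.coe_range, Set.mem_Iio]
    exact Nat.mod_lt _ (AS1h.Qz_pos z)
  have hQ : (0 : ℝ) < Qz z := by exact_mod_cast AS1h.Qz_pos z
  have hW : 0 ≤ ε / 2 / C0 * WS z X ρ := by
    unfold WS
    positivity
  have hle : ∀ r ∈ Finset.range (Qz z),
      ((S.filter (fun D => D % Qz z = r)).card : ℝ) ≤
        if (∀ q ∈ (Finset.Icc 3 z).filter (fun q => q.Prime ∧ q ∈ Q), ¬ q ∣ r)
          then ε / 2 / C0 * WS z X ρ else 0 := by
    intro r hr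
    by_cases hfr : FundRes z r ∧
        ∀ q ∈ (Finset.Icc 3 z).filter (fun q => q.Prime ∧ q ∈ Q), ¬ q ∣ r
    · rw [if_pos hfr.2]
      refine le_trans ?_ (hX0 r X (le_trans (Finset.le_sup hr) hX1) m b T hRG hXT ρ hρ hCop hfr.1)
      have hsub : (S.filter (fun D => D % Qz z = r)) ⊆
          ((FM z r m b X T).filter (fun D => Bd a t0 X D)) := by
        intro D hD
        simp only [hS, FM, DM, Finset.mem_filter] at hD ⊢
        exact ⟨⟨⟨hD.1.1, hD.2, hD.1.2.1⟩, hD.1.2.2.2.1⟩, hD.1.2.2.2.2⟩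
      have e1 : ((S.filter (fun D => D % Qz z = r)).card : ℝ) =
          ∑ D ∈ S.filter (fun D => D % Qz z = r), wt ρ D := by
        rw [Finset.sum_congr rfl (g := fun _ => (1 : ℝ)), Finset.sum_const, nsmul_eq_mul, mul_one]
        intro D hD
        simp only [hS, Finset.mem_filter, Finset.mem_Ioc] at hD
        exact wtq_one (by omega) hcc0 hρ hρ1 (by omega) hD.1.2.2.1
      rw [e1]
      refine Finset.sum_le_sum_of_subset_of_nonneg hsub ?_
      intro D hD _
      simp only [FM, DM, Finset.mem_filter, Finset.mem_Ioc] at hD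
      exact APh.wt_nonneg (by omega) (by linarith) hρ D (by omega)
    · have hemp : (S.filter (fun D => D % Qz z = r)) = ∅ := by
        rw [Finset.filter_eq_empty_iff]
        intro D hD hDr
        apply hfr
        simp only [hS, Finset.mem_filter, Finset.mem_Ioc] at hD
        rw [← hDr]
        refine ⟨AS1h.fundRes z D hD.2.2.2.1, ?_⟩
        intro q hq hqd
        rw [Finset.mem_filter, Finset.mem_Icc] at hq
        have hqQ : q ∣ Qz z := by
          unfold Qz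
          exact Dvd.dvd.mul_left ((dvd_pow_self q (by norm_num)).trans
            (Finset.dvd_prod_of_mem (fun l => l ^ 2)
              (Finset.mem_filter.2 ⟨Finset.mem_Icc.2 hq.1, hq.2.1⟩))) _
        exact hD.2.2.1 q hq.2.2 hq.2.1 hq.1.1 ((Nat.dvd_mod_iff hqQ).1 hqd)
      rw [hemp, Finset.card_empty, Nat.cast_zero]
      split_ifs
      · exact hW
      · exact le_rfl
  rw [hcard]
  push_cast
  refine le_trans (Finset.sum_le_sum hle) ?_
  rw [← Finset.sum_filter, Finset.sum_const, nsmul_eq_mul]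
  have hRC' := rcq Q z
  refine (le_of_eq (congrArg (fun t : ℝ => t * (ε / 2 / C0 * WS z X ρ)) hRC')).trans ?_
  show (Qz z : ℝ) * pq Q z * (ε / 2 / C0 * WS z X ρ) ≤ ε * X * pq Q0 X
  unfold WS
  have e2 : (Qz z : ℝ) * pq Q z * (ε / 2 / C0 * (X / Qz z * GG X ρ)) = ε / 2 / C0 * X *
        (GG X ρ * pq Q z) := by
    field_simp
  rw [e2]
  calc ε / 2 / C0 * X * (GG X ρ * pq Q z)
      ≤ ε / 2 / C0 * X * (C0 * pq Q X) :=
        mul_le_mul_of_nonneg_left hGG (by positivity)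
    _ = ε / 2 * X * pq Q X := by
        field_simp
    _ ≤ ε / 2 * X * (2 * pq Q0 X) :=
        mul_le_mul_of_nonneg_left (by
          rw [hQdef]
          exact pq_diff Q0 m X hRG.pr.two_le) (by positivity)
    _ = ε * X * pq Q0 X := by ring

end Pool.Agent.H52.AP.SQ
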