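import Pool.Agent.H52.AP.Stubs
import Pool.Agent.H52.W.SH.V0

/-! AP-T1 (helper63): one n (adapted from `W/SH/V0.lean`) -/

set_option autoImplicit false

namespace Pool.Agent.H52.AP.T1

variable [Pool.Agent.H52.W.Lam]

open Finset Filter NumberField Pool.Agent.H38R2.CG Pool.Agent.H52.W Pool.Agent.H52.W.CG2
  Pool.Agent.H52.W.SH
open scoped Classical

open Pool.Agent.H38R2.CG.TB1h in
theorem main : P2_WT → A_T1a → A_RM → A_T1 := by
  intro hWT hA hRM z r m b X Y n P δ C0 ρ hr hmp hmQ hb hbm hX hXY hn hmn _hδ0 hδ hρ hcopr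
  have hm0 : 0 < m := hmp.pos
  have hY1 : 1 ≤ Y := le_trans (Nat.one_le_iff_ne_zero.2 (Nat.mul_ne_zero hm0.ne' (by omega))) hXY
  have hXR : (0 : ℝ) < X := by exact_mod_cast hX
  have hYR : (0 : ℝ) < Y := by exact_mod_cast hY1
  have hD : ∀ D ∈ DM z r m b X Y, Y < D := by
    intro D hD
    unfold DM at hD
    rw [Finset.mem_filter, Finset.mem_Ioc] at hD
    exact hD.1.1
  have hw : ∀ D ∈ DM z r m b X Y, 0 ≤ wt ρ D ∧
      wt ρ D = ∑ d ∈ (Finset.Icc 1 X).filter (fun d => d ∣ D), ρ d := fun D hD' =>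
    hWT z X P δ C0 ρ hX hδ hρ D (by have := hD D hD'; omega)
  have h0 : ∑ D ∈ DM z r m b X Y, wt ρ D * Rsum D n =
      ∑ D ∈ DM z r m b X Y, wt ρ D * ∑ u ∈ Finset.Icc 1 (4 * n), T D n u 0 +
      2 * ∑ v ∈ Finset.Icc 1 (4 * n), ∑ D ∈ DM z r m b X Y,
        wt ρ D * ∑ u ∈ Finset.Icc 1 (4 * n), T D n u (v : ℤ) := by
    rw [Finset.sum_comm, Finset.mul_sum, ← Finset.sum_add_distrib]
    apply Finset.sum_congr rfl
    intro D _
    rw [Rsum_eq, mul_add, ← Finset.mul_sum]
    ring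
  rw [h0]
  apply add_le_add
  · calc ∑ D ∈ DM z r m b X Y, wt ρ D * ∑ u ∈ Finset.Icc 1 (4 * n), T D n u 0
        ≤ ∑ D ∈ DM z r m b X Y, wt ρ D * (if IsSquare n then (1 : ℝ) else 0) :=
          Finset.sum_le_sum (fun D hD' =>
            mul_le_mul_of_nonneg_left (sum_T_zero D n (4 * n)) (hw D hD').1)
      _ = if IsSquare n then ∑ D ∈ DM z r m b X Y, wt ρ D else 0 := by
          split_ifs <;> simp
  · apply mul_le_mul_of_nonneg_left _ (by norm_num)
    set V : ℕ := ⌊2 * √((n : ℝ) / Y)⌋₊ with hV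
    have h1 : ∑ v ∈ Finset.Icc 1 (4 * n), ∑ D ∈ DM z r m b X Y,
        wt ρ D * ∑ u ∈ Finset.Icc 1 (4 * n), T D n u (v : ℤ) =
        ∑ v ∈ (Finset.Icc 1 (4 * n)).filter (fun v => v ≤ V), ∑ D ∈ DM z r m b X Y,
        wt ρ D * ∑ u ∈ Finset.Icc 1 (4 * n), T D n u (v : ℤ) := by
      rw [Finset.sum_filter]
      apply Finset.sum_congr rfl
      intro v _
      split_ifs with h
      · rfl
      · push Not at h
        have h2 : 2 * √((n : ℝ) / Y) < v := by
          rw [hV] at h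
          exact Nat.lt_of_floor_lt h
        apply Finset.sum_eq_zero
        intro D hD'
        rw [Finset.sum_eq_zero, mul_zero]
        intro u _
        exact T_large Y D n u v hY1 hn (hD D hD') h2
    rw [h1]
    have h2 : ∑ v ∈ (Finset.Icc 1 (4 * n)).filter (fun v => v ≤ V), ∑ D ∈ DM z r m b X Y,
        wt ρ D * ∑ u ∈ Finset.Icc 1 (4 * n), T D n u (v : ℤ) ≤
        ∑ v ∈ Finset.Icc 1 V, ∑ D ∈ DM z r m b X Y,
        wt ρ D * ∑ u ∈ Finset.Icc 1 (4 * n), T D n u (v : ℤ) := by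
      apply Finset.sum_le_sum_of_subset_of_nonneg
      · intro v hv
        rw [Finset.mem_filter, Finset.mem_Icc] at hv
        rw [Finset.mem_Icc]
        exact ⟨hv.1.1, hv.2⟩
      · intro v _ _
        exact Finset.sum_nonneg (fun D hD' => mul_nonneg (hw D hD').1
          (Finset.sum_nonneg (fun u _ => T_nonneg D n u v)))
    refine h2.trans ?_
    apply Finset.sum_le_sum
    intro v hv
    rw [Finset.mem_Icc] at hv
    have h3 : ∑ D ∈ DM z r m b X Y, wt ρ D * ∑ u ∈ Finset.Icc 1 (4 * n), T D n u (v : ℤ) =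
        ∑ d ∈ Finset.Icc 1 X, ρ d * ∑ D ∈ (DM z r m b X Y).filter (fun D => d ∣ D),
          ∑ u ∈ Finset.Icc 1 (4 * n), T D n u (v : ℤ) := by
      have h4 : ∀ D ∈ DM z r m b X Y, wt ρ D * ∑ u ∈ Finset.Icc 1 (4 * n), T D n u (v : ℤ) =
          ∑ d ∈ Finset.Icc 1 X, if d ∣ D then
            ρ d * ∑ u ∈ Finset.Icc 1 (4 * n), T D n u (v : ℤ) else 0 := by
        intro D hD'
        rw [(hw D hD').2, Finset.sum_filter, Finset.sum_mul]
        apply Finset.sum_congr rfl
        intro d _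
        split_ifs <;> simp
      rw [Finset.sum_congr rfl h4, Finset.sum_comm]
      apply Finset.sum_congr rfl
      intro d _
      rw [Finset.mul_sum, Finset.sum_filter]
    rw [h3, Finset.mul_sum, ← Finset.sum_add_distrib, Finset.mul_sum]
    apply Finset.sum_le_sum
    intro d hd
    rw [Finset.mem_Icc] at hd
    by_cases hρd : ρ d = 0
    · rw [hρd]
      simp
    · have hcop := (hρ.supp d hρd).2.2.2.1
      have h5 := hA z r m b X Y n v d hr hmp hmQ hb hbm hX hXY hn hv.1 hd.1 hcop (hcopr d hρd)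
      have hrm := hRM z r m b n v d hmp hmQ hn hmn hv.1 hd.1 (hcopr d hρd)
      have h6 : ∑ D ∈ (DM z r m b X Y).filter (fun D => d ∣ D),
          ∑ u ∈ Finset.Icc 1 (4 * n), T D n u (v : ℤ) =
          ∑ D ∈ (DM z r m b X Y).filter (fun D => d ∣ D), ∑ u ∈ Finset.Icc 1 (4 * n),
          (if ((u : ℤ) ^ 2 - (D : ℤ) * (v : ℤ) ^ 2 = 4 * n) then
            phi (Real.log (((u : ℝ) + v * √(D : ℝ)) / ((u : ℝ) - v * √(D : ℝ)))) else 0) := by
        apply Finset.sum_congr rfl
        intro D _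
        apply Finset.sum_congr rfl
        intro u _
        unfold T
        push_cast
        rfl
      rw [← h6] at h5
      set A := ∑ D ∈ (DM z r m b X Y).filter (fun D => d ∣ D),
          ∑ u ∈ Finset.Icc 1 (4 * n), T D n u (v : ℤ) with hA'
      have h7 : ρ d * (A - (RRm z r m b n v d : ℝ) *
          (om Y (((m * X : ℕ) : ℝ) / Y) v n / (m * (Qz z * d)))) ≤
          |ρ d| * (RRm z r m b n v d : ℝ) := by
        refine (le_abs_self _).trans ?_
        rw [abs_mul]
        exact mul_le_mul_of_nonneg_left h5 (abs_nonneg _)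
      rw [hrm] at h7
      have h8 : kM m b n v * (om Y (((m * X : ℕ) : ℝ) / Y) v n / (m * Qz z) *
            (ρ d / d * (RR z r n v d : ℝ)) + |ρ d| * (RR z r n v d : ℝ)) =
          ρ d * ((RR z r n v d : ℝ) * kM m b n v *
            (om Y (((m * X : ℕ) : ℝ) / Y) v n / (m * (Qz z * d)))) +
          |ρ d| * ((RR z r n v d : ℝ) * kM m b n v) := by
        have hd0 : (d : ℝ) ≠ 0 := by
          have : d ≠ 0 := by omega
          exact_mod_cast this
        have hmR : (m : ℝ) ≠ 0 := by exact_mod_cast hm0.ne'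
        by_cases hq : (Qz z : ℝ) = 0
        · rw [hq]; simp; ring
        · field_simp
      rw [h8]
      linarith

end Pool.Agent.H52.AP.T1
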