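import Pool.Agent.H52.AP.Stubs
import Pool.Agent.H52.W.SH.V0
import Pool.Agent.H52.W.CG2.T1a

/-! AP-T1a (helper63): one n, one v, one d (adapted from `W/CG2/T1a.lean`) -/

set_option autoImplicit false

namespace Pool.Agent.H52.AP.T1a

variable [Pool.Agent.H52.W.Lam]

open Finset Filter NumberField Pool.Agent.H38R2.CG Pool.Agent.H52.W Pool.Agent.H52.W.CG2
  Pool.Agent.H52.W.SH
open scoped Classical

open Pool.Agent.H52.W.CG2.T1ah Pool.Agent.H38R2.CG.TB1ah in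
theorem main : A_T1a := by
  intro z r m b0 X T n v d hr hmp hmQ hb0 hbm hX hXT hn hv hd hdQ hmd
  have hQ : 0 < Qz z := by omega
  have hm0 : 0 < m := hmp.pos
  have hT1 : 1 ≤ T := le_trans (Nat.one_le_iff_ne_zero.2 (Nat.mul_ne_zero hm0.ne' (by omega))) hXT
  have hn' : (0 : ℝ) < n := by exact_mod_cast hn
  have hX' : (0 : ℝ) < X := by exact_mod_cast hX
  have hT' : (0 : ℝ) < T := by exact_mod_cast hT1
  have hv' : (0 : ℝ) < v := by exact_mod_cast hv
  have hd' : (0 : ℝ) < d := by exact_mod_cast hd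
  have hQ' : (0 : ℝ) < Qz z := by exact_mod_cast hQ
  have hm' : (0 : ℝ) < m := by exact_mod_cast hm0
  set M : ℕ := Qz z * (d * (m * v ^ 2)) with hM
  have hm : 1 ≤ M := Nat.one_le_iff_ne_zero.mpr (by positivity)
  set η : ℝ := ((m * X : ℕ) : ℝ) / (T : ℝ) with hηd
  have hη : 0 < η := by positivity
  have hη1 : η ≤ 1 := by
    rw [hηd, div_le_one hT']
    exact_mod_cast hXT
  have hηT : (1 + η) * T = ((T + m * X : ℕ) : ℝ) := by
    rw [hηd, add_mul, Pool.Agent.H52.W.SH.V0.mul_eq hT1]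
    push_cast
    ring
  set a : ℝ := √(4 * (n : ℝ) + T * (v : ℝ) ^ 2) with ha
  set b : ℝ := √(4 * (n : ℝ) + ((1 + η) * T) * (v : ℝ) ^ 2) with hb
  have hab : a ≤ b := by
    apply Real.sqrt_le_sqrt
    have : (T : ℝ) * (v : ℝ) ^ 2 ≤ ((1 + η) * T) * (v : ℝ) ^ 2 := by
      apply mul_le_mul_of_nonneg_right _ (by positivity)
      nlinarith
    linarith
  have ha0 : 0 ≤ a := Real.sqrt_nonneg _
  have hDD : ∀ D, D ∈ DM z r m b0 X T ↔
      (T : ℝ) < D ∧ (D : ℝ) ≤ (1 + η) * T ∧ D % Qz z = r ∧ D % m = b0 := by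
    intro D
    rw [DM, Finset.mem_filter, Finset.mem_Ioc, hηT, Nat.cast_le, Nat.cast_lt, and_assoc]
  set RS : Finset ℕ := (Finset.range M).filter (fun u =>
    u ^ 2 ≡ 4 * n + r * v ^ 2 [MOD Qz z * v ^ 2] ∧ u ^ 2 ≡ 4 * n [MOD d * v ^ 2] ∧
      u ^ 2 ≡ 4 * n + b0 * v ^ 2 [MOD m * v ^ 2]) with hRS
  have hRR : (RRm z r m b0 n v d : ℝ) = RS.card := rfl
  set U : Finset ℕ := (Finset.Icc 1 (4 * n)).filter
    (fun u => ∃ D ∈ (DM z r m b0 X T).filter (fun D => d ∣ D),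
      (u : ℤ) ^ 2 - (D : ℤ) * (v : ℤ) ^ 2 = 4 * n) with hU
  set U' : Finset ℕ := (Finset.range (⌊b⌋₊ + 1)).filter
    (fun u => a < (u : ℝ) ∧ (u : ℝ) ≤ b ∧ u % M ∈ RS) with hU'
  have hdvdQ : Qz z * v ^ 2 ∣ M := ⟨d * m, by rw [hM]; ring⟩
  have hdvdd : d * v ^ 2 ∣ M := ⟨Qz z * m, by rw [hM]; ring⟩
  have hdvdm : m * v ^ 2 ∣ M := ⟨Qz z * d, by rw [hM]; ring⟩
  have hmodiff : ∀ u : ℕ, u % M ∈ RS ↔
      (u ^ 2 ≡ 4 * n + r * v ^ 2 [MOD Qz z * v ^ 2] ∧ u ^ 2 ≡ 4 * n [MOD d * v ^ 2] ∧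
        u ^ 2 ≡ 4 * n + b0 * v ^ 2 [MOD m * v ^ 2]) := by
    intro u
    rw [hRS, Finset.mem_filter, Finset.mem_range]
    have e1 : (u % M) ^ 2 ≡ u ^ 2 [MOD Qz z * v ^ 2] :=
      ((Nat.mod_modEq u _).of_dvd hdvdQ).pow 2
    have e2 : (u % M) ^ 2 ≡ u ^ 2 [MOD d * v ^ 2] :=
      ((Nat.mod_modEq u _).of_dvd hdvdd).pow 2
    have e3 : (u % M) ^ 2 ≡ u ^ 2 [MOD m * v ^ 2] :=
      ((Nat.mod_modEq u _).of_dvd hdvdm).pow 2
    constructor
    · rintro ⟨_, h1, h2, h3⟩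
      exact ⟨e1.symm.trans h1, e2.symm.trans h2, e3.symm.trans h3⟩
    · rintro ⟨h1, h2, h3⟩
      exact ⟨Nat.mod_lt _ (by omega), e1.trans h1, e2.trans h2, e3.trans h3⟩
  -- step 1: swap the sums
  have hstep1 : ∑ D ∈ (DM z r m b0 X T).filter (fun D => d ∣ D), ∑ u ∈ Finset.Icc 1 (4 * n),
      (if ((u : ℤ) ^ 2 - (D : ℤ) * (v : ℤ) ^ 2 = 4 * n) then
        phi (Real.log (((u : ℝ) + v * √(D : ℝ)) / ((u : ℝ) - v * √(D : ℝ)))) else 0) =
      ∑ u ∈ U, HH n u := by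
    rw [Finset.sum_comm, hU, Finset.sum_filter]
    refine Finset.sum_congr rfl fun u hu => ?_
    rw [Finset.mem_Icc] at hu
    split_ifs with hex
    · obtain ⟨D, hD, h⟩ := hex
      rw [Finset.sum_eq_single_of_mem D hD]
      · rw [if_pos h, term_eq n v D u hn hu.1 h]
      · intro D' _ hne
        rw [if_neg]
        intro h'
        apply hne
        have h5 : ((D' : ℤ) - D) * (v : ℤ) ^ 2 = 0 := by linear_combination h - h'
        rcases mul_eq_zero.mp h5 with h6 | h6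
        · exact_mod_cast (sub_eq_zero.mp h6)
        · exfalso
          have : (v : ℤ) = 0 := by simpa using h6
          omega
    · refine Finset.sum_eq_zero fun D hD => ?_
      rw [if_neg]
      intro h
      exact hex ⟨D, hD, h⟩
  rw [hstep1]
  have hsub : U ⊆ U' := by
    intro u hu
    rw [hU, Finset.mem_filter, Finset.mem_Icc] at hu
    obtain ⟨⟨hu1, _⟩, D, hD, h⟩ := hu
    rw [Finset.mem_filter] at hD
    obtain ⟨⟨hD1, hD2, hD3, hD4⟩, hdD⟩ := And.intro ((hDD D).mp hD.1) hD.2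
    have hR : (u : ℝ) ^ 2 - (D : ℝ) * (v : ℝ) ^ 2 = 4 * n := by exact_mod_cast h
    have hu0 : (0 : ℝ) ≤ u := Nat.cast_nonneg _
    have hv2 : (0 : ℝ) < (v : ℝ) ^ 2 := by positivity
    have hua : a < (u : ℝ) := by
      rw [ha, Real.sqrt_lt' (by exact_mod_cast hu1)]
      nlinarith
    have hub : (u : ℝ) ≤ b := by
      rw [hb]
      apply Real.le_sqrt_of_sq_le
      nlinarith
    rw [hU', Finset.mem_filter, Finset.mem_range]
    refine ⟨Nat.lt_succ_of_le (Nat.le_floor hub), hua, hub, ?_⟩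
    rw [hmodiff]
    have h6 : u ^ 2 = 4 * n + D * v ^ 2 := by
      have : (u : ℤ) ^ 2 = 4 * n + D * (v : ℤ) ^ 2 := by linarith
      exact_mod_cast this
    rw [h6]
    have h8 : D ≡ r [MOD Qz z] := by
      rw [Nat.ModEq, hD3, Nat.mod_eq_of_lt hr]
    have h9 : D ≡ b0 [MOD m] := by
      rw [Nat.ModEq, hD4, Nat.mod_eq_of_lt hbm]
    refine ⟨Nat.ModEq.add_left _ (Nat.ModEq.mul_right' _ h8), ?_,
      Nat.ModEq.add_left _ (Nat.ModEq.mul_right' _ h9)⟩
    obtain ⟨k, hk⟩ := hdD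
    rw [Nat.ModEq, hk, show 4 * n + d * k * v ^ 2 = 4 * n + (d * v ^ 2) * k by ring,
      Nat.add_mul_mod_self_left]
  have hUU' : ∑ u ∈ U, HH n u = ∑ u ∈ U', HH n u := by
    refine Finset.sum_subset hsub ?_
    intro u hu hnu
    rw [hU', Finset.mem_filter, Finset.mem_range, hmodiff] at hu
    obtain ⟨_, hua, hub, hm1, hm2, hm3⟩ := hu
    have hu0 : (0 : ℝ) < u := lt_of_le_of_lt ha0 hua
    have hu1 : 1 ≤ u := by exact_mod_cast hu0
    have hsqa : 4 * (n : ℝ) + T * (v : ℝ) ^ 2 < (u : ℝ) ^ 2 := by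
      rw [ha, Real.sqrt_lt' hu0] at hua
      exact hua
    have hsqb : (u : ℝ) ^ 2 ≤ 4 * (n : ℝ) + ((1 + η) * T) * (v : ℝ) ^ 2 := by
      have h9 := mul_self_le_mul_self hu0.le hub
      rw [hb, Real.mul_self_sqrt (by positivity)] at h9
      nlinarith
    have hlt : 4 * n ≤ u ^ 2 := by
      have : (4 * (n : ℝ)) ≤ (u : ℝ) ^ 2 := by
        have : 0 ≤ (T : ℝ) * (v : ℝ) ^ 2 := by positivity
        linarith
      exact_mod_cast this
    obtain ⟨k, hk⟩ := (Nat.modEq_iff_dvd' hlt).mp hm2.symm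
    have hk' : u ^ 2 = 4 * n + (d * k) * v ^ 2 := by
      have : u ^ 2 = 4 * n + (d * v ^ 2 * k) := by omega
      rw [this]; ring
    have hkR : (u : ℝ) ^ 2 = 4 * n + ((d * k : ℕ) : ℝ) * (v : ℝ) ^ 2 := by exact_mod_cast hk'
    have hv2 : (0 : ℝ) < (v : ℝ) ^ 2 := by positivity
    have hex : (d * k) ∈ (DM z r m b0 X T).filter (fun D => d ∣ D) := by
      rw [Finset.mem_filter, hDD]
      refine ⟨⟨?_, ?_, ?_, ?_⟩, Dvd.intro _ rfl⟩
      · by_contra hcon
        push Not at hcon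
        have := mul_le_mul_of_nonneg_right hcon hv2.le
        linarith
      · by_contra hcon
        push Not at hcon
        have := mul_lt_mul_of_pos_right hcon hv2
        linarith
      · have h10 : 4 * n + (d * k) * v ^ 2 ≡ 4 * n + r * v ^ 2 [MOD Qz z * v ^ 2] := by
          rw [← hk']; exact hm1
        have h11 : (d * k) * v ^ 2 ≡ r * v ^ 2 [MOD Qz z * v ^ 2] := Nat.ModEq.add_left_cancel' _ h10
        have h12 : d * k ≡ r [MOD Qz z] :=
          Nat.ModEq.mul_right_cancel' (c := v ^ 2) (by positivity) h11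
        rw [Nat.ModEq, Nat.mod_eq_of_lt hr] at h12
        exact h12
      · have h10 : 4 * n + (d * k) * v ^ 2 ≡ 4 * n + b0 * v ^ 2 [MOD m * v ^ 2] := by
          rw [← hk']; exact hm3
        have h11 : (d * k) * v ^ 2 ≡ b0 * v ^ 2 [MOD m * v ^ 2] := Nat.ModEq.add_left_cancel' _ h10
        have h12 : d * k ≡ b0 [MOD m] :=
          Nat.ModEq.mul_right_cancel' (c := v ^ 2) (by positivity) h11
        rw [Nat.ModEq, Nat.mod_eq_of_lt hbm] at h12
        exact h12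
    apply HH_zero n u hn
    by_contra hcon
    push Not at hcon
    apply hnu
    rw [hU, Finset.mem_filter, Finset.mem_Icc]
    refine ⟨⟨hu1, hcon⟩, d * k, hex, ?_⟩
    have : (u : ℤ) ^ 2 = 4 * n + ((d * k : ℕ) : ℤ) * (v : ℤ) ^ 2 := by exact_mod_cast hk'
    rw [this]; ring
  rw [hUU']
  have hmap : ∀ u ∈ U', u % M ∈ RS := by
    intro u hu
    rw [hU', Finset.mem_filter] at hu
    exact hu.2.2.2
  rw [← Finset.sum_fiberwise_of_maps_to hmap]
  have hfe : ∀ c ∈ RS, U'.filter (fun u => u % M = c) = UC a b M c := by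
    intro c hc
    ext u
    rw [mem_UC, Finset.mem_filter, hU', Finset.mem_filter, Finset.mem_range]
    constructor
    · rintro ⟨⟨_, h1, h2, _⟩, h3⟩
      exact ⟨h1, h2, h3⟩
    · rintro ⟨h1, h2, h3⟩
      exact ⟨⟨Nat.lt_succ_of_le (Nat.le_floor h2), h1, h2, by rw [h3]; exact hc⟩, h3⟩
  have hI := int_eq T n v η hη hT1 hn hv
  have hII : 1 / (M : ℝ) * ∫ x in a..b, HH n x =
      om T η v n / (m * (Qz z * d)) := by
    rw [hI, hM]
    push_cast
    field_simp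
  have hfib : ∀ c ∈ RS, |(∑ u ∈ U'.filter (fun u => u % M = c), HH n (u : ℝ)) -
      om T η v n / (m * (Qz z * d))| ≤ 1 := by
    intro c hc
    rw [hfe c hc, ← hII]
    have hcm : c < M := by
      rw [hRS, Finset.mem_filter, Finset.mem_range] at hc
      exact hc.1
    have up := prog (HH n) a b hab M hm c (UC a b M c)
      (fun u hu => mem_UC.mp hu)
      (HH_anti n a b ha0) (fun x _ => phi_nonneg _) (fun x _ => phi_le_one _)
      (HH_cont n).continuousOn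
    have lo := prog_low (HH n) a b ha0 hab M hm c hcm
      (HH_anti n a b ha0) (fun x _ => phi_nonneg _) (fun x _ => phi_le_one _)
      (HH_cont n).continuousOn
    rw [abs_le]
    constructor <;> linarith
  have hfin : (∑ c ∈ RS, ∑ u ∈ U'.filter (fun u => u % M = c), HH n (u : ℝ)) -
      (RRm z r m b0 n v d : ℝ) * (om T η v n / (m * (Qz z * d))) =
      ∑ c ∈ RS, ((∑ u ∈ U'.filter (fun u => u % M = c), HH n (u : ℝ)) -
        om T η v n / (m * (Qz z * d))) := by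
    rw [Finset.sum_sub_distrib, Finset.sum_const, nsmul_eq_mul, hRR]
  rw [hfin]
  refine (Finset.abs_sum_le_sum_abs _ _).trans ?_
  refine (Finset.sum_le_sum hfib).trans ?_
  rw [Finset.sum_const, nsmul_eq_mul, mul_one, hRR]

end Pool.Agent.H52.AP.T1a
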