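import Pool.Agent.H52.AP.Stubs
import Pool.Agent.H52.W.CG2.TA
import Pool.Agent.H52.W.CG2.JP
import Pool.Agent.H52.W.CG2.FJ

/-!
# AP-TX: the sum of the new character is small (helper21)
-/

set_option autoImplicit false

namespace Pool.Agent.H52.AP.TX

variable [Pool.Agent.H52.W.Lam]

open Finset Filter NumberField Pool.Agent.H38R2.CG Pool.Agent.H52.W Pool.Agent.H52.W.CG2
  Pool.Agent.H52.W.SH Pool.Agent.H52.AP
open scoped Classical

omit [Pool.Agent.H52.W.Lam] in
/-- the sum of `w^(-1/2)` over the integers composed of the primes dividing `Q` -/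
lemma tailq (Q : ℕ) (hQ : 0 < Q) : ∃ C : ℝ, 0 < C ∧ ∀ T : Finset ℕ,
    (∀ w ∈ T, 1 ≤ w ∧ ∀ p : ℕ, p.Prime → p ∣ w → p ∣ Q) → ∑ w ∈ T, (√(w : ℝ))⁻¹ ≤ C := by
  let f : ℕ →* ℝ :=
    { toFun := fun n => (√(n : ℝ))⁻¹
      map_one' := by simp
      map_mul' := by intro a b; push_cast; rw [Real.sqrt_mul (Nat.cast_nonneg a), mul_inv] }
  have hs := (EulerProduct.summable_and_hasSum_smoothNumbers_prod_primesBelow_geometric
    (f := f) (fun {p} hp => by
      show ‖(√(p : ℝ))⁻¹‖ < 1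
      have h1 : (1 : ℝ) < √(p : ℝ) := by
        rw [Real.lt_sqrt (by norm_num)]
        have : (1 : ℝ) < p := by exact_mod_cast hp.one_lt
        linarith
      rw [norm_inv, Real.norm_of_nonneg (Real.sqrt_nonneg _)]
      exact inv_lt_one_of_one_lt₀ h1) (Q + 1)).1
  have hs' : Summable ((Nat.smoothNumbers (Q + 1)).indicator fun n : ℕ => ‖f n‖) :=
    summable_subtype_iff_indicator.1 hs
  have hnn : ∀ n, 0 ≤ (Nat.smoothNumbers (Q + 1)).indicator (fun n : ℕ => ‖f n‖) n :=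
    fun n => Set.indicator_nonneg (fun _ _ => norm_nonneg _) n
  have h0 : 0 ≤ ∑' n, (Nat.smoothNumbers (Q + 1)).indicator (fun n : ℕ => ‖f n‖) n :=
    tsum_nonneg hnn
  refine ⟨(∑' n, (Nat.smoothNumbers (Q + 1)).indicator (fun n : ℕ => ‖f n‖) n) + 1,
    by linarith, fun T hT => ?_⟩
  have h := hs'.sum_le_tsum T (fun n _ => hnn n)
  have he : ∑ w ∈ T, (Nat.smoothNumbers (Q + 1)).indicator (fun n : ℕ => ‖f n‖) w =
      ∑ w ∈ T, (√(w : ℝ))⁻¹ := by
    refine Finset.sum_congr rfl fun w hw => ?_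
    have hwm : w ∈ Nat.smoothNumbers (Q + 1) := by
      rw [Nat.mem_smoothNumbers']
      intro p hp hpw
      have := Nat.le_of_dvd hQ ((hT w hw).2 p hp hpw)
      omega
    rw [Set.indicator_of_mem hwm]
    show ‖(√(w : ℝ))⁻¹‖ = (√(w : ℝ))⁻¹
    rw [norm_inv, Real.norm_of_nonneg (Real.sqrt_nonneg _)]
  rw [he] at h
  linarith

omit [Pool.Agent.H52.W.Lam] in
lemma growth (A ε δ : ℝ) (hA : 0 ≤ A) (hε : 0 < ε) (hδ : 0 < δ) (N : ℕ) :
    ∀ᶠ X : ℕ in atTop, A * (1 + Real.log X) ^ N ≤ ε * (X : ℝ) ^ δ := by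
  have h1 := (isLittleO_log_rpow_rpow_atTop (N : ℝ) hδ).bound
    (show 0 < ε / (A * 2 ^ N + 1) by positivity)
  have h2 := tendsto_natCast_atTop_atTop (R := ℝ) |>.eventually h1
  filter_upwards [h2, eventually_ge_atTop 3] with X hX h3
  have hX3 : (3 : ℝ) ≤ X := by exact_mod_cast h3
  have hlog : 1 ≤ Real.log X := by
    rw [Real.le_log_iff_exp_le (by linarith)]
    have := Real.exp_one_lt_d9
    linarith
  rw [Real.rpow_natCast, Real.norm_of_nonneg (by positivity),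
    Real.norm_of_nonneg (by positivity)] at hX
  have h4 : (1 + Real.log X) ^ N ≤ 2 ^ N * (Real.log X) ^ N := by
    rw [← mul_pow]
    exact pow_le_pow_left₀ (by linarith) (by linarith) N
  have h5 : A * 2 ^ N * (ε / (A * 2 ^ N + 1)) ≤ ε := by
    rw [mul_div_assoc', div_le_iff₀ (by positivity)]
    nlinarith [mul_nonneg hA (pow_nonneg (zero_le_two (α := ℝ)) N)]
  have hXd : 0 ≤ (X : ℝ) ^ δ := by positivity
  calc A * (1 + Real.log X) ^ N ≤ A * (2 ^ N * (Real.log X) ^ N) :=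
        mul_le_mul_of_nonneg_left h4 hA
    _ = A * 2 ^ N * (Real.log X) ^ N := by ring
    _ ≤ A * 2 ^ N * (ε / (A * 2 ^ N + 1) * (X : ℝ) ^ δ) :=
        mul_le_mul_of_nonneg_left hX (by positivity)
    _ = (A * 2 ^ N * (ε / (A * 2 ^ N + 1))) * (X : ℝ) ^ δ := by ring
    _ ≤ ε * (X : ℝ) ^ δ := mul_le_mul_of_nonneg_right h5 hXd

omit [Pool.Agent.H52.W.Lam] in
lemma jac_le (m : ℤ) (f : ℕ) : |((jacobiSym m f : ℤ) : ℝ)| ≤ 1 := by
  rcases jacobiSym.trichotomy m f with h | h | h <;> simp [h]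

omit [Pool.Agent.H52.W.Lam] in
lemma kM_le (m b n v : ℕ) : |kM m b n v - 1| ≤ 1 := by
  unfold kM
  split_ifs
  · simp
  · rw [add_sub_cancel_left]; exact jac_le _ _

omit [Pool.Agent.H52.W.Lam] in
lemma prodS_empty : prodS (∅ : Finset ℕ) = 1 := by unfold prodS; simp

omit [Pool.Agent.H52.W.Lam] in
lemma tau_empty (v : ℕ) : tau ∅ v = 1 := by unfold tau; simp

open TAh in
theorem main : P2_SZ → P2_NB → P_TB3c → P2_JX → P2_KB → P2_HS → P2_TC0 → A_BF → A_TX := by
  intro _ _ hB3 hJX hKB hHS hTC0 hBF a ha κ hκ z r hz hr C0 hC0 l ε hl hε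
  have hQpos : (0 : ℝ) < Qz z := by exact_mod_cast Qz_pos z
  set K : ℝ := (Qz z : ℝ) * 8 * 2 ^ z with hK
  have hKpos : 0 < K := by positivity
  obtain ⟨C, hCpos, hC⟩ := tailq (Qz z) (Qz_pos z)
  obtain ⟨XB, hXB⟩ := hBF a ha κ hκ z hz
  obtain ⟨XY, hXY⟩ := ((yA_tendsto a (by linarith)).eventually_ge_atTop z).exists_forall_of_atTop
  obtain ⟨XG, hXG⟩ := (growth (K * (Qz z : ℝ) ^ 2) ε (κ / 8) (by positivity) hε (by positivity)
    (2 * C0 + 1)).exists_forall_of_atTop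
  obtain ⟨XH, hXH⟩ := (growth (K * C) ε (κ / 64) (by positivity) hε (by positivity)
    (2 * C0)).exists_forall_of_atTop
  refine ⟨max (max (max XB XY) (max XG XH)) 3,
    fun X hX m b T hRM ρ hρ V F I t hF hF0 hI hV => ?_⟩
  have hX1 : XB ≤ X := le_trans (le_trans (le_max_left _ _) (le_max_left _ _))
    (le_trans (le_max_left _ _) hX)
  have hX2 : XY ≤ X := le_trans (le_trans (le_max_right _ _) (le_max_left _ _))
    (le_trans (le_max_left _ _) hX)
  have hX3 : XG ≤ X := le_trans (le_trans (le_max_left _ _) (le_max_right _ _))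
    (le_trans (le_max_left _ _) hX)
  have hX4 : XH ≤ X := le_trans (le_trans (le_max_right _ _) (le_max_right _ _))
    (le_trans (le_max_left _ _) hX)
  have hX5 : 3 ≤ X := le_trans (le_max_right _ _) hX
  have hy : z ≤ yA a X := hXY X hX2
  have hXr : (3 : ℝ) ≤ X := by exact_mod_cast hX5
  have hX0 : (0 : ℝ) < X := by linarith
  have hPP := PA_ndvd (a := a) hz hy
  -- signs
  have hI0 : 0 ≤ I := by simpa using hI 0 le_rfl
  have hlog : 0 < Real.log X := Real.log_pos (by linarith)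
  have hGG : 0 ≤ GG X ρ := le_trans (inv_nonneg.2 (pow_nonneg hlog.le _)) hρ.low
  have hfej := T2_FJ.2.1
  have hSF : 0 ≤ SF a X (kA a X) ∅ l t :=
    Finset.sum_nonneg fun s _ => Finset.sum_nonneg fun t' _ => hfej _
  have hN2 : 0 ≤ (NA a X) ^ 2 / Real.log X := div_nonneg (sq_nonneg _) hlog.le
  -- the terms
  set G : ℕ → ℝ := fun v => ∑ s ∈ SA a X, ∑ t' ∈ SA a X,
    (rhoQ z r (prodS s * prodS t') v : ℝ) * JJ z X ρ ∅ (prodS s * prodS t') v *
      fej (l * (Real.log (prodS s * prodS t' : ℕ) - t)) *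
      (kM m b (prodS s * prodS t') v - 1) with hG
  have hUJ0 : ∀ v, 0 ≤ UJ a z X (kA a X) ρ ∅ F l t v := by
    intro v
    unfold UJ
    refine mul_nonneg (hF0 _) (Finset.sum_nonneg fun s _ => Finset.sum_nonneg fun t' _ => ?_)
    exact mul_nonneg (T2_JP z X (PA a X) (cc a) C0 ρ _ _ _ hρ) (hfej _)
  -- trivial bound
  have hTle : ∀ v ∈ Finset.Icc 1 V, F v * |G v| ≤ K * UJ a z X (kA a X) ρ ∅ F l t v := by
    intro v hv
    rw [Finset.mem_Icc] at hv
    unfold UJ
    rw [← mul_assoc, mul_comm K, mul_assoc]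
    refine mul_le_mul_of_nonneg_left ?_ (hF0 _)
    rw [hG]
    refine (Finset.abs_sum_le_sum_abs _ _).trans ?_
    rw [Finset.mul_sum]
    refine Finset.sum_le_sum fun s hs => ?_
    refine (Finset.abs_sum_le_sum_abs _ _).trans ?_
    rw [Finset.mul_sum]
    refine Finset.sum_le_sum fun t' ht' => ?_
    have hcop : (prodS s * prodS t').Coprime (Qz z) :=
      Nat.Coprime.mul_left (prodS_coprime hz hy hs) (prodS_coprime hz hy ht')
    have h1 : (rhoQ z r (prodS s * prodS t') v : ℝ) ≤ K := by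
      have := hB3 z r (prodS s * prodS t') v hv.1 hcop
      rw [hK]; exact_mod_cast this
    have hJ0 := T2_JP z X (PA a X) (cc a) C0 ρ ∅ (prodS s * prodS t') v hρ
    rw [prodS_empty, one_pow, one_mul, abs_mul, abs_mul, abs_mul, abs_of_nonneg hJ0,
      abs_of_nonneg (hfej _), Nat.abs_cast, ← mul_assoc]
    have h2 : 0 ≤ (rhoQ z r (prodS s * prodS t') v : ℝ) * JJ z X ρ ∅ (prodS s * prodS t') v *
        fej (l * (Real.log (prodS s * prodS t' : ℕ) - t)) :=
      mul_nonneg (mul_nonneg (Nat.cast_nonneg _) hJ0) (hfej _)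
    calc (rhoQ z r (prodS s * prodS t') v : ℝ) * JJ z X ρ ∅ (prodS s * prodS t') v *
          fej (l * (Real.log (prodS s * prodS t' : ℕ) - t)) *
          |kM m b (prodS s * prodS t') v - 1| ≤
          (rhoQ z r (prodS s * prodS t') v : ℝ) * JJ z X ρ ∅ (prodS s * prodS t') v *
          fej (l * (Real.log (prodS s * prodS t' : ℕ) - t)) * 1 :=
          mul_le_mul_of_nonneg_left (kM_le _ _ _ _) h2
      _ = (rhoQ z r (prodS s * prodS t') v : ℝ) * JJ z X ρ ∅ (prodS s * prodS t') v *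
          fej (l * (Real.log (prodS s * prodS t' : ℕ) - t)) := mul_one _
      _ ≤ _ := mul_le_mul_of_nonneg_right (mul_le_mul_of_nonneg_right h1 hJ0) (hfej _)
  -- the set of the f
  set Ff := (Finset.Icc 1 X).filter
      (fun f => Squarefree f ∧ f.Coprime (Qz z) ∧ ∀ p ∈ (∅ : Finset ℕ), ¬ p ∣ f) with hFf
  set B : ℝ := K * (Qz z : ℝ) ^ 2 * (X : ℝ) ^ (-(κ / 8)) * (NA a X) ^ 2 with hB
  have hB0 : 0 ≤ B := by positivity
  -- bound for one v
  have hsm : ∀ v ∈ (Finset.Icc 1 V).filter (fun v => (qpart z v : ℝ) ≤ (X : ℝ) ^ (κ / 32)),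
      F v * |G v| ≤ ∑ f ∈ Ff, B * (F v * (tau ∅ v * |kap X ρ f v|)) := by
    intro v hv
    rw [Finset.mem_filter, Finset.mem_Icc] at hv
    obtain ⟨hv1, hvq⟩ := hv
    by_cases hmv : m ∣ v
    · have : G v = 0 := by
        rw [hG]
        refine Finset.sum_eq_zero fun s _ => Finset.sum_eq_zero fun t' _ => ?_
        unfold kM
        rw [if_pos hmv, sub_self, mul_zero]
      rw [this, abs_zero, mul_zero]
      refine Finset.sum_nonneg fun f _ => mul_nonneg hB0 (mul_nonneg (hF0 _) ?_)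
      rw [tau_empty, one_mul]
      exact abs_nonneg _
    · have hvX : (v : ℝ) * (X : ℝ) ^ (cc a) ≤ X := by
        have hvV : (v : ℝ) ≤ V := by exact_mod_cast hv1.2
        calc (v : ℝ) * (X : ℝ) ^ (cc a) ≤ (X : ℝ) ^ (1 - cc a) * (X : ℝ) ^ (cc a) :=
              mul_le_mul_of_nonneg_right (hvV.trans hV) (by positivity)
          _ = X := by
              rw [← Real.rpow_add hX0, sub_add_cancel, Real.rpow_one]
      have hJ : ∀ n : ℕ, JJ z X ρ ∅ n v =
          ∑ f ∈ Ff, ((jacobiSym (n : ℤ) f : ℤ) : ℝ) * kap X ρ f v := fun n => by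
        rw [hJX z X (PA a X) (cc a) C0 ρ ∅ n v hρ (Finset.empty_subset _) hPP hv1.1 hvX,
          tau_empty, one_mul]
      have hGv : G v = ∑ f ∈ Ff, kap X ρ f v *
          (∑ s ∈ SA a X, ∑ t' ∈ SA a X, (rhoQ z r (prodS s * prodS t') v : ℝ) *
            ((jacobiSym ((prodS s * prodS t' : ℕ) : ℤ) f : ℤ) : ℝ) *
            fej (l * (Real.log (prodS s * prodS t' : ℕ) - t)) *
            ((jacobiSym ((4 * (prodS s * prodS t') + b * v ^ 2 : ℕ) : ℤ) m : ℤ) : ℝ)) := by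
        rw [hG]
        simp only
        have h1 : ∀ s ∈ SA a X, ∀ t' ∈ SA a X,
            (rhoQ z r (prodS s * prodS t') v : ℝ) * JJ z X ρ ∅ (prodS s * prodS t') v *
              fej (l * (Real.log (prodS s * prodS t' : ℕ) - t)) *
              (kM m b (prodS s * prodS t') v - 1) =
            ∑ f ∈ Ff, kap X ρ f v * ((rhoQ z r (prodS s * prodS t') v : ℝ) *
            ((jacobiSym ((prodS s * prodS t' : ℕ) : ℤ) f : ℤ) : ℝ) *
            fej (l * (Real.log (prodS s * prodS t' : ℕ) - t)) *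
            ((jacobiSym ((4 * (prodS s * prodS t') + b * v ^ 2 : ℕ) : ℤ) m : ℤ) : ℝ)) := by
          intro s _ t' _
          rw [hJ]
          unfold kM
          rw [if_neg hmv, add_sub_cancel_left, Finset.mul_sum, Finset.sum_mul, Finset.sum_mul]
          refine Finset.sum_congr rfl fun f _ => ?_
          ring
        rw [Finset.sum_congr rfl fun s hs => Finset.sum_congr rfl fun t' ht' => h1 s hs t' ht']
        rw [Finset.sum_congr rfl fun s _ => Finset.sum_comm, Finset.sum_comm]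
        refine Finset.sum_congr rfl fun f _ => ?_
        rw [Finset.mul_sum]
        refine Finset.sum_congr rfl fun s _ => ?_
        rw [Finset.mul_sum]
      have hw4 : ((Qz z * (qpart z v) ^ 2 : ℕ) : ℝ) ^ 2 ≤ (Qz z : ℝ) ^ 2 * (X : ℝ) ^ (κ / 8) := by
        push_cast
        rw [mul_pow]
        refine mul_le_mul_of_nonneg_left ?_ (by positivity)
        have h2 : ((qpart z v : ℝ) ^ 2) ^ 2 ≤ (((X : ℝ) ^ (κ / 32)) ^ 2) ^ 2 :=
          pow_le_pow_left₀ (by positivity) (pow_le_pow_left₀ (by positivity) hvq 2) 2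
        refine h2.trans (le_of_eq ?_)
        rw [← pow_mul, ← Real.rpow_natCast, ← Real.rpow_mul hX0.le]
        congr 1
        push_cast
        ring
      have hBf : ∀ f : ℕ, |∑ s ∈ SA a X, ∑ t' ∈ SA a X,
            (rhoQ z r (prodS s * prodS t') v : ℝ) *
            ((jacobiSym ((prodS s * prodS t' : ℕ) : ℤ) f : ℤ) : ℝ) *
            fej (l * (Real.log (prodS s * prodS t' : ℕ) - t)) *
            ((jacobiSym ((4 * (prodS s * prodS t') + b * v ^ 2 : ℕ) : ℤ) m : ℤ) : ℝ)| ≤ B := by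
        intro f
        refine (hXB X hX1 m b T hRM r v f l t hv1.1 hmv).trans ?_
        rw [← hK]
        calc K * ((Qz z * (qpart z v) ^ 2 : ℕ) : ℝ) ^ 2 *
              ((X : ℝ) ^ (-(κ / 4)) * (NA a X) ^ 2) ≤
              K * ((Qz z : ℝ) ^ 2 * (X : ℝ) ^ (κ / 8)) *
              ((X : ℝ) ^ (-(κ / 4)) * (NA a X) ^ 2) := by
              refine mul_le_mul_of_nonneg_right ?_ (by positivity)
              exact mul_le_mul_of_nonneg_left hw4 hKpos.le
          _ = K * (Qz z : ℝ) ^ 2 * ((X : ℝ) ^ (κ / 8) * (X : ℝ) ^ (-(κ / 4))) *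
              (NA a X) ^ 2 := by ring
          _ = B := by
              rw [← Real.rpow_add hX0, hB]
              congr 3
              ring
      rw [hGv]
      have h3 : |∑ f ∈ Ff, kap X ρ f v *
          (∑ s ∈ SA a X, ∑ t' ∈ SA a X, (rhoQ z r (prodS s * prodS t') v : ℝ) *
            ((jacobiSym ((prodS s * prodS t' : ℕ) : ℤ) f : ℤ) : ℝ) *
            fej (l * (Real.log (prodS s * prodS t' : ℕ) - t)) *
            ((jacobiSym ((4 * (prodS s * prodS t') + b * v ^ 2 : ℕ) : ℤ) m : ℤ) : ℝ))| ≤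
          ∑ f ∈ Ff, |kap X ρ f v| * B := by
        refine (Finset.abs_sum_le_sum_abs _ _).trans (Finset.sum_le_sum fun f _ => ?_)
        rw [abs_mul]
        exact mul_le_mul_of_nonneg_left (hBf f) (abs_nonneg _)
      refine (mul_le_mul_of_nonneg_left h3 (hF0 v)).trans (le_of_eq ?_)
      rw [Finset.mul_sum]
      refine Finset.sum_congr rfl fun f _ => ?_
      rw [tau_empty]
      ring
  -- small part
  have hsmall : ∑ v ∈ (Finset.Icc 1 V).filter (fun v => (qpart z v : ℝ) ≤ (X : ℝ) ^ (κ / 32)),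
      F v * |G v| ≤ ε * GG X ρ * I * ((NA a X) ^ 2 / Real.log X) := by
    refine (Finset.sum_le_sum hsm).trans ?_
    rw [Finset.sum_comm]
    have h3 : ∀ f ∈ Ff, ∑ v ∈ (Finset.Icc 1 V).filter
          (fun v => (qpart z v : ℝ) ≤ (X : ℝ) ^ (κ / 32)),
        B * (F v * (tau ∅ v * |kap X ρ f v|)) ≤
        (B * GG X ρ * I) * (((2 * C0 : ℕ) : ℝ) ^ f.primeFactors.card / f) := by
      intro f hf
      rw [hFf, Finset.mem_filter, Finset.mem_Icc] at hf
      obtain ⟨⟨hf1, _⟩, hfs, hfc, hfp⟩ := hf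
      have hk := hKB z X V f 1 (PA a X) (cc a) C0 ρ ∅ F I hρ hC0 le_rfl hf1 hfs
        (Nat.coprime_one_left f) (by simp) hF hF0 hI
      rw [Finset.card_empty, pow_zero, one_mul, Nat.cast_one, div_one] at hk
      rw [← Finset.mul_sum]
      have hsub : ∑ v ∈ (Finset.Icc 1 V).filter
          (fun v => (qpart z v : ℝ) ≤ (X : ℝ) ^ (κ / 32)), F v * (tau ∅ v * |kap X ρ f v|) ≤
          ∑ v ∈ (Finset.Icc 1 V).filter (fun v => 1 ∣ v), F v * (tau ∅ v * |kap X ρ f v|) := by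
        refine Finset.sum_le_sum_of_subset_of_nonneg ?_ fun v _ _ => ?_
        · intro v hv
          rw [Finset.mem_filter] at hv ⊢
          exact ⟨hv.1, one_dvd _⟩
        · rw [tau_empty, one_mul]
          exact mul_nonneg (hF0 _) (abs_nonneg _)
      refine (mul_le_mul_of_nonneg_left (hsub.trans hk) hB0).trans (le_of_eq ?_)
      push_cast
      ring
    refine (Finset.sum_le_sum h3).trans ?_
    rw [← Finset.mul_sum]
    have h4 : ∑ f ∈ Ff, ((2 * C0 : ℕ) : ℝ) ^ f.primeFactors.card / f ≤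
        (1 + Real.log X) ^ (2 * C0) := by
      refine le_trans ?_ (hHS (2 * C0) X (by omega))
      apply Finset.sum_le_sum_of_subset_of_nonneg
      · intro f hf
        rw [hFf, Finset.mem_filter] at hf
        rw [Finset.mem_filter]
        exact ⟨hf.1, hf.2.1⟩
      · intro f _ _
        positivity
    refine (mul_le_mul_of_nonneg_left h4 (mul_nonneg (mul_nonneg hB0 hGG) hI0)).trans ?_
    have h5 := hXG X hX3
    have h6 : K * (Qz z : ℝ) ^ 2 * (X : ℝ) ^ (-(κ / 8)) * (1 + Real.log X) ^ (2 * C0) ≤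
        ε / Real.log X := by
      rw [le_div_iff₀ hlog]
      have h7 : K * (Qz z : ℝ) ^ 2 * ((1 + Real.log X) ^ (2 * C0) * Real.log X) ≤
          ε * (X : ℝ) ^ (κ / 8) := by
        refine le_trans (mul_le_mul_of_nonneg_left ?_ (by positivity)) h5
        rw [pow_succ]
        exact mul_le_mul_of_nonneg_left (by linarith) (by positivity)
      calc K * (Qz z : ℝ) ^ 2 * (X : ℝ) ^ (-(κ / 8)) * (1 + Real.log X) ^ (2 * C0) * Real.log X
          = (K * (Qz z : ℝ) ^ 2 * ((1 + Real.log X) ^ (2 * C0) * Real.log X)) *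
            (X : ℝ) ^ (-(κ / 8)) := by ring
        _ ≤ (ε * (X : ℝ) ^ (κ / 8)) * (X : ℝ) ^ (-(κ / 8)) :=
            mul_le_mul_of_nonneg_right h7 (by positivity)
        _ = ε := by
            rw [mul_assoc, ← Real.rpow_add hX0, add_neg_cancel, Real.rpow_zero, mul_one]
    calc B * GG X ρ * I * (1 + Real.log X) ^ (2 * C0) =
          (K * (Qz z : ℝ) ^ 2 * (X : ℝ) ^ (-(κ / 8)) * (1 + Real.log X) ^ (2 * C0)) *
          (GG X ρ * I * (NA a X) ^ 2) := by rw [hB]; ring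
      _ ≤ (ε / Real.log X) * (GG X ρ * I * (NA a X) ^ 2) :=
          mul_le_mul_of_nonneg_right h6 (mul_nonneg (mul_nonneg hGG hI0) (sq_nonneg _))
      _ = _ := by ring
  -- large part
  have hlarge : ∑ v ∈ (Finset.Icc 1 V).filter
      (fun v => ¬ (qpart z v : ℝ) ≤ (X : ℝ) ^ (κ / 32)), F v * |G v| ≤
      ε * GG X ρ * I * SF a X (kA a X) ∅ l t := by
    have h1 : ∑ v ∈ (Finset.Icc 1 V).filter (fun v => ¬ (qpart z v : ℝ) ≤ (X : ℝ) ^ (κ / 32)),
        F v * |G v| ≤ ∑ v ∈ (Finset.Icc 1 V).filter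
          (fun v => ¬ (qpart z v : ℝ) ≤ (X : ℝ) ^ (κ / 32)),
          K * UJ a z X (kA a X) ρ ∅ F l t v :=
      Finset.sum_le_sum fun v hv => hTle v (Finset.mem_filter.1 hv).1
    refine h1.trans ?_
    set Tt : Finset ℕ := ((Finset.Icc 1 V).filter
      (fun v => ¬ (qpart z v : ℝ) ≤ (X : ℝ) ^ (κ / 32))).image (qpart z) with hT
    have hTprop : ∀ w ∈ Tt, (X : ℝ) ^ (κ / 32) < w ∧ 1 ≤ w ∧
        ∀ p : ℕ, p.Prime → p ∣ w → p ∣ Qz z := by
      intro w hw
      rw [hT, Finset.mem_image] at hw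
      obtain ⟨v, hv, rfl⟩ := hw
      rw [Finset.mem_filter] at hv
      exact ⟨not_le.1 hv.2, qpart_pos z v, fun p hp h => prime_dvd_qpart hp h⟩
    rw [← Finset.sum_fiberwise_of_maps_to (t := Tt) (g := qpart z)
      (fun v hv => Finset.mem_image_of_mem _ hv)]
    set Mm : ℝ := K * GG X ρ * I * ((1 + Real.log X) ^ (2 * C0) * SF a X (kA a X) ∅ l t) with hMm
    have hMm0 : 0 ≤ Mm := mul_nonneg (mul_nonneg (mul_nonneg hKpos.le hGG) hI0)
      (mul_nonneg (by positivity) hSF)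
    have h2 : ∀ w ∈ Tt, ∑ v ∈ ((Finset.Icc 1 V).filter
        (fun v => ¬ (qpart z v : ℝ) ≤ (X : ℝ) ^ (κ / 32))).filter
        (fun v => qpart z v = w), K * UJ a z X (kA a X) ρ ∅ F l t v ≤
        Mm * (X : ℝ) ^ (-(κ / 64)) * (√(w : ℝ))⁻¹ := by
      intro w hw
      obtain ⟨hwX, hwpos, hwQ⟩ := hTprop w hw
      have hsub : ((Finset.Icc 1 V).filter
          (fun v => ¬ (qpart z v : ℝ) ≤ (X : ℝ) ^ (κ / 32))).filter
          (fun v => qpart z v = w) ⊆ (Finset.Icc 1 V).filter (fun v => w ∣ v) := by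
        intro v hv
        rw [Finset.mem_filter, Finset.mem_filter] at hv
        rw [Finset.mem_filter]
        refine ⟨hv.1.1, ?_⟩
        rw [← hv.2]
        exact qpart_dvd z v (Finset.mem_Icc.1 hv.1.1).1
      have h3 := hTC0 a ha z X hX5 C0 hC0 ρ hρ (fun p hp => (hPP p hp).2) ∅ (kA a X) w V F I l t
        (Finset.empty_subset _) hwpos hwQ hF hF0 hI hl hV
      rw [Finset.card_empty, pow_zero, one_mul] at h3
      have hw0 : (0 : ℝ) < w := by exact_mod_cast hwpos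
      have hsw : 0 < √(w : ℝ) := Real.sqrt_pos.2 hw0
      have h64 : (X : ℝ) ^ (κ / 64) ≤ √(w : ℝ) := by
        rw [Real.le_sqrt' (by positivity), ← Real.rpow_natCast, ← Real.rpow_mul hX0.le]
        refine le_trans (le_of_eq ?_) hwX.le
        congr 1
        push_cast
        ring
      have h65 : 1 / (w : ℝ) ≤ (X : ℝ) ^ (-(κ / 64)) * (√(w : ℝ))⁻¹ := by
        have e : (w : ℝ) = √(w : ℝ) * √(w : ℝ) := (Real.mul_self_sqrt hw0.le).symm
        have hinv : (√(w : ℝ))⁻¹ ≤ (X : ℝ) ^ (-(κ / 64)) := by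
          rw [Real.rpow_neg hX0.le]
          exact inv_anti₀ (by positivity) h64
        calc 1 / (w : ℝ) = (√(w : ℝ))⁻¹ * (√(w : ℝ))⁻¹ := by
              rw [← mul_inv, ← e, one_div]
          _ ≤ _ := mul_le_mul_of_nonneg_right hinv (by positivity)
      calc ∑ v ∈ ((Finset.Icc 1 V).filter
            (fun v => ¬ (qpart z v : ℝ) ≤ (X : ℝ) ^ (κ / 32))).filter
            (fun v => qpart z v = w), K * UJ a z X (kA a X) ρ ∅ F l t v ≤
            ∑ v ∈ (Finset.Icc 1 V).filter (fun v => w ∣ v), K * UJ a z X (kA a X) ρ ∅ F l t v :=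
            Finset.sum_le_sum_of_subset_of_nonneg hsub
              fun v _ _ => mul_nonneg hKpos.le (hUJ0 v)
        _ = K * ∑ v ∈ (Finset.Icc 1 V).filter (fun v => w ∣ v), UJ a z X (kA a X) ρ ∅ F l t v := by
            rw [Finset.mul_sum]
        _ ≤ K * (GG X ρ * (I / w) * (1 + Real.log X) ^ (2 * C0) * SF a X (kA a X) ∅ l t) :=
            mul_le_mul_of_nonneg_left h3 hKpos.le
        _ = Mm * (1 / (w : ℝ)) := by rw [hMm]; ring
        _ ≤ Mm * ((X : ℝ) ^ (-(κ / 64)) * (√(w : ℝ))⁻¹) := mul_le_mul_of_nonneg_left h65 hMm0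
        _ = _ := by ring
    refine (Finset.sum_le_sum h2).trans ?_
    rw [← Finset.mul_sum]
    have h4 := hC Tt fun w hw => ⟨(hTprop w hw).2.1, (hTprop w hw).2.2⟩
    have h5 : 0 ≤ Mm * (X : ℝ) ^ (-(κ / 64)) := mul_nonneg hMm0 (by positivity)
    refine (mul_le_mul_of_nonneg_left h4 h5).trans ?_
    have h6 := hXH X hX4
    have h7 : K * C * (1 + Real.log X) ^ (2 * C0) * (X : ℝ) ^ (-(κ / 64)) ≤ ε := by
      calc K * C * (1 + Real.log X) ^ (2 * C0) * (X : ℝ) ^ (-(κ / 64)) ≤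
            (ε * (X : ℝ) ^ (κ / 64)) * (X : ℝ) ^ (-(κ / 64)) :=
            mul_le_mul_of_nonneg_right h6 (by positivity)
        _ = ε := by
            rw [mul_assoc, ← Real.rpow_add hX0, add_neg_cancel, Real.rpow_zero, mul_one]
    calc Mm * (X : ℝ) ^ (-(κ / 64)) * C =
          (K * C * (1 + Real.log X) ^ (2 * C0) * (X : ℝ) ^ (-(κ / 64))) *
          (GG X ρ * I * SF a X (kA a X) ∅ l t) := by rw [hMm]; ring
      _ ≤ ε * (GG X ρ * I * SF a X (kA a X) ∅ l t) :=
          mul_le_mul_of_nonneg_right h7 (mul_nonneg (mul_nonneg hGG hI0) hSF)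
      _ = _ := by ring
  -- conclusion
  have habs : |∑ v ∈ Finset.Icc 1 V, F v * G v| ≤ ∑ v ∈ Finset.Icc 1 V, F v * |G v| := by
    refine (Finset.abs_sum_le_sum_abs _ _).trans (le_of_eq ?_)
    refine Finset.sum_congr rfl fun v _ => ?_
    rw [abs_mul, abs_of_nonneg (hF0 v)]
  have hsplit : ∑ v ∈ Finset.Icc 1 V, F v * |G v| =
      ∑ v ∈ (Finset.Icc 1 V).filter (fun v => (qpart z v : ℝ) ≤ (X : ℝ) ^ (κ / 32)),
        F v * |G v| +
      ∑ v ∈ (Finset.Icc 1 V).filter (fun v => ¬ (qpart z v : ℝ) ≤ (X : ℝ) ^ (κ / 32)),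
        F v * |G v| :=
    (Finset.sum_filter_add_sum_filter_not _ _ _).symm
  show |∑ v ∈ Finset.Icc 1 V, F v * G v| ≤ _
  refine habs.trans ?_
  rw [hsplit]
  refine (add_le_add hsmall hlarge).trans (le_of_eq ?_)
  ring

end Pool.Agent.H52.AP.TX
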