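import Pool.Agent.H52.AP.Stubs
import Pool.Agent.H52.W.SH.V0

/-! AP-V0 (helper63) -/

set_option autoImplicit false

namespace Pool.Agent.H52.AP.V0

variable [Pool.Agent.H52.W.Lam]

open Finset Filter NumberField Pool.Agent.H38R2.CG Pool.Agent.H52.W Pool.Agent.H52.W.CG2
  Pool.Agent.H52.W.SH
open scoped Classical

theorem one_d (z r m b X T d e : ℕ) (hr : r < Qz z) (hm : m.Prime) (hmQ : ¬ m ∣ Qz z) (hbm : b < m)
    (hd : 1 ≤ d) (he : 1 ≤ e) (hdc : d.Coprime (Qz z)) (hec : e.Coprime (Qz z)) (hmd : ¬ m ∣ d)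
    (hme : ¬ m ∣ e) :
    |((((DM z r m b X T).filter (fun D => e ∣ D)).filter (fun D => d ∣ D)).card : ℝ) -
      X / Qz z * (1 / (Nat.lcm d e : ℝ))| ≤ 2 := by
  set L := Nat.lcm d e with hL
  have hL1 : 0 < L := Nat.lcm_pos hd he
  have hQ : 0 < Qz z := by omega
  have hcop : (Qz z).Coprime L := by
    rw [hL]
    exact (Nat.Coprime.coprime_dvd_left (Nat.lcm_dvd_mul d e)
      (Nat.Coprime.mul_left hdc hec)).symm
  have hmL : ¬ m ∣ L := by
    intro h
    rcases hm.dvd_mul.1 (h.trans (Nat.lcm_dvd_mul d e)) with h1 | h1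
    · exact hmd h1
    · exact hme h1
  have hcop2 : (Qz z * L).Coprime m :=
    Nat.Coprime.mul_left ((hm.coprime_iff_not_dvd.2 hmQ).symm) ((hm.coprime_iff_not_dvd.2 hmL).symm)
  set v0 := (Nat.chineseRemainder hcop r 0 : ℕ) with hv0
  have hv1 : v0 ≡ r [MOD Qz z] := (Nat.chineseRemainder hcop r 0).2.1
  have hv2 : v0 ≡ 0 [MOD L] := (Nat.chineseRemainder hcop r 0).2.2
  set v3 := (Nat.chineseRemainder hcop2 v0 b : ℕ) with hv3
  have hv4 : v3 ≡ v0 [MOD Qz z * L] := (Nat.chineseRemainder hcop2 v0 b).2.1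
  have hv5 : v3 ≡ b [MOD m] := (Nat.chineseRemainder hcop2 v0 b).2.2
  have hset : ((DM z r m b X T).filter (fun D => e ∣ D)).filter (fun D => d ∣ D) =
      (Finset.Ioc T (T + m * X)).filter (fun D => D ≡ v3 [MOD (Qz z * L * m)]) := by
    unfold DM
    ext D
    simp only [Finset.mem_filter]
    rw [← Nat.modEq_and_modEq_iff_modEq_mul hcop2]
    constructor
    · rintro ⟨⟨⟨h1, h2, h5⟩, h3⟩, h4⟩
      refine ⟨h1, Nat.ModEq.trans ?_ hv4.symm, Nat.ModEq.trans ?_ hv5.symm⟩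
      · rw [← Nat.modEq_and_modEq_iff_modEq_mul hcop]
        constructor
        · refine Nat.ModEq.trans ?_ hv1.symm
          unfold Nat.ModEq
          rw [h2, Nat.mod_eq_of_lt hr]
        · refine Nat.ModEq.trans ?_ hv2.symm
          rw [Nat.modEq_zero_iff_dvd]
          exact Nat.lcm_dvd h4 h3
      · unfold Nat.ModEq
        rw [h5, Nat.mod_eq_of_lt hbm]
    · rintro ⟨h1, h2, h5⟩
      have h2' := h2.trans hv4
      rw [← Nat.modEq_and_modEq_iff_modEq_mul hcop] at h2'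
      have h3 := h2'.1.trans hv1
      have h4 := (Nat.modEq_zero_iff_dvd).1 (h2'.2.trans hv2)
      have h6 := h5.trans hv5
      refine ⟨⟨⟨h1, ?_, ?_⟩, (Nat.dvd_lcm_right d e).trans h4⟩, (Nat.dvd_lcm_left d e).trans h4⟩
      · unfold Nat.ModEq at h3
        rw [h3, Nat.mod_eq_of_lt hr]
      · unfold Nat.ModEq at h6
        rw [h6, Nat.mod_eq_of_lt hbm]
  rw [hset]
  have h1 := V0h.cntAP T (T + m * X) (Qz z * L * m) v3 (Nat.le_add_right _ _)
    (Nat.mul_pos (Nat.mul_pos hQ hL1) hm.pos)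
  have e1 : (X : ℝ) / Qz z * (1 / (L : ℝ)) =
      (((T + m * X : ℕ) : ℝ) - (T : ℕ)) / ((Qz z * L * m : ℕ) : ℝ) := by
    have hm0 : (m : ℝ) ≠ 0 := by exact_mod_cast hm.pos.ne'
    have hQ0 : (Qz z : ℝ) ≠ 0 := by exact_mod_cast hQ.ne'
    have hL0 : (L : ℝ) ≠ 0 := by exact_mod_cast hL1.ne'
    push_cast
    field_simp
    ring
  rw [e1]
  linarith

theorem main : P2_WT → A_V0 := by
  intro hWT z r m b X T P δ C0 ρ e hr hm hmQ hb hbm hX hδ hS hcopr he hec hme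
  have h1 : ∀ D ∈ (DM z r m b X T).filter (fun D => e ∣ D), wt ρ D =
      ∑ d ∈ Finset.Icc 1 X, (if d ∣ D then ρ d else 0) := by
    intro D hD
    have hD1 : 1 ≤ D := by
      unfold DM at hD
      simp only [Finset.mem_filter, Finset.mem_Ioc] at hD
      omega
    rw [(hWT z X P δ C0 ρ hX hδ hS D hD1).2, Finset.sum_filter]
  rw [Finset.sum_congr rfl h1, Finset.sum_comm, Finset.mul_sum, ← Finset.sum_sub_distrib]
  have h2 : ∀ d ∈ Finset.Icc 1 X,
      |(∑ D ∈ (DM z r m b X T).filter (fun D => e ∣ D), (if d ∣ D then ρ d else 0)) -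
        X / Qz z * (ρ d / (Nat.lcm d e : ℝ))| ≤ (if ρ d ≠ 0 then 2 else 0) := by
    intro d hd
    by_cases h0 : ρ d = 0
    · simp [h0]
    · rw [if_pos h0]
      have hs := hS.supp d h0
      have e1 : (∑ D ∈ (DM z r m b X T).filter (fun D => e ∣ D), (if d ∣ D then ρ d else 0)) =
          ρ d * ((((DM z r m b X T).filter (fun D => e ∣ D)).filter (fun D => d ∣ D)).card : ℝ) := by
        rw [← Finset.sum_filter, Finset.sum_const, nsmul_eq_mul, mul_comm]
      have e2 : (X : ℝ) / Qz z * (ρ d / (Nat.lcm d e : ℝ)) =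
          ρ d * (X / Qz z * (1 / (Nat.lcm d e : ℝ))) := by ring
      rw [e1, e2, ← mul_sub, abs_mul]
      have h3 := one_d z r m b X T d e hr hm hmQ hbm hs.1 he hs.2.2.2.1 hec (hcopr d h0) hme
      calc |ρ d| * _ ≤ 1 * 2 := mul_le_mul (hS.bd d) h3 (abs_nonneg _) zero_le_one
        _ = 2 := one_mul _
  refine (Finset.abs_sum_le_sum_abs _ _).trans ((Finset.sum_le_sum h2).trans ?_)
  rw [← Finset.sum_filter, Finset.sum_const, nsmul_eq_mul, mul_comm]
  refine mul_le_mul_of_nonneg_left ?_ (by norm_num)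
  have h4 : (Finset.Icc 1 X).filter (fun d => ρ d ≠ 0) ⊆ Finset.Icc 1 ⌊(X : ℝ) ^ δ⌋₊ := by
    intro d hd
    rw [Finset.mem_filter] at hd
    have hs := hS.supp d hd.2
    rw [Finset.mem_Icc]
    exact ⟨hs.1, Nat.le_floor hs.2.1⟩
  have h5 := Finset.card_le_card h4
  rw [Nat.card_Icc, Nat.add_sub_cancel] at h5
  calc (((Finset.Icc 1 X).filter (fun d => ρ d ≠ 0)).card : ℝ) ≤ (⌊(X : ℝ) ^ δ⌋₊ : ℝ) := by
        exact_mod_cast h5
    _ ≤ (X : ℝ) ^ δ := Nat.floor_le (by positivity)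

end Pool.Agent.H52.AP.V0
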