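import Pool.Agent.H52.AP.Stubs
import Pool.Agent.H52.W.CG2.V1

/-!
# AP-V1: cancellation of Jacobi symbols with weights in progressions to a large prime modulus
-/

set_option autoImplicit false

namespace Pool.Agent.H52.AP.V1

variable [Pool.Agent.H52.W.Lam]

open Finset Filter NumberField Pool.Agent.H38R2.CG Pool.Agent.H52.W Pool.Agent.H52.W.CG2
  Pool.Agent.H52.W.SH Pool.Agent.H52.AP
open scoped Classical

/-- a residue class in an interval -/
lemma card_class (R v T L : ℕ) (hR : 0 < R) :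
    (((Ioc T (T + L)).filter (fun D => D ≡ v [MOD R])).card : ℝ) ≤ (L : ℝ) / R + 1 := by
  have h1 := Nat.Ioc_filter_modEq_card T (T + L) hR v
  have h2 : ((((Ioc T (T + L)).filter (fun D => D ≡ v [MOD R])).card : ℤ) : ℝ) ≤ (L : ℝ) / R + 1 := by
    rw [h1]
    have hR' : (0 : ℝ) < R := by exact_mod_cast hR
    have h3 : (((⌊(((T + L : ℕ) : ℚ) - v) / R⌋ - ⌊((T : ℚ) - v) / R⌋ : ℤ)) : ℝ) ≤ (L : ℝ) / R + 1 := by
      have h4 : ((⌊(((T + L : ℕ) : ℚ) - v) / R⌋ : ℤ) : ℚ) ≤ (((T + L : ℕ) : ℚ) - v) / R := Int.floor_le _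
      have h5 : ((T : ℚ) - v) / R < ((⌊((T : ℚ) - v) / R⌋ : ℤ) : ℚ) + 1 := Int.lt_floor_add_one _
      have h6 : (((⌊(((T + L : ℕ) : ℚ) - v) / R⌋ - ⌊((T : ℚ) - v) / R⌋ : ℤ)) : ℚ) ≤ (L : ℚ) / R + 1 := by
        have h7 : (((T + L : ℕ) : ℚ) - v) / R = ((T : ℚ) - v) / R + (L : ℚ) / R := by
          push_cast
          ring
        rw [Int.cast_sub]
        rw [h7] at h4 ⊢
        linarith
      have h8 : (((((⌊(((T + L : ℕ) : ℚ) - v) / R⌋ - ⌊((T : ℚ) - v) / R⌋ : ℤ)) : ℚ)) : ℝ) ≤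
          (((L : ℚ) / R + 1 : ℚ) : ℝ) := by exact_mod_cast h6
      push_cast at h8 ⊢
      exact h8
    rw [Int.cast_max]
    apply max_le h3
    push_cast
    positivity
  exact_mod_cast h2

/-- the multiples of `k` in a class modulo `m` -/
lemma cnt (k m b T X : ℕ) (hk : 0 < k) (hm : m.Prime) (hb : 0 < b) (hbm : b < m) :
    (((Ioc T (T + m * X)).filter (fun D => D % m = b ∧ k ∣ D)).card : ℝ) ≤
      X * (k : ℝ)⁻¹ + 1 := by
  rcases ((Ioc T (T + m * X)).filter (fun D => D % m = b ∧ k ∣ D)).eq_empty_or_nonempty with h0 | h0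
  · rw [h0, card_empty]
    push_cast
    positivity
  obtain ⟨D0, hD0⟩ := h0
  rw [mem_filter] at hD0
  obtain ⟨_, hD1, hD2⟩ := hD0
  have hmk : Nat.Coprime m k := by
    rw [Nat.Prime.coprime_iff_not_dvd hm]
    intro h
    have : D0 % m = 0 := Nat.mod_eq_zero_of_dvd (h.trans hD2)
    omega
  have hsub : (Ioc T (T + m * X)).filter (fun D => D % m = b ∧ k ∣ D) ⊆
      (Ioc T (T + m * X)).filter (fun D => D ≡ D0 [MOD m * k]) := by
    intro D hD
    rw [mem_filter] at hD ⊢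
    refine ⟨hD.1, ?_⟩
    rw [← Nat.modEq_and_modEq_iff_modEq_mul hmk]
    refine ⟨?_, ?_⟩
    · show D % m = D0 % m
      rw [hD.2.1, hD1]
    · exact (Nat.modEq_zero_iff_dvd.2 hD.2.2).trans (Nat.modEq_zero_iff_dvd.2 hD2).symm
  have h1 := card_class (m * k) D0 T (m * X) (Nat.mul_pos hm.pos hk)
  have h2 : (((Ioc T (T + m * X)).filter (fun D => D % m = b ∧ k ∣ D)).card : ℝ) ≤
      (((Ioc T (T + m * X)).filter (fun D => D ≡ D0 [MOD m * k])).card : ℝ) := by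
    exact_mod_cast card_le_card hsub
  refine h2.trans (h1.trans (le_of_eq ?_))
  have hm' : (m : ℝ) ≠ 0 := by exact_mod_cast hm.pos.ne'
  have hk' : (k : ℝ) ≠ 0 := by exact_mod_cast hk.ne'
  push_cast
  field_simp

lemma k_bound2 (Q r k X m b q T : ℕ) (hk : 1 ≤ k) (hm : m.Prime) (hb : 0 < b) (hbm : b < m) :
    |∑ D ∈ ((Ioc T (T + m * X)).filter (fun D => D % Q = r ∧ D % m = b)).filter (fun D => k ∣ D),
      ((jacobiSym (D : ℤ) q : ℤ) : ℝ)| ≤ X * (k : ℝ)⁻¹ + 1 := by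
  refine (Finset.abs_sum_le_sum_abs _ _).trans ?_
  refine (Finset.sum_le_card_nsmul _ _ 1 (fun D _ => LM2h.abs_jac _ _)).trans ?_
  rw [nsmul_eq_mul, mul_one]
  have h1 : (((Ioc T (T + m * X)).filter (fun D => D % Q = r ∧ D % m = b)).filter
      (fun D => k ∣ D)).card ≤
      ((Ioc T (T + m * X)).filter (fun D => D % m = b ∧ k ∣ D)).card := by
    apply Finset.card_le_card
    intro D hD
    rw [mem_filter, mem_filter] at hD
    rw [mem_filter]
    exact ⟨hD.1.1, hD.1.2.2, hD.2⟩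
  refine le_trans ?_ (cnt k m b T X hk hm hb hbm)
  exact_mod_cast h1

lemma k_bound1 (C : ℝ) (hC : 0 < C)
    (hPV : ∀ (q : ℕ) (χ : DirichletCharacter ℂ q), 2 ≤ q → χ ≠ 1 →
    ∀ a b : ℕ, ‖∑ n ∈ Finset.Ioc a b, χ (n : ZMod q)‖ ≤ C * √(q : ℝ) * Real.log q)
    (q : ℕ) (hodd : Odd q) (hsq : ¬ IsSquare q) (Q r m b k : ℕ) (hrQ : r < Q) (hk : 1 ≤ k)
    (hm : m.Prime) (hmQ : ¬ m ∣ Q) (hb : 0 < b) (hbm : b < m)
    (hkQ : k.Coprime Q) (hqQ : q.Coprime Q) (hmq : ¬ m ∣ q) (A B : ℕ) (hAB : A ≤ B) :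
    |∑ D ∈ ((Ioc A B).filter (fun D => D % Q = r ∧ D % m = b)).filter (fun D => k ∣ D),
      ((jacobiSym (D : ℤ) q : ℤ) : ℝ)| ≤ C * √(q : ℝ) * Real.log q := by
  by_cases hmk : m ∣ k
  · have h1 : ((Ioc A B).filter (fun D => D % Q = r ∧ D % m = b)).filter (fun D => k ∣ D) = ∅ := by
      rw [Finset.eq_empty_iff_forall_notMem]
      intro D hD
      rw [mem_filter, mem_filter] at hD
      have : D % m = 0 := Nat.mod_eq_zero_of_dvd (hmk.trans hD.2)
      omega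
    rw [h1, Finset.sum_empty, abs_zero]
    have : 0 ≤ Real.log (q : ℝ) := Real.log_natCast_nonneg q
    positivity
  · have hQ0 : 0 < Q := by omega
    have hco : Nat.Coprime Q m := ((Nat.Prime.coprime_iff_not_dvd hm).2 hmQ).symm
    obtain ⟨c, hc1, hc2⟩ := Nat.chineseRemainder hco r b
    have hW0 : 0 < Q * m := Nat.mul_pos hQ0 hm.pos
    have hcW : c % (Q * m) < Q * m := Nat.mod_lt _ hW0
    have h2 : (Ioc A B).filter (fun D => D % Q = r ∧ D % m = b) =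
        (Ioc A B).filter (fun D => D % (Q * m) = c % (Q * m)) := by
      apply Finset.filter_congr
      intro D _
      have h3 : D % (Q * m) = c % (Q * m) ↔ D ≡ c [MOD Q * m] := Iff.rfl
      rw [h3, ← Nat.modEq_and_modEq_iff_modEq_mul hco]
      have h4 : D % Q = r ↔ D ≡ r [MOD Q] := by
        unfold Nat.ModEq
        rw [Nat.mod_eq_of_lt hrQ]
      have h4' : D % m = b ↔ D ≡ b [MOD m] := by
        unfold Nat.ModEq
        rw [Nat.mod_eq_of_lt hbm]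
      rw [h4, h4']
      constructor
      · rintro ⟨h5, h6⟩
        exact ⟨h5.trans hc1.symm, h6.trans hc2.symm⟩
      · rintro ⟨h5, h6⟩
        exact ⟨h5.trans hc1, h6.trans hc2⟩
    rw [h2]
    have hkm : k.Coprime m := ((Nat.Prime.coprime_iff_not_dvd hm).2 hmk).symm
    have hqm : q.Coprime m := ((Nat.Prime.coprime_iff_not_dvd hm).2 hmq).symm
    exact V1h.k_bound C hC hPV q hodd hsq (Q * m) (c % (Q * m)) k hcW hk
      (Nat.Coprime.mul_right hkQ hkm) (Nat.Coprime.mul_right hqQ hqm) A B hAB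

/-- opening the condition of being fundamental -/
lemma fsum {z r T : ℕ} (hr : FundRes z r) (S : Finset ℕ)
    (hS : ∀ D ∈ S, 1 < D ∧ D ≤ 2 * T ∧ D % Qz z = r) (f : ℕ → ℝ) :
    ∑ D ∈ S.filter IsFund, f D =
      ∑ e ∈ (Icc 1 (Nat.sqrt (2 * T))).filter (fun e => e.Coprime (Qz z)),
        ((ArithmeticFunction.moebius e : ℤ) : ℝ) *
        ∑ D ∈ S.filter (fun D => e ^ 2 ∣ D), f D := by
  rw [Finset.sum_filter]
  have h1 : ∀ D ∈ S,
      (if IsFund D then f D else 0) =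
      ∑ e ∈ (Icc 1 (Nat.sqrt (2 * T))).filter (fun e => e.Coprime (Qz z)),
        if e ^ 2 ∣ D then ((ArithmeticFunction.moebius e : ℤ) : ℝ) * f D else 0 := by
    intro D hD
    obtain ⟨hD1, hD2, hD3⟩ := hS D hD
    have h2 := LM2h.isFund_iff hr hD3 (by omega)
    have h3 := LM2h.moebius_id (Qz z) D (Nat.sqrt (2 * T)) (by omega) (fun e he => by
      have h4 := Nat.le_of_dvd (by omega) he
      rw [Nat.le_sqrt']
      omega)
    rw [← Finset.sum_filter, ← Finset.sum_mul, Finset.filter_filter]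
    have h6 : (∑ e ∈ (Icc 1 (Nat.sqrt (2 * T))).filter (fun e => e.Coprime (Qz z) ∧ e ^ 2 ∣ D),
        ((ArithmeticFunction.moebius e : ℤ) : ℝ)) =
        (((if (∀ l : ℕ, l.Prime → ¬ l ∣ Qz z → ¬ l ^ 2 ∣ D) then 1 else 0 : ℤ)) : ℝ) := by
      rw [← h3]
      push_cast
      rfl
    rw [h6]
    by_cases h7 : IsFund D
    · rw [if_pos h7, if_pos (h2.1 h7)]
      norm_num
    · rw [if_neg h7, if_neg (fun h8 => h7 (h2.2 h8))]
      norm_num
  rw [Finset.sum_congr rfl h1, Finset.sum_comm]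
  apply Finset.sum_congr rfl
  intro e _
  rw [Finset.mul_sum, Finset.sum_filter (fun D => e ^ 2 ∣ D)]

/-- the modulus is larger than a constant -/
lemma big_m (a κ : ℝ) (ha : 2 < a) (hκ : 0 < κ) (Q : ℕ) : ∃ X0 : ℕ, ∀ X ≥ X0,
    ∀ m b T : ℕ, RM a κ m b X T → Q < m := by
  have h1 : Tendsto (fun X : ℕ => (X : ℝ) ^ κ) atTop atTop :=
    (tendsto_rpow_atTop hκ).comp tendsto_natCast_atTop_atTop
  obtain ⟨X0, hX0⟩ := eventually_atTop.1 ((h1.eventually_gt_atTop (Q : ℝ)).and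
    (eventually_ge_atTop 1))
  refine ⟨X0, fun X hX m b T h => ?_⟩
  obtain ⟨h2, h3⟩ := hX0 X hX
  have h4 : (X : ℝ) ^ κ ≤ (X : ℝ) ^ (2 * (th a + cc a - ee a) + κ) := by
    apply Real.rpow_le_rpow_of_exponent_le (by exact_mod_cast h3)
    have h5 := ee_lt ha
    have h6 := ccpos ha
    linarith
  have h5 : (Q : ℝ) < m := lt_of_lt_of_le h2 (h4.trans h.big)
  exact_mod_cast h5

open V1h in
theorem main : P_PV → P2_WT → A_V1 := by
  rintro ⟨C, hC, hPV⟩ hWT a ha κ hκ z r hr C0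
  have hc0 := cc_pos ha
  have hc1 := cc_lt ha
  have hth : th a = 1 - 8 * cc a := rfl
  obtain ⟨X0, hX0⟩ := growth (2 * C) (cc a) (by positivity) hc0
  obtain ⟨X1, hX1⟩ := big_m a κ ha hκ (Qz z)
  refine ⟨max X0 X1, fun X hX p b T' hRG ρ hρ _ m hm1 hmQ hpm hsq => ?_⟩
  obtain ⟨hX2, hgrow⟩ := hX0 X ((le_max_left _ _).trans hX)
  have hQp := hX1 X ((le_max_right _ _).trans hX) p b T' hRG
  obtain ⟨hp, hb0, hbp, hXT0, hsT, _⟩ := hRG
  have hXT : X ≤ T' := (Nat.le_mul_of_pos_left X hp.pos).trans hXT0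
  have hQ0 : 0 < Qz z := lt_of_le_of_lt (Nat.zero_le _) hr.1
  have hpQ : ¬ p ∣ Qz z := fun h => by
    have := Nat.le_of_dvd hQ0 h
    omega
  obtain ⟨c, hcd⟩ : ∃ c, c = cc a := ⟨_, rfl⟩
  rw [← hcd] at hc0 hc1 hth hgrow hρ
  rw [← hcd, hth]
  have hXr : (2 : ℝ) ≤ X := by exact_mod_cast hX2
  have hodd : Odd m := by
    have h2Q : 2 ∣ Qz z := dvd_trans (by norm_num) (LM2h.dvd16 z)
    have := Nat.Coprime.coprime_dvd_right h2Q hmQ
    exact Nat.coprime_two_right.1 this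
  have hrQ := hr.1
  have hX0' : (0 : ℝ) < X := by linarith
  have hX1' : (1 : ℝ) ≤ X := by linarith
  have hlogX : 0 ≤ Real.log (X : ℝ) := Real.log_nonneg hX1'
  have hm0' : (0 : ℝ) < m := by exact_mod_cast hm1
  have hlogm : 0 ≤ Real.log (m : ℝ) := Real.log_natCast_nonneg m
  obtain ⟨S, hS⟩ : ∃ S, S = (Ioc T' (T' + p * X)).filter (fun D => D % Qz z = r ∧ D % p = b) :=
    ⟨_, rfl⟩
  have hS1 : ∀ D ∈ S, 1 ≤ D := by
    intro D hD
    rw [hS, mem_filter, mem_Ioc] at hD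
    omega
  have hDD : DM z r p b X T' = S := by
    unfold DM
    rw [hS]
  have hFF : FM z r p b X T' = S.filter IsFund := by
    unfold FM
    rw [hDD]
  have hw : ∀ D ∈ S, wt ρ D = ∑ d ∈ (Finset.Icc 1 X).filter (fun d => d ∣ D), ρ d :=
    fun D hD => (hWT z X (PA a X) c C0 ρ (by omega) (by linarith) hρ D (hS1 D hD)).2
  obtain ⟨G, hG⟩ : ∃ G : ℝ, G = C * √(m : ℝ) * Real.log m := ⟨_, rfl⟩
  have hG0 : 0 ≤ G := by rw [hG]; positivity
  have hkb : ∀ k, 1 ≤ k → k.Coprime (Qz z) →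
      |∑ D ∈ S.filter (fun D => k ∣ D), ((jacobiSym (D : ℤ) m : ℤ) : ℝ)| ≤ G := by
    intro k hk hkQ
    rw [hS, hG]
    exact k_bound1 C hC hPV m hodd hsq (Qz z) r p b k hrQ hk hp hpQ hb0 hbp hkQ hmQ hpm T'
      (T' + p * X) (Nat.le_add_right _ _)
  have hkb2 : ∀ k, 1 ≤ k →
      |∑ D ∈ S.filter (fun D => k ∣ D), ((jacobiSym (D : ℤ) m : ℤ) : ℝ)| ≤
        X * (k : ℝ)⁻¹ + 1 := by
    intro k hk
    rw [hS]
    exact k_bound2 (Qz z) r k X p b m T' hk hp hb0 hbp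
  have hXc : (0 : ℝ) < (X : ℝ) ^ c := by positivity
  constructor
  · intro hmX
    have hsm : √(m : ℝ) ≤ (X : ℝ) ^ (1 - 7 * c) := by
      rw [Real.sqrt_le_left (by positivity)]
      refine hmX.trans (le_of_eq ?_)
      rw [← Real.rpow_natCast, ← Real.rpow_mul hX0'.le]
      congr 1
      push_cast
      ring
    have hlm : Real.log m ≤ 2 * Real.log X := by
      have h1 := Real.log_le_log hm0' hmX
      rw [Real.log_rpow hX0'] at h1
      refine h1.trans (mul_le_mul_of_nonneg_right (by linarith) hlogX)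
    have hGX : G ≤ (X : ℝ) ^ (1 - 7 * c) * (2 * C * Real.log X) := by
      rw [hG]
      calc C * √(m : ℝ) * Real.log m ≤ C * (X : ℝ) ^ (1 - 7 * c) * (2 * Real.log X) := by
            gcongr
        _ = _ := by ring
    have h1 : ∑ D ∈ DM z r p b X T', wt ρ D * ((jacobiSym (D : ℤ) m : ℤ) : ℝ) =
        ∑ d ∈ Icc 1 X, ρ d * ∑ D ∈ S.filter (fun D => Nat.lcm 1 d ∣ D),
          ((jacobiSym (D : ℤ) m : ℤ) : ℝ) := by
      rw [← wsum S hw (fun D => ((jacobiSym (D : ℤ) m : ℤ) : ℝ)) 1, hDD]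
      refine Finset.sum_congr ?_ fun _ _ => rfl
      rw [Finset.filter_true_of_mem]
      intro D _
      exact one_dvd D
    rw [h1]
    refine (dsum hρ _ G hG0 ?_).trans ?_
    · intro d hd hdQ
      rw [Nat.lcm_one_left]
      exact hkb d hd hdQ
    · calc (X : ℝ) ^ c * G ≤ (X : ℝ) ^ c * ((X : ℝ) ^ (1 - 7 * c) * (2 * C * Real.log X)) :=
            mul_le_mul_of_nonneg_left hGX hXc.le
        _ ≤ (X : ℝ) ^ c * ((X : ℝ) ^ (1 - 7 * c) * (X : ℝ) ^ c) := by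
            gcongr
            linarith
        _ = (X : ℝ) ^ (1 - 5 * c) := by
            rw [← Real.rpow_add hX0', ← Real.rpow_add hX0']
            congr 1
            ring
        _ ≤ (X : ℝ) ^ (1 - c) := Real.rpow_le_rpow_of_exponent_le hX1' (by linarith)
  · intro hmX
    have hsm : √(m : ℝ) ≤ (X : ℝ) ^ (1 / 2 - 3 * c) := by
      rw [Real.sqrt_le_left (by positivity)]
      refine hmX.trans (le_of_eq ?_)
      rw [← Real.rpow_natCast, ← Real.rpow_mul hX0'.le]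
      congr 1
      push_cast
      ring
    have hlm : Real.log m ≤ 2 * Real.log X := by
      have h1 := Real.log_le_log hm0' hmX
      rw [Real.log_rpow hX0'] at h1
      refine h1.trans (mul_le_mul_of_nonneg_right (by linarith) hlogX)
    have hGX : G ≤ (X : ℝ) ^ (1 / 2 - 3 * c) * (2 * C * Real.log X) := by
      rw [hG]
      calc C * √(m : ℝ) * Real.log m ≤ C * (X : ℝ) ^ (1 / 2 - 3 * c) * (2 * Real.log X) := by
            gcongr
        _ = _ := by ring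
    have hT1' : 1 ≤ T' := by omega
    rw [hFF, fsum (T := T') hr S (fun D hD => by
      rw [hS, mem_filter, mem_Ioc] at hD
      exact ⟨by omega, by omega, hD.2.1⟩) (fun D => wt ρ D * ((jacobiSym (D : ℤ) m : ℤ) : ℝ))]
    obtain ⟨N, hN⟩ : ∃ N, N = Nat.sqrt (2 * T') := ⟨_, rfl⟩
    rw [← hN]
    obtain ⟨Y, hY⟩ : ∃ Y, Y = ⌊(X : ℝ) ^ (3 * c)⌋₊ := ⟨_, rfl⟩
    have hp1 : (1 : ℝ) ≤ (X : ℝ) ^ (3 * c) := Real.one_le_rpow hX1' (by linarith)
    have hY1 : 1 ≤ Y := by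
      rw [hY]
      exact Nat.le_floor (by simpa using hp1)
    have hYle : (Y : ℝ) ≤ (X : ℝ) ^ (3 * c) := by
      rw [hY]
      exact Nat.floor_le (by positivity)
    have hYge : (X : ℝ) ^ (3 * c) ≤ 2 * Y := by
      have h1 : (X : ℝ) ^ (3 * c) < Y + 1 := by
        rw [hY]
        exact Nat.lt_floor_add_one _
      have h2 : (1 : ℝ) ≤ Y := by exact_mod_cast hY1
      linarith
    have hYN : Y ≤ N := by
      rw [hN, Nat.le_sqrt']
      have h1 : (Y : ℝ) ^ 2 ≤ X := by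
        calc (Y : ℝ) ^ 2 ≤ ((X : ℝ) ^ (3 * c)) ^ 2 := by gcongr
          _ = (X : ℝ) ^ (6 * c) := by
              rw [← Real.rpow_natCast, ← Real.rpow_mul hX0'.le]
              congr 1
              push_cast
              ring
          _ ≤ (X : ℝ) ^ (1 : ℝ) := Real.rpow_le_rpow_of_exponent_le hX1' (by linarith)
          _ = X := Real.rpow_one _
      have h2 : Y ^ 2 ≤ X := by exact_mod_cast h1
      omega
    have hNle : (N : ℝ) ≤ 2 * (X : ℝ) ^ (1 - 3 * c) := by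
      have h1 : N ^ 2 ≤ 2 * T' := by
        rw [hN]
        exact Nat.sqrt_le' _
      have h2 : (N : ℝ) ^ 2 ≤ 2 * (T' : ℝ) := by exact_mod_cast h1
      have h3 : (N : ℝ) ≤ 2 * √(T' : ℝ) := by
        have h4 : (N : ℝ) ^ 2 ≤ (2 * √(T' : ℝ)) ^ 2 := by
          rw [mul_pow, Real.sq_sqrt (Nat.cast_nonneg _)]
          have : (0 : ℝ) ≤ T' := Nat.cast_nonneg _
          linarith
        exact le_of_sq_le_sq h4 (by positivity)
      have h5 : (X : ℝ) ^ (ee a - κ) ≤ (X : ℝ) ^ (1 - 3 * c) := by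
        apply Real.rpow_le_rpow_of_exponent_le hX1'
        have h51 := ee_le ha
        have h52 := ccpos ha
        linarith
      linarith
    obtain ⟨T, hT⟩ : ∃ T : ℕ → ℝ, T = fun e => |∑ D ∈ S.filter (fun D => e ^ 2 ∣ D),
      wt ρ D * ((jacobiSym (D : ℤ) m : ℤ) : ℝ)| := ⟨_, rfl⟩
    have hTw : ∀ e, T e = |∑ d ∈ Icc 1 X, ρ d * ∑ D ∈ S.filter (fun D => Nat.lcm (e ^ 2) d ∣ D),
        ((jacobiSym (D : ℤ) m : ℤ) : ℝ)| := by
      intro e
      rw [hT]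
      exact congrArg abs (wsum S hw (fun D => ((jacobiSym (D : ℤ) m : ℤ) : ℝ)) (e ^ 2))
    have hT1 : ∀ e, 1 ≤ e → e.Coprime (Qz z) → T e ≤ (X : ℝ) ^ c * G := by
      intro e he heQ
      rw [hTw]
      refine dsum hρ _ G hG0 ?_
      intro d hd hdQ
      refine hkb _ (Nat.lcm_pos (pow_pos he 2) hd) ?_
      exact Nat.Coprime.coprime_dvd_left (Nat.lcm_dvd_mul _ _)
        (Nat.Coprime.mul_left (Nat.Coprime.pow_left 2 heQ) hdQ)
    have hT2 : ∀ e, 1 ≤ e → T e ≤ (X : ℝ) ^ c * (X * ((e : ℝ) ^ 2)⁻¹ + 1) := by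
      intro e he
      rw [hTw]
      refine dsum hρ _ _ (by positivity) ?_
      intro d hd hdQ
      have he2 : 0 < e ^ 2 := pow_pos he 2
      have h1 := hkb2 (Nat.lcm (e ^ 2) d) (Nat.lcm_pos he2 hd)
      refine h1.trans ?_
      refine add_le_add (mul_le_mul_of_nonneg_left ?_ (by positivity)) le_rfl
      have h2 : e ^ 2 ≤ Nat.lcm (e ^ 2) d :=
        Nat.le_of_dvd (Nat.lcm_pos he2 hd) (Nat.dvd_lcm_left _ _)
      have h3 : (e : ℝ) ^ 2 ≤ ((Nat.lcm (e ^ 2) d : ℕ) : ℝ) := by exact_mod_cast h2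
      have h4 : (0 : ℝ) < (e : ℝ) ^ 2 := by exact_mod_cast he2
      exact inv_anti₀ h4 h3
    have hT0 : ∀ e, 0 ≤ T e := fun e => by rw [hT]; exact abs_nonneg _
    have hb1 : |∑ e ∈ (Icc 1 N).filter (fun e => e.Coprime (Qz z)),
          ((ArithmeticFunction.moebius e : ℤ) : ℝ) *
          ∑ D ∈ S.filter (fun D => e ^ 2 ∣ D), wt ρ D * ((jacobiSym (D : ℤ) m : ℤ) : ℝ)| ≤
        ∑ e ∈ (Icc 1 N).filter (fun e => e.Coprime (Qz z)), T e := by
      refine (Finset.abs_sum_le_sum_abs _ _).trans ?_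
      apply Finset.sum_le_sum
      intro e _
      rw [abs_mul, hT]
      have h1 : |((ArithmeticFunction.moebius e : ℤ) : ℝ)| ≤ 1 := by
        exact_mod_cast ArithmeticFunction.abs_moebius_le_one
      calc _ ≤ 1 * |∑ D ∈ S.filter (fun D => e ^ 2 ∣ D),
              wt ρ D * ((jacobiSym (D : ℤ) m : ℤ) : ℝ)| :=
            mul_le_mul_of_nonneg_right h1 (abs_nonneg _)
        _ = _ := one_mul _
    refine hb1.trans ?_
    have hb2 : ∑ e ∈ (Icc 1 N).filter (fun e => e.Coprime (Qz z)), T e ≤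
        ∑ e ∈ Ioc 0 Y, (X : ℝ) ^ c * G +
          ∑ e ∈ Ioc Y N, (X : ℝ) ^ c * ((X : ℝ) * ((e : ℝ) ^ 2)⁻¹ + 1) := by
      have h1 : (Icc 1 N) = Ioc 0 Y ∪ Ioc Y N := by
        rw [Finset.Ioc_union_Ioc_eq_Ioc (Nat.zero_le _) hYN]
        rfl
      have h2 : Disjoint (Ioc 0 Y) (Ioc Y N) := by
        rw [Finset.disjoint_left]
        intro a ha hb
        rw [mem_Ioc] at ha hb
        omega
      rw [h1, Finset.filter_union, Finset.sum_union (Finset.disjoint_filter_filter h2)]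
      apply add_le_add
      · calc ∑ e ∈ (Ioc 0 Y).filter (fun e => e.Coprime (Qz z)), T e ≤
            ∑ e ∈ (Ioc 0 Y).filter (fun e => e.Coprime (Qz z)), (X : ℝ) ^ c * G := by
              apply Finset.sum_le_sum
              intro e he
              rw [mem_filter, mem_Ioc] at he
              exact hT1 e he.1.1 he.2
          _ ≤ ∑ e ∈ Ioc 0 Y, (X : ℝ) ^ c * G :=
              Finset.sum_le_sum_of_subset_of_nonneg (Finset.filter_subset _ _)
                (fun _ _ _ => mul_nonneg hXc.le hG0)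
      · calc ∑ e ∈ (Ioc Y N).filter (fun e => e.Coprime (Qz z)), T e ≤
            ∑ e ∈ (Ioc Y N).filter (fun e => e.Coprime (Qz z)),
              (X : ℝ) ^ c * ((X : ℝ) * ((e : ℝ) ^ 2)⁻¹ + 1) := by
              apply Finset.sum_le_sum
              intro e he
              rw [mem_filter, mem_Ioc] at he
              exact hT2 e (by omega)
          _ ≤ ∑ e ∈ Ioc Y N, (X : ℝ) ^ c * ((X : ℝ) * ((e : ℝ) ^ 2)⁻¹ + 1) :=
              Finset.sum_le_sum_of_subset_of_nonneg (Finset.filter_subset _ _)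
                (fun _ _ _ => by positivity)
    refine hb2.trans ?_
    rw [Finset.sum_const, Nat.card_Ioc, ← Finset.mul_sum, Finset.sum_add_distrib,
      ← Finset.mul_sum, nsmul_eq_mul, Nat.sub_zero, Finset.sum_const, Nat.card_Ioc,
      nsmul_eq_mul, mul_one]
    have hb3 : ∑ e ∈ Ioc Y N, ((e : ℝ) ^ 2)⁻¹ ≤ (Y : ℝ)⁻¹ := by
      refine (sum_Ioc_inv_sq_le_sub (by omega) hYN).trans ?_
      have : (0 : ℝ) ≤ ((N : ℕ) : ℝ)⁻¹ := by positivity
      linarith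
    have hYpos : (0 : ℝ) < Y := by exact_mod_cast hY1
    have hb4 : (X : ℝ) * ∑ e ∈ Ioc Y N, ((e : ℝ) ^ 2)⁻¹ ≤
        2 * (X : ℝ) ^ (1 - 3 * c) := by
      calc (X : ℝ) * ∑ e ∈ Ioc Y N, ((e : ℝ) ^ 2)⁻¹ ≤ (X : ℝ) * (Y : ℝ)⁻¹ :=
            mul_le_mul_of_nonneg_left hb3 (by positivity)
        _ ≤ 2 * (X : ℝ) ^ (1 - 3 * c) := by
            rw [← div_eq_mul_inv, div_le_iff₀ hYpos]
            have h1 : (X : ℝ) = (X : ℝ) ^ (1 - 3 * c) * (X : ℝ) ^ (3 * c) := by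
              rw [← Real.rpow_add hX0']
              norm_num
            have h2 : (0 : ℝ) < (X : ℝ) ^ (1 - 3 * c) := by positivity
            calc (X : ℝ) = ((X : ℝ) ^ (1 - 3 * c) * (X : ℝ) ^ (3 * c)) := h1
              _ ≤ ((X : ℝ) ^ (1 - 3 * c) * (2 * Y)) :=
                  mul_le_mul_of_nonneg_left hYge h2.le
              _ = 2 * (X : ℝ) ^ (1 - 3 * c) * Y := by ring
    have hb4' : ((N - Y : ℕ) : ℝ) ≤ 2 * (X : ℝ) ^ (1 - 3 * c) := by
      have : ((N - Y : ℕ) : ℝ) ≤ N := by exact_mod_cast Nat.sub_le _ _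
      linarith
    have hb5 : (Y : ℝ) * ((X : ℝ) ^ c * G) ≤ (X : ℝ) ^ (1 - 2 * c) * (2 * C * Real.log X) := by
      calc (Y : ℝ) * ((X : ℝ) ^ c * G) ≤
          (X : ℝ) ^ (3 * c) * ((X : ℝ) ^ c *
            ((X : ℝ) ^ (1 / 2 - 3 * c) * (2 * C * Real.log X))) := by
            gcongr
        _ = (X : ℝ) ^ (1 / 2 + c) * (2 * C * Real.log X) := by
            rw [← mul_assoc, ← mul_assoc, ← Real.rpow_add hX0', ← Real.rpow_add hX0']
            congr 2
            ring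
        _ ≤ (X : ℝ) ^ (1 - 2 * c) * (2 * C * Real.log X) := by
            refine mul_le_mul_of_nonneg_right ?_ (by positivity)
            exact Real.rpow_le_rpow_of_exponent_le hX1' (by linarith)
    have hb6 : (X : ℝ) ^ c * ((X : ℝ) * ∑ e ∈ Ioc Y N, ((e : ℝ) ^ 2)⁻¹ + ((N - Y : ℕ) : ℝ)) ≤
        4 * (X : ℝ) ^ (1 - 2 * c) := by
      refine (mul_le_mul_of_nonneg_left (add_le_add hb4 hb4') hXc.le).trans (le_of_eq ?_)
      have h1 : (X : ℝ) ^ (1 - 2 * c) = (X : ℝ) ^ c * (X : ℝ) ^ (1 - 3 * c) := by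
        rw [← Real.rpow_add hX0']
        congr 1
        ring
      rw [h1]
      ring
    calc (Y : ℝ) * ((X : ℝ) ^ c * G) +
          (X : ℝ) ^ c * ((X : ℝ) * ∑ e ∈ Ioc Y N, ((e : ℝ) ^ 2)⁻¹ + ((N - Y : ℕ) : ℝ)) ≤
        (X : ℝ) ^ (1 - 2 * c) * (2 * C * Real.log X) + 4 * (X : ℝ) ^ (1 - 2 * c) :=
          add_le_add hb5 hb6
      _ = (X : ℝ) ^ (1 - 2 * c) * (2 * C * Real.log X + 4) := by ring
      _ ≤ (X : ℝ) ^ (1 - 2 * c) * (X : ℝ) ^ c :=
          mul_le_mul_of_nonneg_left hgrow (by positivity)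
      _ = (X : ℝ) ^ (1 - c) := by
          rw [← Real.rpow_add hX0']
          congr 1
          ring

end Pool.Agent.H52.AP.V1
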