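import Pool.Agent.H52.W.SH.All
import Pool.Agent.H52.AP.Final
import Pool.Agent.H52.AP.SQ
import Pool.Agent.H52.AP.V0
import Pool.Agent.H52.AP.V1
import Pool.Agent.H52.AP.LM
import Pool.Agent.H52.AP.M1L
import Pool.Agent.H52.AP.MLOW
import Pool.Agent.H52.AP.RM
import Pool.Agent.H52.AP.T1a
import Pool.Agent.H52.AP.T1
import Pool.Agent.H52.AP.OM
import Pool.Agent.H52.AP.ERR
import Pool.Agent.H52.AP.JS
import Pool.Agent.H52.AP.BL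
import Pool.Agent.H52.AP.BF
import Pool.Agent.H52.AP.TX
import Pool.Agent.H52.AP.TMa
import Pool.Agent.H52.AP.TM
import Pool.Agent.H52.AP.AS0

/-!
# Project AP: assembly
-/

set_option autoImplicit false

namespace Pool.Agent.H52.AP

variable [Pool.Agent.H52.W.Lam]

open Finset Filter NumberField Pool.Agent.H38R2.CG Pool.Agent.H52.W Pool.Agent.H52.W.CG2
  Pool.Agent.H52.W.CG3 Pool.Agent.H52.W.SH
open Pool.Agent.H951R5.AR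
open scoped Classical

/-- the ingredients of the final theorem -/
theorem all : A_SQ ∧ SH.AR.Q_EXCF ∧ P2_CH ∧ P2_MP := by
  have h_P_N0 : P_N0 := T_N0
  have h_P_N0d : P_N0d := T_N0d
  have h_P_SPL : P_SPL := T_SPL h_P_N0
  have h_P_N1 : P_N1 := T_N1 h_P_SPL
  have h_P_N2 : P_N2 := T_N2 h_P_SPL
  have h_P_KR : P_KR := T_KR
  have h_P_PV : P_PV := T_PV
  have h_P_N3a : P_N3a := T_N3a h_P_KR h_P_PV
  have h_P_N3b : P_N3b := T_N3b h_P_KR h_P_PV h_P_N3a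
  have h_P_N3 : P_N3 := T_N3 h_P_N2 h_P_N3b
  have h_P_N4a : P_N4a := T_N4a
  have h_P_N4b : P_N4b := T_N4b
  have h_P_N4 : P_N4 := T_N4 h_P_N4a h_P_N4b
  have h_P_KF : P_KF := T_KF
  have h_P_N5b : P_N5b := T_N5b h_P_KF h_P_N4
  have h_P_N6 : P_N6 := T_N6 h_P_KF
  have h_P_N0e : P_N0e := T_N0e h_P_N0d
  have h_P_N5a : P_N5a := T_N5a h_P_KF
  have h_P_N5 : P_N5 := T_N5 h_P_N3 h_P_N4 h_P_N5a h_P_N5b
  have h_P_NF : P_NF := T_NF h_P_N0 h_P_N0e h_P_N1 h_P_N3 h_P_N5 h_P_N6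
  have h_P_NB : P_NB := Pool.Agent.H38R2.CG.T_NB
  have h_P2_NB : P2_NB := T2_NB h_P_NB
  have h_P2_WT : P2_WT := T2_WT
  have h_P2_SZ : P2_SZ := T2_SZ
  have h_P2_COMB : P2_COMB := T2_COMB
  have h_P2_PAIR : P2_PAIR := T2_PAIR
  have h_P_TB2 : P_TB2 := T_TB2
  have h_P2_T1a : P2_T1a := T2_T1a
  have h_P2_R1 : P2_R1 := T2_R1
  have h_P2_R2 : P2_R2 := T2_R2
  have h_P2_T2 : P2_T2 := T2_T2 h_P2_R1 h_P2_R2
  have h_P2_JP : P2_JP := T2_JP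
  have h_P_TB3a : P_TB3a := T_TB3a
  have h_P2_FJ : P2_FJ := T2_FJ
  have h_P2_OMC : P2_OMC := T2_OMC
  have h_P2_OM : P2_OM := T2_OM h_P_TB2 h_P2_FJ h_P2_OMC
  have h_P_TB3c : P_TB3c := T_TB3c
  have h_P_TB6b : P_TB6b := T_TB6b
  have h_P_TB6c : P_TB6c := T_TB6c
  have h_P2_FS : P2_FS := T2_FS
  have h_P2_JX : P2_JX := T2_JX
  have h_P2_KB : P2_KB := T2_KB
  have h_P2_HS : P2_HS := T2_HS
  have h_P_LS : P_LS := T_LS
  have h_P_CC5 : P_CC5 := T_CC5 h_P_LS h_P_NB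
  have h_P_CC6 : P_CC6 := T_CC6 h_P_NB
  have h_P2_CC7 : P2_CC7 := T2_CC7 h_P_CC5 h_P_CC6
  have h_P_CC1 : P_CC1 := T_CC1
  have h_P_BT : P_BT := T_BT
  have h_P_CC3 : P_CC3 := T_CC3 h_P_BT h_P_NB
  have h_P2_CC4 : P2_CC4 := T2_CC4 h_P_CC1 h_P_CC3
  have h_P2_NBAD : P2_NBAD := T2_NBAD h_P2_NB h_P2_CC4
  have h_P2_TC : P2_TC := T2_TC h_P2_NB h_P2_FJ h_P2_FS h_P2_JX h_P2_KB h_P2_HS h_P2_CC7 h_P2_NBAD
  have h_P_TB6a : P_TB6a := T_TB6a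
  have h_P2_TD : P2_TD := T2_TD h_P_TB6a h_P_TB3c
  have h_P2_TE : P2_TE := T2_TE h_P2_NB h_P2_FJ h_P2_FS h_P2_JX h_P2_KB h_P2_HS h_P2_CC7 h_P2_NBAD h_P2_TD
  have h_P2_TA : P2_TA := T2_TA h_P_TB3c h_P_TB6b h_P_TB6c h_P2_FJ h_P2_JP h_P2_TC h_P2_TE
  have h_P2_TC0 : P2_TC0 := T2_TC0 h_P2_FJ h_P2_JX h_P2_KB h_P2_HS
  -- short intervals
  have q_NB : Q_NB := Pool.Agent.H52.W.SH.T_NB h_P_NB
  have q_V0 : Q_V0 := SH.V0.main h_P2_WT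
  have q_ERR : Q_ERR := SH.ERR.main h_P2_SZ h_P2_NB q_NB h_P2_WT q_V0 h_P2_R1 h_P_TB3a
  have q_TMb : Q_TMb := SH.TMb.main h_P2_SZ h_P2_NB h_P_TB2 h_P_TB3c h_P2_FJ h_P2_JP h_P2_OMC h_P2_OM h_P2_TC
  have q_TMc : Q_TMc := SH.TMc.main h_P2_SZ h_P2_NB h_P_TB2 h_P_TB3c h_P2_FJ h_P2_JP h_P2_OMC h_P2_OM h_P2_TC0
  -- progressions
  have a_V0 : A_V0 := V0.main h_P2_WT
  have a_V1 : A_V1 := V1.main h_P_PV h_P2_WT
  have a_LM : A_LM := LM.main h_P_N3a h_P2_WT a_V0 a_V1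
  have a_M1L : A_M1L := M1L.main h_P2_SZ h_P2_NB h_P2_WT a_V0 a_V1
  have a_MLOW : A_MLOW := MLOW.main h_P2_SZ h_P2_NB h_P2_COMB h_P2_PAIR h_P2_WT a_V0 a_V1
  have a_RM : A_RM := RM.main
  have a_T1a : A_T1a := T1a.main
  have a_T1 : A_T1 := T1.main h_P2_WT a_T1a a_RM
  have a_OM : A_OM := OM.main
  have a_ERR : A_ERR := ERR.main h_P2_NB h_P2_WT q_V0 a_V0 q_ERR
  have a_JS : A_JS := JS.main
  have a_BL : A_BL := BL.main a_JS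
  have a_BF : A_BF := BF.main h_P2_SZ h_P2_NB q_NB h_P_TB3c a_BL
  have a_TX : A_TX := TX.main h_P2_SZ h_P2_NB h_P_TB3c h_P2_JX h_P2_KB h_P2_HS h_P2_TC0 a_BF
  have a_TMa : A_TMa := TMa.main h_P2_SZ h_P2_NB h_P_TB2 h_P2_FJ h_P2_JP h_P2_OMC h_P2_OM h_P2_TA a_TX
  have a_TM : A_TM := TM.main h_P2_SZ h_P2_NB h_P2_COMB h_P2_PAIR h_P_TB2 h_P2_WT a_T1 h_P2_T2 h_P2_JP a_OM a_ERR a_TMa q_TMb q_TMc
  have a_AS0 : A_AS0 := AS0.main h_P_NF h_P2_NB h_P2_WT a_LM a_M1L a_MLOW a_TM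
  have h_P2_BF : P2_BF := T2_BF
  have h_P2_HB : P2_HB := T2_HB
  have h_P2_HD : P2_HD := T2_HD h_P2_BF h_P2_HB
  have h_P2_CH : P2_CH := T2_CH
  have h_P2_BHa : P2_BHa := T2_BHa
  have h_P2_MP : P2_MP := T2_MP
  have a_SQ : A_SQ := SQ.main h_P2_BF h_P2_HB h_P2_HD h_P2_CH h_P2_BHa a_AS0
  have q_EXC : Q_EXC := SH.EXC.main h_P_N0 h_P_N0d h_P_N1 h_P_N3 h_P_N4 h_P_KF h_P_N5b h_P_N6
  have q_EXCF : SH.AR.Q_EXCF := SH.AR.main h_P_N0 h_P_N0d h_P_N1 h_P_N3 h_P_N5 h_P_N6 q_EXC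
  exact ⟨a_SQ, q_EXCF, h_P2_CH, h_P2_MP⟩

omit [Pool.Agent.H52.W.Lam] in
/-- the choice of the parameter -/
theorem choose_lam (a θ u : ℝ) (ha : 2 < a) (hθ : a / (2 * (a - 1)) < θ) (hu : 2 / a < u) :
    ∃ l : Pool.Agent.H52.W.Lam, 1 / (2 * θ) < @ee l a ∧
      2 * (@th l a + @cc l a - @ee l a) < u := by
  have ha1 : 0 < a - 1 := by linarith
  have ha0 : 0 < a := by linarith
  have hθ0 : 0 < θ := lt_trans (by positivity) hθ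
  set g0 : ℝ := 1 - a / (2 * θ * (a - 1)) with hg0
  have hg00 : 0 < g0 := by
    rw [hg0, sub_pos, div_lt_one (by positivity)]
    rw [div_lt_iff₀ (by positivity)] at hθ
    linarith
  set g : ℝ := min (min g0 1) (u - 2 / a) with hg
  have hgpos : 0 < g := lt_min (lt_min hg00 one_pos) (by linarith)
  have hg1 : g ≤ 1 := (min_le_left _ _).trans (min_le_right _ _)
  have hgg0 : g ≤ g0 := (min_le_left _ _).trans (min_le_left _ _)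
  have hgu : g ≤ u - 2 / a := min_le_right _ _
  refine ⟨⟨g, hgpos, hg1⟩, ?_⟩
  set l : Pool.Agent.H52.W.Lam := ⟨g, hgpos, hg1⟩ with hl
  have h1 : @cc l a ≤ g / 32 := by
    show g * ((a - 2) / (32 * (a - 1))) ≤ g / 32
    have h2 : (a - 2) / (32 * (a - 1)) ≤ 1 / 32 := by
      rw [div_le_div_iff₀ (by linarith) (by norm_num)]
      linarith
    nlinarith
  have hcc : 0 < @cc l a := @ccpos l a ha
  have h2 : @ee l a = (1 - 8 * @cc l a) * ((a - 1) / a) := by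
    show (1 - 8 * @cc l a) * (a - 1) / a = _
    ring
  have h3 : 0 < (a - 1) / a := by positivity
  have h4 : 1 / (2 * θ) = (1 - g0) * ((a - 1) / a) := by
    rw [hg0]
    field_simp
    ring
  constructor
  · rw [h2, h4]
    apply mul_lt_mul_of_pos_right _ h3
    linarith
  · have h5 : @th l a - @ee l a = @th l a / a := by
      rw [@ee_eq l a ha]
      ring
    have h6 : @th l a / a ≤ 1 / a := by
      apply div_le_div_of_nonneg_right _ ha0.le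
      show 1 - 8 * @cc l a ≤ 1
      linarith
    have h7 : (2 : ℝ) / a = 2 * (1 / a) := by ring
    linarith

omit [Pool.Agent.H52.W.Lam] in
/-- the final theorem -/
theorem final (a θ u ε τ : ℝ) (ha : 2 < a) (hθ : a / (2 * (a - 1)) < θ) (hθ1 : θ ≤ 1)
    (hu : 2 / a < u) (hε : 0 < ε) (hτ : 0 < τ) :
    ∃ x0 : ℕ, ∀ x ≥ x0, ∀ m b : ℕ, m.Prime → 0 < b → b < m → (x : ℝ) ^ u ≤ m → ∀ H : ℕ,
      (m : ℝ) * (x : ℝ) ^ θ ≤ H → H ≤ x → ∀ Q : Set ℕ,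
      (((Finset.Ioc x (x + H)).filter (fun d => d % m = b ∧ Squarefree d ∧
        (∀ q ∈ Q, q.Prime → ¬ q ∣ d) ∧ ¬ (GoodE a ε d ∧ GoodAR a d))).card : ℝ) ≤
      τ * (H / m) *
        ∏ q ∈ (Finset.Icc 2 x).filter (fun q => q.Prime ∧ q ∈ Q), (1 - 1 / (q : ℝ)) := by
  obtain ⟨l, hl, hlu⟩ := choose_lam a θ u ha hθ hu
  have hθ2 : 1 / 2 < θ := by
    refine lt_of_le_of_lt ?_ hθ
    rw [div_le_div_iff₀ (by norm_num) (by linarith)]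
    linarith
  have h := @all l
  exact @Final.final l h.1 h.2.1 h.2.2.1 a θ u ε τ ha hθ2 hl hθ1 hlu hε hτ

end Pool.Agent.H52.AP
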