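import Pool.Agent.H52.AP.Stubs

/-!
AP-BL: the bilinear estimate for the quadratic character, from the complete sum `A_JS` and the
Cauchy-Schwarz inequality.
-/

set_option autoImplicit false

namespace Pool.Agent.H52.AP.BL

open Finset

/-- The Jacobi symbol of `4 x t + B` modulo `m` as a complex number. -/
noncomputable def cc (m B x t : ℕ) : ℤ := jacobiSym ((4 * (x * t) + B : ℕ) : ℤ) m

theorem cc_mod (m B x t : ℕ) : cc m B (x % m) t = cc m B x t := by
  unfold cc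
  apply jacobiSym.mod_left'
  push_cast
  have h1 : ((x : ℤ) % (m : ℤ)) ≡ (x : ℤ) [ZMOD m] := Int.mod_modEq _ _
  exact ((h1.mul_right _).mul_left 4).add_right _

theorem cc_abs (m B x t : ℕ) : |((cc m B x t : ℤ) : ℝ)| ≤ 1 := by
  unfold cc
  rcases jacobiSym.trichotomy ((4 * (x * t) + B : ℕ) : ℤ) m with h | h | h <;> rw [h] <;> simp

theorem class_card {m N : ℕ} (S : Finset ℕ) (hS : ∀ s ∈ S, s ≤ N) (x : ℕ) :
    (S.filter (fun s => s % m = x)).card ≤ N / m + 1 := by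
  rw [← Finset.card_range (N / m + 1)]
  refine Finset.card_le_card_of_injOn (fun s => s / m) ?_ ?_
  · intro s hs
    simp only [Finset.coe_filter, Set.mem_ofPred_eq] at hs
    simp only [Finset.coe_range, Set.mem_Iio]
    exact Nat.lt_succ_of_le (Nat.div_le_div_right (hS s hs.1))
  · intro s hs t ht h
    simp only [Finset.coe_filter, Set.mem_ofPred_eq] at hs ht
    simp only at h
    rw [← Nat.div_add_mod s m, ← Nat.div_add_mod t m, h, hs.2, ht.2]

theorem class_card' {m N : ℕ} (hm : 0 < m) (hmN : m ≤ N) (S : Finset ℕ) (hS : ∀ s ∈ S, s ≤ N) (x : ℕ) :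
    ((S.filter (fun s => s % m = x)).card : ℝ) ≤ 2 * N / m := by
  have h1 : ((S.filter (fun s => s % m = x)).card : ℝ) ≤ ((N / m + 1 : ℕ) : ℝ) := by
    exact_mod_cast class_card S hS x
  have h2 : ((N / m : ℕ) : ℝ) ≤ (N : ℝ) / m := Nat.cast_div_le
  have hm' : (0 : ℝ) < m := by exact_mod_cast hm
  have h3 : (1 : ℝ) ≤ (N : ℝ) / m := by
    rw [le_div_iff₀ hm']
    simp only [one_mul]
    exact_mod_cast hmN
  push_cast at h1
  calc ((S.filter (fun s => s % m = x)).card : ℝ) ≤ ((N / m : ℕ) : ℝ) + 1 := h1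
    _ ≤ (N : ℝ) / m + (N : ℝ) / m := add_le_add h2 h3
    _ = 2 * N / m := by ring

theorem main (hJS : A_JS) : A_BL := by
  intro m N B S α β hm hm2 hmN hB hS hα hβ
  have hm0 : 0 < m := hm.pos
  have hmR : (0 : ℝ) < m := by exact_mod_cast hm0
  have hSN : ∀ s ∈ S, s ≤ N := fun s hs => (hS s hs).2.1
  have hcardN : (S.card : ℝ) ≤ N := by
    have h1 : S ⊆ Finset.Icc 1 N := fun s hs => Finset.mem_Icc.2 ⟨(hS s hs).1, (hS s hs).2.1⟩
    have h2 := Finset.card_le_card h1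
    rw [Nat.card_Icc] at h2
    have h3 : S.card ≤ N := by omega
    exact_mod_cast h3
  -- the inner sum
  set F : ℕ → ℂ := fun x => ∑ t ∈ S, β t * ((cc m B x t : ℤ) : ℂ) with hF
  have hFmod : ∀ x, F (x % m) = F x := by
    intro x
    simp only [hF]
    refine Finset.sum_congr rfl fun t _ => ?_
    rw [cc_mod]
  -- step 1
  have e1 : ∑ s ∈ S, ∑ t ∈ S, α s * β t * ((jacobiSym ((4 * (s * t) + B : ℕ) : ℤ) m : ℤ) : ℂ) =
      ∑ s ∈ S, α s * F s := by
    refine Finset.sum_congr rfl fun s _ => ?_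
    simp only [hF]
    rw [Finset.mul_sum]
    refine Finset.sum_congr rfl fun t _ => ?_
    rw [mul_assoc]
    rfl
  rw [e1]
  have h1 : ‖∑ s ∈ S, α s * F s‖ ≤ ∑ s ∈ S, ‖F s‖ := by
    refine (norm_sum_le _ _).trans (Finset.sum_le_sum fun s _ => ?_)
    rw [norm_mul]
    calc ‖α s‖ * ‖F s‖ ≤ 1 * ‖F s‖ := mul_le_mul_of_nonneg_right (hα s) (norm_nonneg _)
      _ = ‖F s‖ := one_mul _
  have h2 : (∑ s ∈ S, ‖F s‖) ^ 2 ≤ S.card * ∑ s ∈ S, ‖F s‖ ^ 2 := sq_sum_le_card_mul_sum_sq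
  -- step 2
  have h3 : ∑ s ∈ S, ‖F s‖ ^ 2 ≤ (2 * N / m) * ∑ x ∈ Finset.range m, ‖F x‖ ^ 2 := by
    rw [← Finset.sum_fiberwise_of_maps_to (s := S) (t := Finset.range m) (g := fun s => s % m)
      (fun s _ => Finset.mem_range.2 (Nat.mod_lt _ hm0)), Finset.mul_sum]
    refine Finset.sum_le_sum fun x _ => ?_
    have h4 : ∀ s ∈ S.filter (fun s => s % m = x), ‖F s‖ ^ 2 = ‖F x‖ ^ 2 := by
      intro s hs
      rw [← (Finset.mem_filter.1 hs).2, hFmod]
    rw [Finset.sum_congr rfl h4, Finset.sum_const, nsmul_eq_mul]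
    exact mul_le_mul_of_nonneg_right (class_card' hm0 hmN S hSN x) (by positivity)
  -- step 3
  have h5 : ∑ x ∈ Finset.range m, ‖F x‖ ^ 2 ≤ 3 * N * S.card := by
    have e2 : ((∑ x ∈ Finset.range m, ‖F x‖ ^ 2 : ℝ) : ℂ) =
        ∑ t ∈ S, ∑ t' ∈ S, β t * (starRingEnd ℂ) (β t') *
          ((∑ x ∈ Finset.range m, cc m B x t * cc m B x t' : ℤ) : ℂ) := by
      push_cast
      have e3 : ∀ x, ((‖F x‖ : ℝ) : ℂ) ^ 2 = ∑ t ∈ S, ∑ t' ∈ S, β t * (starRingEnd ℂ) (β t') *
          (((cc m B x t : ℤ) : ℂ) * ((cc m B x t' : ℤ) : ℂ)) := by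
        intro x
        rw [← Complex.mul_conj']
        simp only [hF]
        rw [map_sum, Finset.sum_mul_sum]
        refine Finset.sum_congr rfl fun t _ => Finset.sum_congr rfl fun t' _ => ?_
        rw [map_mul, map_intCast]
        ring
      rw [Finset.sum_congr rfl (fun x _ => e3 x), Finset.sum_comm]
      refine Finset.sum_congr rfl fun t _ => ?_
      rw [Finset.sum_comm]
      refine Finset.sum_congr rfl fun t' _ => ?_
      rw [Finset.mul_sum]
    have h6 : ∀ t ∈ S, ∀ t' ∈ S,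
        ‖β t * (starRingEnd ℂ) (β t') * ((∑ x ∈ Finset.range m, cc m B x t * cc m B x t' : ℤ) : ℂ)‖ ≤
          (if t' % m = t % m then (m : ℝ) else 0) + 1 := by
      intro t ht t' ht'
      rw [norm_mul, norm_mul, RCLike.norm_conj]
      have h7 : ‖β t‖ * ‖β t'‖ ≤ 1 := mul_le_one₀ (hβ t) (norm_nonneg _) (hβ t')
      have h8 : ‖((∑ x ∈ Finset.range m, cc m B x t * cc m B x t' : ℤ) : ℂ)‖ =
          |((∑ x ∈ Finset.range m, cc m B x t * cc m B x t' : ℤ) : ℝ)| := by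
        rw [Complex.norm_intCast]
      rw [h8]
      refine (mul_le_of_le_one_left (abs_nonneg _) h7).trans ?_
      by_cases h9 : t' % m = t % m
      · rw [if_pos h9]
        push_cast
        refine (Finset.abs_sum_le_sum_abs _ _).trans ?_
        have h10 : ∀ x ∈ Finset.range m, |((cc m B x t : ℤ) : ℝ) * ((cc m B x t' : ℤ) : ℝ)| ≤ 1 := by
          intro x _
          rw [abs_mul]
          exact mul_le_one₀ (cc_abs m B x t) (abs_nonneg _) (cc_abs m B x t')
        refine (Finset.sum_le_sum h10).trans ?_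
        simp
      · rw [if_neg h9, zero_add]
        have h11 := hJS m B t t' hm hm2 hB (hS t ht).2.2 (hS t' ht').2.2 (fun h => h9 h.symm)
        exact_mod_cast h11
    have h12 : (∑ x ∈ Finset.range m, ‖F x‖ ^ 2 : ℝ) =
        ‖((∑ x ∈ Finset.range m, ‖F x‖ ^ 2 : ℝ) : ℂ)‖ := by
      rw [Complex.norm_real, Real.norm_of_nonneg (Finset.sum_nonneg fun x _ => by positivity)]
    rw [h12, e2]
    refine (norm_sum_le _ _).trans ?_
    refine (Finset.sum_le_sum fun t ht => (norm_sum_le _ _).trans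
      (Finset.sum_le_sum fun t' ht' => h6 t ht t' ht')).trans ?_
    have h13 : ∀ t ∈ S, ∑ t' ∈ S, ((if t' % m = t % m then (m : ℝ) else 0) + 1) ≤ 3 * N := by
      intro t _
      rw [Finset.sum_add_distrib, ← Finset.sum_filter, Finset.sum_const, Finset.sum_const,
        nsmul_eq_mul, nsmul_eq_mul, mul_one]
      have h14 := class_card' hm0 hmN S hSN (t % m)
      have h15 : ((S.filter (fun s => s % m = t % m)).card : ℝ) * m ≤ 2 * N := by
        rwa [← le_div_iff₀ hmR]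
      linarith
    refine (Finset.sum_le_sum h13).trans ?_
    rw [Finset.sum_const, nsmul_eq_mul]
    linarith [mul_comm ((S.card : ℝ)) (3 * (N : ℝ))]
  -- conclusion
  have hN0 : (0 : ℝ) ≤ N := Nat.cast_nonneg _
  have hc0 : (0 : ℝ) ≤ S.card := Nat.cast_nonneg _
  have h16 : ‖∑ s ∈ S, α s * F s‖ ^ 2 ≤ (3 * S.card * N / √(m : ℝ)) ^ 2 := by
    have h17 : ‖∑ s ∈ S, α s * F s‖ ^ 2 ≤ (∑ s ∈ S, ‖F s‖) ^ 2 :=
      pow_le_pow_left₀ (norm_nonneg _) h1 2
    have h18 : (3 * S.card * N / √(m : ℝ)) ^ 2 = 9 * (S.card : ℝ) ^ 2 * N ^ 2 / m := by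
      rw [div_pow, Real.sq_sqrt hmR.le]
      ring
    rw [h18]
    refine h17.trans (h2.trans ?_)
    calc (S.card : ℝ) * ∑ s ∈ S, ‖F s‖ ^ 2 ≤ S.card * ((2 * N / m) * (3 * N * S.card)) := by
          refine mul_le_mul_of_nonneg_left (h3.trans ?_) hc0
          exact mul_le_mul_of_nonneg_left h5 (by positivity)
      _ = 6 * (S.card : ℝ) ^ 2 * N ^ 2 / m := by ring
      _ ≤ 9 * (S.card : ℝ) ^ 2 * N ^ 2 / m := by
          apply div_le_div_of_nonneg_right _ hmR.le
          have : (0 : ℝ) ≤ (S.card : ℝ) ^ 2 * N ^ 2 := by positivity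
          linarith
  exact le_of_sq_le_sq h16 (by positivity)

end Pool.Agent.H52.AP.BL
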