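import Pool.Agent.H52.W.SH.Stubs

/-!
# Project AP: class groups of real quadratic fields in arithmetic progressions to large prime moduli

`D` runs through the integers of `(T, T + m X]` congruent to `b` modulo the prime `m` (and to `r` modulo
`Qz z`); there are about `X / Qz z` of them.  The parameter `X` is the parameter of the family (`PA a X`, `kA a X`,
`SA a X`, `NA a X`), as in project SH (`W/SH/Stubs.lean`), which is the case `m = 1`.  The statements `A_XXX` are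
the analogues of the statements `Q_XXX` of `W/SH/Stubs.lean`, with the same proofs, except:

* one congruence modulo `m` more in the number of roots (`RRm`), which gives the factor
  `kM = 1 + (4 n + b v² / m)` (`A_RM`);
* the sum of the new character is small by a bilinear estimate (`A_BL`, `A_TX`).

The parameter `λ` of the family is an instance `[Lam]` (file `W/Lam.lean`): `cc a = λ (a-2) / (32 (a-1))`,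
`th a = 1 - 8 cc a`, `ee a = th a (a - 1) / a`.  Useful: `ccpos`, `cclt` (`W/CG2/Stubs.lean`), `ee_eq`, `ee_lt`,
`ee_le`, `th_ge` (`W/SH/Stubs.lean`).
-/

set_option autoImplicit false

namespace Pool.Agent.H52.AP

variable [Pool.Agent.H52.W.Lam]

open Finset Filter NumberField Pool.Agent.H38R2.CG Pool.Agent.H52.W Pool.Agent.H52.W.CG2
  Pool.Agent.H52.W.SH
open scoped Classical

/-! ## Definitions -/

/-- The integers of `(T, T + m X]` congruent to `r` modulo `Qz z` and to `b` modulo `m`. -/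
noncomputable def DM (z r m b X T : ℕ) : Finset ℕ :=
  (Finset.Ioc T (T + m * X)).filter (fun D => D % Qz z = r ∧ D % m = b)

/-- The fundamental discriminants among them. -/
noncomputable def FM (z r m b X T : ℕ) : Finset ℕ := (DM z r m b X T).filter IsFund

/-- The region of the parameters. -/
structure RM (a κ : ℝ) (m b X T : ℕ) : Prop where
  /-- `m` is a prime -/
  pr : m.Prime
  /-- `b` is a reduced residue -/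
  b0 : 0 < b
  bm : b < m
  /-- the interval is not longer than its starting point -/
  le : m * X ≤ T
  /-- there are enough `D` -/
  sq : √(T : ℝ) ≤ (X : ℝ) ^ (ee a - κ)
  /-- `m` is not too small -/
  big : (X : ℝ) ^ (2 * (th a + cc a - ee a) + κ) ≤ m

/-- `m` does not divide the elements of the support of the weights -/
def Cop (m : ℕ) (ρ : ℕ → ℝ) : Prop := ∀ d, ρ d ≠ 0 → ¬ m ∣ d

/-- number of roots, with the congruence modulo `m` -/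
def RRm (z r m b n v d : ℕ) : ℕ :=
  ((Finset.range (Qz z * (d * (m * v ^ 2)))).filter (fun u =>
    u ^ 2 ≡ 4 * n + r * v ^ 2 [MOD Qz z * v ^ 2] ∧ u ^ 2 ≡ 4 * n [MOD d * v ^ 2] ∧
      u ^ 2 ≡ 4 * n + b * v ^ 2 [MOD m * v ^ 2])).card

/-- the local factor at `m` -/
noncomputable def kM (m b n v : ℕ) : ℝ :=
  if m ∣ v then 1 else 1 + ((jacobiSym ((4 * n + b * v ^ 2 : ℕ) : ℤ) m : ℤ) : ℝ)

/-- the sum over v for given c, s, t -/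
noncomputable def MM (a : ℝ) (z r m b X T : ℕ) (ρ : ℕ → ℝ) (c s t : Finset ℕ) : ℝ :=
  ∑ v ∈ Finset.Icc 1 ⌊(X : ℝ) ^ (1 - cc a)⌋₊,
    omT X T v (prodS c ^ 2 * (prodS s * prodS t) : ℕ) / Qz z *
      ((rhoQ z r (prodS c ^ 2 * (prodS s * prodS t)) v : ℝ) * JJ z X ρ c (prodS s * prodS t) v) *
      kM m b (prodS c ^ 2 * (prodS s * prodS t)) v

/-! ## Sums over D -/

/-- AP-V0: weighted number of D divisible by e (compare `W/SH/V0.lean`, `main`). -/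
def A_V0 : Prop := ∀ (z r m b X T : ℕ) (P : Finset ℕ) (δ : ℝ) (C0 : ℕ) (ρ : ℕ → ℝ) (e : ℕ),
  r < Qz z → m.Prime → ¬ m ∣ Qz z → 0 < b → b < m → 1 ≤ X → δ ≤ 1 → SWt z X P δ C0 ρ → Cop m ρ →
  1 ≤ e → e.Coprime (Qz z) → ¬ m ∣ e →
  |(∑ D ∈ (DM z r m b X T).filter (fun D => e ∣ D), wt ρ D) -
    X / Qz z * ∑ d ∈ Finset.Icc 1 X, ρ d / (Nat.lcm d e : ℝ)| ≤ 2 * (X : ℝ) ^ δ

/-- AP-V1: cancellation of Jacobi symbols (compare `W/SH/V1.lean`). -/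
def A_V1 : Prop := ∀ a : ℝ, 2 < a → ∀ κ : ℝ, 0 < κ → ∀ (z r : ℕ), FundRes z r →
  ∀ C0 : ℕ, ∃ X0 : ℕ, ∀ X ≥ X0, ∀ m b T : ℕ, RM a κ m b X T →
  ∀ ρ : ℕ → ℝ, SWt z X (PA a X) (cc a) C0 ρ → Cop m ρ →
  ∀ q : ℕ, 1 ≤ q → q.Coprime (Qz z) → ¬ m ∣ q → ¬ IsSquare q →
    ((q : ℝ) ≤ (X : ℝ) ^ (2 * th a + 2 * cc a) →
      |∑ D ∈ DM z r m b X T, wt ρ D * ((jacobiSym (D : ℤ) q : ℤ) : ℝ)| ≤ (X : ℝ) ^ (1 - cc a)) ∧
    ((q : ℝ) ≤ (X : ℝ) ^ (th a + 2 * cc a) →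
      |∑ D ∈ FM z r m b X T, wt ρ D * ((jacobiSym (D : ℤ) q : ℤ) : ℝ)| ≤ (X : ℝ) ^ (1 - cc a))

/-- AP-LM: weighted first moment of L(1, chi_D) (compare `W/SH/LM.lean`). -/
def A_LM : Prop := ∀ a : ℝ, 2 < a → ∀ κ : ℝ, 0 < κ → ∀ (z r : ℕ), 2 ≤ z → FundRes z r →
  ∀ C0 : ℕ, 1 ≤ C0 → ∀ ε : ℝ, 0 < ε → ∃ X0 : ℕ, ∀ X ≥ X0, ∀ m b T : ℕ, RM a κ m b X T →
  ∀ ρ : ℕ → ℝ, SWt z X (PA a X) (cc a) C0 ρ → Cop m ρ →
    ∑ D ∈ FM z r m b X T, wt ρ D * Lone D ≤ (1 + ε) * (1 + 4 / z) * WS z X ρ / PiR z r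

/-- AP-M1L: weighted first moment of the ideal counts, lower bound (compare `W/SH/M1L.lean`). -/
def A_M1L : Prop := ∀ a : ℝ, 2 < a → ∀ κ : ℝ, 0 < κ → ∀ (z r : ℕ), 2 ≤ z → FundRes z r →
  ∀ C0 : ℕ, 1 ≤ C0 → ∀ ε : ℝ, 0 < ε → ∃ X0 : ℕ, ∀ X ≥ X0, ∀ m b T : ℕ, RM a κ m b X T →
  ∀ ρ : ℕ → ℝ, SWt z X (PA a X) (cc a) C0 ρ → Cop m ρ → ∀ s ∈ SA a X,
    (1 - ε - 2 * C0 / z) * WS z X ρ ≤
      ∑ D ∈ FM z r m b X T, wt ρ D * ∏ p ∈ s, (1 + (chi D p : ℝ))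

/-- AP-MLOW: for almost all D there are enough ideals (compare `W/SH/MLOW.lean`). -/
def A_MLOW : Prop := ∀ a : ℝ, 2 < a → ∀ κ : ℝ, 0 < κ → ∀ (z r : ℕ), FundRes z r →
  ∀ C0 : ℕ, 1 ≤ C0 → ∀ ε : ℝ, 0 < ε → ∃ X0 : ℕ, ∀ X ≥ X0, ∀ m b T : ℕ, RM a κ m b X T →
  ∀ ρ : ℕ → ℝ, SWt z X (PA a X) (cc a) C0 ρ → Cop m ρ →
    ∑ D ∈ (DM z r m b X T).filter (fun D => MD D (SA a X) (fun _ => 1) < (1 - ε) * NA a X),
      wt ρ D ≤ ε * WS z X ρ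

/-! ## Counting solutions of u² - D v² = 4 n -/

/-- AP-RM: the number of roots with the congruence modulo `m`. -/
def A_RM : Prop := ∀ z r m b n v d : ℕ, m.Prime → ¬ m ∣ Qz z → 1 ≤ n → ¬ m ∣ n → 1 ≤ v → 1 ≤ d →
  ¬ m ∣ d → (RRm z r m b n v d : ℝ) = (RR z r n v d : ℝ) * kM m b n v

/-- AP-T1a: one n, one v, one d (compare `W/CG2/T1a.lean`; `(T, T + m X]` is
`(T, (1 + η) T]` with `η = m X / T`). -/
def A_T1a : Prop := ∀ (z r m b X T n v d : ℕ), r < Qz z → m.Prime → ¬ m ∣ Qz z → 0 < b → b < m →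
  1 ≤ X → m * X ≤ T → 1 ≤ n → 1 ≤ v → 1 ≤ d → d.Coprime (Qz z) → ¬ m ∣ d →
  |(∑ D ∈ (DM z r m b X T).filter (fun D => d ∣ D), ∑ u ∈ Finset.Icc 1 (4 * n),
    (if ((u : ℤ) ^ 2 - (D : ℤ) * (v : ℤ) ^ 2 = 4 * n) then
      phi (Real.log (((u : ℝ) + v * √(D : ℝ)) / ((u : ℝ) - v * √(D : ℝ)))) else 0)) -
    (RRm z r m b n v d : ℝ) * (om T ((m * X : ℕ) / (T : ℝ)) v n / (m * (Qz z * d)))| ≤
      (RRm z r m b n v d : ℝ)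

/-- AP-T1: one n (compare `W/CG2/T1.lean` and `W/SH/V0.lean`, `main_T1`; from `A_T1a` and `A_RM`). -/
def A_T1 : Prop := ∀ (z r m b X T n : ℕ) (P : Finset ℕ) (δ : ℝ) (C0 : ℕ) (ρ : ℕ → ℝ),
  r < Qz z → m.Prime → ¬ m ∣ Qz z → 0 < b → b < m → 1 ≤ X → m * X ≤ T → 1 ≤ n → ¬ m ∣ n →
  0 ≤ δ → δ ≤ 1 → SWt z X P δ C0 ρ → Cop m ρ →
  ∑ D ∈ DM z r m b X T, wt ρ D * Rsum D n ≤
    (if IsSquare n then ∑ D ∈ DM z r m b X T, wt ρ D else 0) +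
    2 * ∑ v ∈ Finset.Icc 1 ⌊2 * √((n : ℝ) / T)⌋₊, kM m b n v *
      (om T ((m * X : ℕ) / (T : ℝ)) v n / (m * Qz z) *
          ∑ d ∈ Finset.Icc 1 X, ρ d / d * (RR z r n v d : ℝ) +
        ∑ d ∈ Finset.Icc 1 X, |ρ d| * (RR z r n v d : ℝ))

/-- AP-OM: the mean of a decreasing function over a longer interval is smaller. -/
def A_OM : Prop := ∀ (m X T : ℕ) (v n : ℝ), 1 ≤ m → 1 ≤ X → m * X ≤ T → 0 ≤ v → 0 < n →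
  om T ((m * X : ℕ) / (T : ℝ)) v n / m ≤ omT X T v n

/-- AP-ERR: the error terms and the diagonal (corollary of `Q_ERR`, `Q_V0` and `A_V0`). -/
def A_ERR : Prop := ∀ a : ℝ, 2 < a → ∀ κ : ℝ, 0 < κ → ∀ (z r : ℕ), FundRes z r →
  ∀ C0 : ℕ, 1 ≤ C0 → ∀ ε : ℝ, 0 < ε → ∃ X0 : ℕ, ∀ X ≥ X0, ∀ m b T : ℕ, RM a κ m b X T →
  ∀ ρ : ℕ → ℝ, SWt z X (PA a X) (cc a) C0 ρ → Cop m ρ →
    (∑ s ∈ SA a X, ∑ t ∈ SA a X, 2 ^ ((s ∩ t).card) *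
      ((if IsSquare (prodS s * prodS t) then ∑ D ∈ DM z r m b X T, wt ρ D else 0) +
      2 * ∑ v ∈ Finset.Icc 1 ⌊2 * √(((prodS s * prodS t : ℕ) : ℝ) / T)⌋₊,
        2 * ∑ d ∈ Finset.Icc 1 X, |ρ d| * (RR z r (prodS s * prodS t) v d : ℝ))) ≤
      ε * GG X ρ * (X / √(T : ℝ)) * (NA a X) ^ 2

/-! ## The bilinear estimate -/

/-- AP-JS: a complete sum. -/
def A_JS : Prop := ∀ (m B s t : ℕ), m.Prime → m ≠ 2 → ¬ m ∣ B → ¬ m ∣ s → ¬ m ∣ t → ¬ s ≡ t [MOD m] →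
  |∑ x ∈ Finset.range m, jacobiSym ((4 * (x * s) + B : ℕ) : ℤ) m *
    jacobiSym ((4 * (x * t) + B : ℕ) : ℤ) m| ≤ 1

/-- AP-BL: the bilinear estimate (from `A_JS` and the Cauchy-Schwarz inequality). -/
def A_BL : Prop := ∀ (m N B : ℕ) (S : Finset ℕ) (α β : ℕ → ℂ), m.Prime → m ≠ 2 → m ≤ N → ¬ m ∣ B →
  (∀ s ∈ S, 1 ≤ s ∧ s ≤ N ∧ ¬ m ∣ s) → (∀ s, ‖α s‖ ≤ 1) → (∀ s, ‖β s‖ ≤ 1) →
  ‖∑ s ∈ S, ∑ t ∈ S, α s * β t * ((jacobiSym ((4 * (s * t) + B : ℕ) : ℤ) m : ℤ) : ℂ)‖ ≤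
    3 * S.card * N / √(m : ℝ)

/-- AP-BF: the sum over the pairs, one v and one f (from `A_BL`; `rhoQ` depends only on the residues of the
products modulo `M = Qz z * (qpart z v) ^ 2`, and `fej` is a mean of additive characters of the logarithm). -/
def A_BF : Prop := ∀ a : ℝ, 2 < a → ∀ κ : ℝ, 0 < κ → ∀ z : ℕ, 2 ≤ z → ∃ X0 : ℕ, ∀ X ≥ X0,
  ∀ m b T : ℕ, RM a κ m b X T → ∀ (r v f : ℕ) (l t : ℝ), 1 ≤ v → ¬ m ∣ v →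
  |∑ s ∈ SA a X, ∑ t' ∈ SA a X, (rhoQ z r (prodS s * prodS t') v : ℝ) *
      ((jacobiSym ((prodS s * prodS t' : ℕ) : ℤ) f : ℤ) : ℝ) *
      fej (l * (Real.log (prodS s * prodS t' : ℕ) - t)) *
      ((jacobiSym ((4 * (prodS s * prodS t') + b * v ^ 2 : ℕ) : ℤ) m : ℤ) : ℝ)| ≤
    (Qz z * 8 * 2 ^ z : ℝ) * ((Qz z * (qpart z v) ^ 2 : ℕ) : ℝ) ^ 2 *
      ((X : ℝ) ^ (-(κ / 4)) * (NA a X) ^ 2)

/-- AP-TX: the sum of the new character is small (from `A_BF`, `P2_JX`, `P2_KB`, `P2_HS` for the `v` with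
`qpart z v ≤ X ^ (κ / 32)`, and `P2_TC0`, `P_TB3c` for the other `v`). -/
def A_TX : Prop := ∀ a : ℝ, 2 < a → ∀ κ : ℝ, 0 < κ → ∀ (z r : ℕ), 2 ≤ z → FundRes z r →
  ∀ (C0 : ℕ), 1 ≤ C0 → ∀ l ε : ℝ, 0 < l → 0 < ε → ∃ X0 : ℕ, ∀ X ≥ X0, ∀ m b T : ℕ, RM a κ m b X T →
  ∀ ρ : ℕ → ℝ, SWt z X (PA a X) (cc a) C0 ρ → ∀ (V : ℕ) (F : ℝ → ℝ) (I t : ℝ),
  AntitoneOn F (Set.Ici 0) → (∀ x, 0 ≤ F x) →
  (∀ V : ℝ, 0 ≤ V → ∫ x in (0 : ℝ)..V, F x ≤ I) → (V : ℝ) ≤ (X : ℝ) ^ (1 - cc a) →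
  |∑ v ∈ Finset.Icc 1 V,
    F v * ∑ s ∈ SA a X, ∑ t' ∈ SA a X, (rhoQ z r (prodS s * prodS t') v : ℝ) *
      JJ z X ρ ∅ (prodS s * prodS t') v * fej (l * (Real.log (prodS s * prodS t' : ℕ) - t)) *
      (kM m b (prodS s * prodS t') v - 1)| ≤
    ε * GG X ρ * I * (SF a X (kA a X) ∅ l t + (NA a X) ^ 2 / Real.log X)

/-! ## The main sums -/

/-- AP-TMa: pairs of disjoint sets (compare `W/SH/TMa.lean`; the majorant `P2_OM` is used with the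
nonnegative weight `kM`, then `P2_TA` and `A_TX`). -/
def A_TMa : Prop := ∀ a : ℝ, 2 < a → ∀ κ : ℝ, 0 < κ → ∀ (z r : ℕ), 2 ≤ z → FundRes z r →
  ∀ C0 : ℕ, 1 ≤ C0 → ∀ ε : ℝ, 0 < ε → ∃ X0 : ℕ, ∀ X ≥ X0, ∀ m b T : ℕ, RM a κ m b X T →
  ∀ ρ : ℕ → ℝ, SWt z X (PA a X) (cc a) C0 ρ → Cop m ρ →
    ∑ s ∈ SA a X, ∑ t ∈ SA a X, MM a z r m b X T ρ ∅ s t ≤
      (1 + ε) * (PiR z r / (4 * Qz z)) * GG X ρ * (X / √(T : ℝ)) * (NA a X) ^ 2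

/-- AP-TM: the near collision bound (compare `W/SH/TM.lean`; `Q_TMb`, `Q_TMc` and `kM ≤ 2` for the pairs
with a common prime). -/
def A_TM : Prop := ∀ a : ℝ, 2 < a → ∀ κ : ℝ, 0 < κ → ∀ (z r : ℕ), 2 ≤ z → FundRes z r →
  ∀ C0 : ℕ, 1 ≤ C0 → ∀ ε : ℝ, 0 < ε → ∃ X0 : ℕ, ∀ X ≥ X0, ∀ m b T : ℕ, RM a κ m b X T →
  ∀ ρ : ℕ → ℝ, SWt z X (PA a X) (cc a) C0 ρ → Cop m ρ →
    ∑ D ∈ DM z r m b X T, wt ρ D * SD D (SA a X) (fun _ => 1) ≤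
      (1 + ε) * (PiR z r / (2 * Qz z)) * GG X ρ * (X / √(T : ℝ)) * (NA a X) ^ 2

/-- AP-AS0: few exceptional discriminants, in the weighted sense (compare `W/SH/AS0.lean`). -/
def A_AS0 : Prop := ∀ a : ℝ, 2 < a → ∀ κ : ℝ, 0 < κ → ∀ t0 : ℝ, 0 < t0 → ∀ C0 : ℕ, 1 ≤ C0 →
  ∀ ε : ℝ, 0 < ε → ∃ z0 : ℕ, ∀ z ≥ z0, ∃ η1 : ℝ, 0 < η1 ∧ η1 ≤ 1 ∧ ∀ r : ℕ, FundRes z r →
  ∃ X0 : ℕ, ∀ X ≥ X0, ∀ m b T : ℕ, RM a κ m b X T → (m : ℝ) * X ≤ η1 * T →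
  ∀ ρ : ℕ → ℝ, SWt z X (PA a X) (cc a) C0 ρ → Cop m ρ →
    ∑ D ∈ (FM z r m b X T).filter (fun D => BdS a t0 X D), wt ρ D ≤ ε * WS z X ρ

end Pool.Agent.H52.AP
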