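import Pool.Agent.H52.AP.Stubs
import Pool.Agent.H52.W.SH.Stubs2

/-!
# Project AP: the statement with the sifting sets (heavy imports)
-/

set_option autoImplicit false

namespace Pool.Agent.H52.AP

variable [Pool.Agent.H52.W.Lam]

open Finset Filter NumberField Pool.Agent.H38R2.CG Pool.Agent.H52.W Pool.Agent.H52.W.CG2
  Pool.Agent.H52.W.CG3 Pool.Agent.H52.W.SH
open Pool.Agent.H38R2.CG.FINh
open scoped Classical

/-- AP-SQ: few exceptional discriminants without prime factor in `Q`. -/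
def A_SQ : Prop := ∀ a : ℝ, 2 < a → ∀ κ : ℝ, 0 < κ → ∀ t0 : ℝ, 0 < t0 → ∀ ε : ℝ, 0 < ε →
  ∃ η : ℝ, 0 < η ∧ η ≤ 1 ∧ ∃ X0 : ℕ, ∀ X ≥ X0, ∀ m b T : ℕ, RM a κ m b X T →
  (m : ℝ) * X ≤ η * T → ∀ Q : Set ℕ,
    (((Finset.Ioc T (T + m * X)).filter (fun D => D % m = b ∧
      (∀ q ∈ Q, q.Prime → 3 ≤ q → ¬ q ∣ D) ∧ IsFund D ∧ Bd a t0 X D)).card : ℝ) ≤
      ε * X * Pool.Agent.H52.W.SR.pq Q X

end Pool.Agent.H52.AP
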